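import Pool.Agent.W_bb4b37_h5.Defs

/-! # GEO, part 1: algebra of the null vectors in the Hermitian model -/

set_option autoImplicit false

namespace Pool.Agent.BB4B37

open Complex Filter Topology Set MeasureTheory

/-- null vector of the ideal point `z` -/
noncomputable def lv (z : ℂ) : Mink := (‖z‖ ^ 2, z, 1)

/-- the other null vector, with parameter `q` (`= φ_z̄`) -/
noncomputable def mv (z q : ℂ) : Mink :=
  (‖1 + (starRingEnd ℂ) z * q‖ ^ 2, q * (1 + z * (starRingEnd ℂ) q), ‖q‖ ^ 2)

/-- derivative of `lv` in the direction `u` plus a multiple of `lv` -/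
noncomputable def Vv (z q u : ℂ) : Mink :=
  (2 * ((starRingEnd ℂ) z * u).re + 2 * ((starRingEnd ℂ) q * u).re * ‖z‖ ^ 2,
    u + ((2 * ((starRingEnd ℂ) q * u).re : ℝ) : ℂ) * z, 2 * ((starRingEnd ℂ) q * u).re)

theorem mip_comm (x y : Mink) : mip x y = mip y x := by
  simp only [mip, Complex.mul_re, Complex.conj_re, Complex.conj_im]; ring

theorem mip_add_left (x y n : Mink) : mip (x + y) n = mip x n + mip y n := by
  simp only [mip, Complex.mul_re, Complex.conj_re, Complex.conj_im, Prod.fst_add, Prod.snd_add,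
    Complex.add_re, Complex.add_im]; ring

theorem mip_sub_left (x y n : Mink) : mip (x - y) n = mip x n - mip y n := by
  simp only [mip, Complex.mul_re, Complex.conj_re, Complex.conj_im, Prod.fst_sub, Prod.snd_sub,
    Complex.sub_re, Complex.sub_im]; ring

theorem mip_smul_left (a : ℝ) (x n : Mink) : mip (a • x) n = a * mip x n := by
  simp only [mip, Complex.mul_re, Complex.conj_re, Complex.conj_im, Prod.smul_fst, Prod.smul_snd,
    Complex.real_smul, smul_eq_mul, Complex.ofReal_re, Complex.ofReal_im, Complex.mul_im]; ring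

theorem mip_add_right (x y n : Mink) : mip n (x + y) = mip n x + mip n y := by
  rw [mip_comm, mip_add_left, mip_comm x, mip_comm y]

theorem mip_sub_right (x y n : Mink) : mip n (x - y) = mip n x - mip n y := by
  rw [mip_comm, mip_sub_left, mip_comm x, mip_comm y]

theorem mip_smul_right (a : ℝ) (x n : Mink) : mip n (a • x) = a * mip n x := by
  rw [mip_comm, mip_smul_left, mip_comm x]

/-- unfolding everything to real coordinates -/
theorem mip_lv_lv (z z' : ℂ) : mip (lv z) (lv z') = -(‖z' - z‖ ^ 2) / 2 := by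
  simp only [mip, lv, Complex.sq_norm, Complex.normSq_apply, Complex.mul_re, Complex.conj_re,
    Complex.conj_im, Complex.sub_re, Complex.sub_im]; ring

theorem mip_lv_mv (z' z q : ℂ) :
    mip (lv z') (mv z q) = -(‖1 - (starRingEnd ℂ) q * (z' - z)‖ ^ 2) / 2 := by
  simp only [mip, lv, mv, Complex.sq_norm, Complex.normSq_apply, Complex.mul_re, Complex.mul_im,
    Complex.conj_re, Complex.conj_im, Complex.sub_re, Complex.sub_im, Complex.add_re,
    Complex.add_im, Complex.one_re, Complex.one_im]; ring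

theorem mip_mv_mv (z' q' z q : ℂ) :
    mip (mv z' q') (mv z q) = -(‖(starRingEnd ℂ) q' - (starRingEnd ℂ) q -
      (starRingEnd ℂ) q * (starRingEnd ℂ) q' * (z' - z)‖ ^ 2) / 2 := by
  simp only [mip, mv, Complex.sq_norm, Complex.normSq_apply, Complex.mul_re, Complex.mul_im,
    Complex.conj_re, Complex.conj_im, Complex.sub_re, Complex.sub_im, Complex.add_re,
    Complex.add_im, Complex.one_re, Complex.one_im]; ring

theorem mip_lv_Vv (z q u : ℂ) : mip (lv z) (Vv z q u) = 0 := by
  simp only [mip, lv, Vv, Complex.sq_norm, Complex.normSq_apply, Complex.mul_re, Complex.mul_im,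
    Complex.conj_re, Complex.conj_im, Complex.add_re, Complex.ofReal_re, Complex.ofReal_im,
    Complex.add_im]; ring

theorem mip_mv_Vv (z q u : ℂ) : mip (mv z q) (Vv z q u) = 0 := by
  simp only [mip, mv, Vv, Complex.sq_norm, Complex.normSq_apply, Complex.mul_re, Complex.mul_im,
    Complex.conj_re, Complex.conj_im, Complex.add_re, Complex.ofReal_re, Complex.ofReal_im,
    Complex.add_im, Complex.one_re, Complex.one_im]; ring

theorem mip_Vv_Vv (z q u u' : ℂ) : mip (Vv z q u) (Vv z q u') = (u * (starRingEnd ℂ) u').re := by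
  simp only [mip, Vv, Complex.sq_norm, Complex.normSq_apply, Complex.mul_re, Complex.mul_im,
    Complex.conj_re, Complex.conj_im, Complex.add_re, Complex.ofReal_re, Complex.ofReal_im,
    Complex.add_im]; ring

/-- the frame `lv, mv, Vv 1, Vv I` is a basis: completeness relation -/
theorem frame (z q : ℂ) (Y : Mink) :
    Y = (-2 * mip Y (mv z q)) • lv z + (-2 * mip Y (lv z)) • mv z q +
      (mip Y (Vv z q 1)) • Vv z q 1 + (mip Y (Vv z q I)) • Vv z q I := by
  obtain ⟨A, w, B⟩ := Y
  refine Prod.ext ?_ (Prod.ext (Complex.ext ?_ ?_) ?_) <;>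
  simp only [mip, lv, mv, Vv, Complex.sq_norm, Complex.normSq_apply, Complex.mul_re,
    Complex.mul_im, Complex.conj_re, Complex.conj_im, Complex.add_re, Complex.ofReal_re,
    Complex.ofReal_im, Complex.add_im, Complex.one_re, Complex.one_im, Complex.I_re,
    Complex.I_im, Prod.fst_add, Prod.snd_add, Prod.smul_fst, Prod.smul_snd, Complex.real_smul,
    smul_eq_mul] <;> ring

/-- additivity of `Vv` -/
theorem Vv_add (z q u u' : ℂ) : Vv z q (u + u') = Vv z q u + Vv z q u' := by
  refine Prod.ext ?_ (Prod.ext (Complex.ext ?_ ?_) ?_) <;>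
  simp only [Vv, Complex.mul_re, Complex.mul_im, Complex.conj_re, Complex.conj_im, Complex.add_re,
    Complex.ofReal_re, Complex.ofReal_im, Complex.add_im, Prod.fst_add, Prod.snd_add] <;> ring

theorem Vv_smul (z q u : ℂ) (a : ℝ) : Vv z q (a * u) = a • Vv z q u := by
  refine Prod.ext ?_ (Prod.ext (Complex.ext ?_ ?_) ?_) <;>
  simp only [Vv, Complex.mul_re, Complex.mul_im, Complex.conj_re, Complex.conj_im, Complex.add_re,
    Complex.ofReal_re, Complex.ofReal_im, Complex.add_im, Prod.smul_fst, Prod.smul_snd,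
    Complex.real_smul, smul_eq_mul] <;> ring

/-- `H3` in coordinates -/
theorem H3_iff (Y : Mink) : Y ∈ H3 ↔ ‖Y.2.1‖ ^ 2 - Y.1 * Y.2.2 = -1 ∧ 0 < Y.2.2 := by
  obtain ⟨A, w, B⟩ := Y
  simp only [H3, mip, mem_setOf_eq, Complex.mul_conj, Complex.ofReal_re, Complex.sq_norm]
  constructor
  · rintro ⟨h1, h2⟩
    have h3 : Complex.normSq w - A * B = -1 := by linarith
    refine ⟨h3, ?_⟩
    have := Complex.normSq_nonneg w
    by_contra h
    have : A * B ≤ 0 := mul_nonpos_of_nonneg_of_nonpos h2.le (not_lt.mp h)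
    linarith
  · rintro ⟨h1, h2⟩
    refine ⟨by linarith, ?_⟩
    have := Complex.normSq_nonneg w
    by_contra h
    have : A * B ≤ 0 := mul_nonpos_of_nonpos_of_nonneg (not_lt.mp h) h2.le
    linarith

theorem H3_lv {Y : Mink} (hY : Y ∈ H3) (z : ℂ) :
    mip Y (lv z) = -(‖Y.2.1 - Y.2.2 * z‖ ^ 2 + 1) / (2 * Y.2.2) := by
  obtain ⟨h1, h2⟩ := (H3_iff Y).1 hY
  obtain ⟨A, w, B⟩ := Y
  simp only at h1 h2 ⊢
  rw [eq_div_iff (by positivity)]
  simp only [mip, lv, Complex.sq_norm, Complex.normSq_apply, Complex.mul_re, Complex.mul_im,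
    Complex.conj_re, Complex.conj_im, Complex.sub_re, Complex.sub_im, Complex.ofReal_re,
    Complex.ofReal_im] at h1 ⊢
  linear_combination h1

theorem H3_mv {Y : Mink} (hY : Y ∈ H3) (z q : ℂ) :
    mip Y (mv z q) = -(‖q‖ ^ 2 + ‖(Y.2.2 : ℂ) - q * (starRingEnd ℂ) (Y.2.1 - Y.2.2 * z)‖ ^ 2) /
      (2 * Y.2.2) := by
  obtain ⟨h1, h2⟩ := (H3_iff Y).1 hY
  obtain ⟨A, w, B⟩ := Y
  simp only at h1 h2 ⊢
  rw [eq_div_iff (by positivity)]
  simp only [mip, mv, Complex.sq_norm, Complex.normSq_apply, Complex.mul_re, Complex.mul_im,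
    Complex.conj_re, Complex.conj_im, Complex.sub_re, Complex.sub_im, Complex.ofReal_re,
    Complex.ofReal_im, Complex.add_re, Complex.add_im, Complex.one_re, Complex.one_im] at h1 ⊢
  linear_combination (q.re * q.re + q.im * q.im) * h1

end Pool.Agent.BB4B37
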