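import Pool.Agent.W_bb4b37_h3.Der

/-! # GEO, part 3: pointwise bounds of a solution -/

set_option autoImplicit false

namespace Pool.Agent.BB4B37

open Complex Filter Topology Set MeasureTheory

/-- the geometric hypotheses on `E` used in GEO -/
structure GeoSet (E : Set ℂ) : Prop where
  closed : IsClosed E
  nonempty : E.Nonempty
  near : ∀ z, Metric.infDist z E ≤ 1

theorem GeoSet.pos {E : Set ℂ} (h : GeoSet E) {z : ℂ} (hz : z ∉ E) : 0 < Metric.infDist z E :=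
  (h.closed.notMem_iff_infDist_pos h.nonempty).1 hz

theorem Sol.cda {n : ℕ} {s M : ℝ} {E : Set ℂ} {φ : ℂ → ℝ} (hS : Sol n s M E φ) (h : GeoSet E)
    {z : ℂ} (hz : z ∉ E) : ContDiffAt ℝ n φ z :=
  hS.smooth.contDiffAt (h.closed.isOpen_compl.mem_nhds hz)

theorem Sol.M_nonneg {n : ℕ} {s M : ℝ} {E : Set ℂ} {φ : ℂ → ℝ} (hS : Sol n s M E φ)
    {z : ℂ} (hz : z ∉ E) : 0 ≤ M := (abs_nonneg _).trans (hS.size z hz)

theorem Sol.exp_ge {n : ℕ} {s M : ℝ} {E : Set ℂ} {φ : ℂ → ℝ} (hS : Sol n s M E φ) (h : GeoSet E)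
    {z : ℂ} (hz : z ∉ E) : Real.exp (-M) / Metric.infDist z E ≤ Real.exp (φ z) := by
  have h1 := abs_le.1 (hS.size z hz)
  have h2 := h.pos hz
  rw [div_le_iff₀ h2]
  have h3 : Real.exp (φ z) * Metric.infDist z E =
      Real.exp (φ z + Real.log (Metric.infDist z E)) := by
    rw [Real.exp_add, Real.exp_log h2]
  rw [h3]
  exact Real.exp_le_exp.2 h1.1

theorem Sol.exp_le {n : ℕ} {s M : ℝ} {E : Set ℂ} {φ : ℂ → ℝ} (hS : Sol n s M E φ) (h : GeoSet E)
    {z : ℂ} (hz : z ∉ E) : Real.exp (φ z) ≤ Real.exp M / Metric.infDist z E := by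
  have h1 := abs_le.1 (hS.size z hz)
  have h2 := h.pos hz
  rw [le_div_iff₀ h2]
  have h3 : Real.exp (φ z) * Metric.infDist z E =
      Real.exp (φ z + Real.log (Metric.infDist z E)) := by
    rw [Real.exp_add, Real.exp_log h2]
  rw [h3]
  exact Real.exp_le_exp.2 h1.2

theorem Sol.expn_le {n : ℕ} {s M : ℝ} {E : Set ℂ} {φ : ℂ → ℝ} (hS : Sol n s M E φ) (h : GeoSet E)
    {z : ℂ} (hz : z ∉ E) : Real.exp (-φ z) ≤ Real.exp M * Metric.infDist z E := by
  have h1 := hS.exp_ge h hz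
  have h2 := h.pos hz
  have h3 : Real.exp (-φ z) = (Real.exp (φ z))⁻¹ := Real.exp_neg _
  rw [h3, inv_le_comm₀ (Real.exp_pos _) (by positivity), mul_inv, ← Real.exp_neg]
  simpa [div_eq_mul_inv] using h1

theorem Sol.fderiv_le {n : ℕ} (hn : 1 ≤ n) {s M : ℝ} {E : Set ℂ} {φ : ℂ → ℝ}
    (hS : Sol n s M E φ) (h : GeoSet E) {z : ℂ} (hz : z ∉ E) :
    ‖fderiv ℝ φ z‖ ≤ M / Metric.infDist z E := by
  have h1 := hS.bound z hz 1 le_rfl hn
  rw [norm_iteratedFDeriv_one, pow_one] at h1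
  exact (le_div_iff₀ (h.pos hz)).2 h1

theorem Sol.q_le {n : ℕ} (hn : 1 ≤ n) {s M : ℝ} {E : Set ℂ} {φ : ℂ → ℝ}
    (hS : Sol n s M E φ) (h : GeoSet E) {z : ℂ} (hz : z ∉ E) :
    ‖dzb (cx φ) z‖ ≤ M / Metric.infDist z E := by
  have hd : DifferentiableAt ℝ φ z := (hS.cda h hz).differentiableAt (by
    have : (1 : WithTop ℕ∞) ≤ n := by exact_mod_cast hn
    intro h0; rw [h0] at this; simp at this)
  have h1 := hS.fderiv_le hn h hz
  have h2 : ‖fderiv ℝ φ z 1‖ ≤ M / Metric.infDist z E := by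
    refine ((fderiv ℝ φ z).le_opNorm 1).trans ?_
    simpa using h1
  have h3 : ‖fderiv ℝ φ z I‖ ≤ M / Metric.infDist z E := by
    refine ((fderiv ℝ φ z).le_opNorm I).trans ?_
    simpa using h1
  rw [dzb_cx hd, norm_div, Complex.norm_ofNat, div_le_iff₀ (by norm_num)]
  refine (norm_add_le _ _).trans ?_
  rw [norm_mul, Complex.norm_I, one_mul, Complex.norm_real, Complex.norm_real]
  linarith

theorem dzdz_cx {φ : ℂ → ℝ} {z : ℂ} (h : ContDiffAt ℝ 2 φ z) :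
    dz (dz (cx φ)) z = ((fderiv ℝ (px φ) z 1 : ℝ) - (fderiv ℝ (py φ) z I : ℝ) -
      I * ((fderiv ℝ (py φ) z 1 : ℝ) + (fderiv ℝ (px φ) z I : ℝ))) / 4 := by
  have hev : ∀ᶠ w in 𝓝 z, DifferentiableAt ℝ φ w :=
    (h.eventually (by simp)).mono fun w hw => hw.differentiableAt (by norm_num)
  have hf : DifferentiableAt ℝ (fderiv ℝ φ) z :=
    (h.fderiv_right (m := 1) (by norm_num)).differentiableAt (by norm_num)
  have h1 : DifferentiableAt ℝ (px φ) z := hf.clm_apply (differentiableAt_const _)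
  have h2 : DifferentiableAt ℝ (py φ) z := hf.clm_apply (differentiableAt_const _)
  have hz' : dz (cx φ) =ᶠ[𝓝 z] fun w => ((px φ w : ℝ) - I * (py φ w : ℝ)) / 2 :=
    hev.mono fun w hw => dz_cx hw
  have c1 := cx_hasFDerivAt h1
  have c2 := cx_hasFDerivAt h2
  have hD' : HasFDerivAt (fun w => (((px φ w : ℝ) : ℂ) - I * ((py φ w : ℝ) : ℂ)) / 2)
      ((2 : ℂ)⁻¹ • (Complex.ofRealCLM.comp (fderiv ℝ (px φ) z) -
        I • (Complex.ofRealCLM.comp (fderiv ℝ (py φ) z)))) z := by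
    simp only [div_eq_inv_mul]
    exact (c1.sub (c2.const_mul I)).const_mul _
  have hq' := hD'.congr_of_eventuallyEq hz'
  rw [show dz (dz (cx φ)) z = (fderiv ℝ (dz (cx φ)) z 1 - I * fderiv ℝ (dz (cx φ)) z I) / 2
      from rfl, hq'.fderiv]
  simp only [smul_apply, sub_apply, ContinuousLinearMap.comp_apply, Complex.ofRealCLM_apply,
      smul_eq_mul]
  linear_combination ((fderiv ℝ (py φ) z I : ℂ) / 4) * Complex.I_sq

/-- the constant that bounds `L` and `Q` -/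
noncomputable def CLQ (M : ℝ) : ℝ := 4 * Real.exp (2 * M) * (M + M ^ 2)

theorem Sol.LQ_le {n : ℕ} (hn : 2 ≤ n) {s M : ℝ} {E : Set ℂ} {φ : ℂ → ℝ}
    (hS : Sol n s M E φ) (h : GeoSet E) {z : ℂ} (hz : z ∉ E) :
    |Lc φ z| ≤ CLQ M ∧ ‖Qc φ z‖ ≤ CLQ M := by
  have hM := hS.M_nonneg hz
  set d := Metric.infDist z E with hdd
  have hd0 : 0 < d := h.pos hz
  have hc : ContDiffAt ℝ 2 φ z := (hS.cda h hz).of_le (by exact_mod_cast hn)
  have h1 := hS.bound z hz 2 (by norm_num) hn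
  have hq := hS.q_le (by omega) h hz
  -- second derivatives
  have hf : DifferentiableAt ℝ (fderiv ℝ φ) z :=
    (hc.fderiv_right (m := 1) (by norm_num)).differentiableAt (by norm_num)
  have h2 : ∀ u v : ℂ, ‖u‖ ≤ 1 → ‖v‖ ≤ 1 → |fderiv ℝ (fderiv ℝ φ) z u v| ≤ M / d ^ 2 := by
    intro u v hu hv
    have e : iteratedFDeriv ℝ 2 φ z ![u, v] = fderiv ℝ (fderiv ℝ φ) z u v := by
      simp [iteratedFDeriv_two_apply]
    rw [← e, ← Real.norm_eq_abs, le_div_iff₀ (by positivity)]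
    refine le_trans ?_ h1
    gcongr
    refine ((iteratedFDeriv ℝ 2 φ z).le_opNorm _).trans ?_
    have : ∏ i : Fin 2, ‖(![u, v] : Fin 2 → ℂ) i‖ ≤ 1 := by
      simp only [Fin.prod_univ_two, Matrix.cons_val_zero, Matrix.cons_val_one]
      exact mul_le_one₀ hu (norm_nonneg _) hv
    nlinarith [norm_nonneg (iteratedFDeriv ℝ 2 φ z)]
  have hx : ∀ u v : ℂ, fderiv ℝ (fun y => (fderiv ℝ φ y) v) z u = fderiv ℝ (fderiv ℝ φ) z u v := by
    intro u v
    have := (hf.hasFDerivAt.clm_apply (hasFDerivAt_const (v : ℂ) z)).fderiv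
    rw [this]; simp
  have hx1 : ∀ u : ℂ, fderiv ℝ (px φ) z u = fderiv ℝ (fderiv ℝ φ) z u 1 := fun u => hx u 1
  have hx2 : ∀ u : ℂ, fderiv ℝ (py φ) z u = fderiv ℝ (fderiv ℝ φ) z u I := fun u => hx u I
  have hL : |lap φ z| ≤ 2 * M / d ^ 2 := by
    have e : lap φ z = fderiv ℝ (fderiv ℝ φ) z 1 1 + fderiv ℝ (fderiv ℝ φ) z I I := by
      rw [← hx1, ← hx2]; rfl
    rw [e]
    refine (abs_add_le _ _).trans ?_
    have := h2 1 1 (by simp) (by simp)
    have := h2 I I (by simp) (by simp)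
    have e3 : 2 * M / d ^ 2 = M / d ^ 2 + M / d ^ 2 := by ring
    linarith
  have he : Real.exp (-2 * φ z) ≤ Real.exp (2 * M) * d ^ 2 := by
    have e1 : Real.exp (-2 * φ z) = Real.exp (-φ z) ^ 2 := by
      rw [← Real.exp_nat_mul]; congr 1; push_cast; ring
    have e2 : Real.exp (2 * M) = Real.exp M ^ 2 := by
      rw [← Real.exp_nat_mul]; congr 1
    rw [e1, e2, ← mul_pow]
    exact pow_le_pow_left₀ (Real.exp_pos _).le (hS.expn_le h hz) 2
  constructor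
  · rw [Lc, abs_mul, abs_of_pos (Real.exp_pos _)]
    calc Real.exp (-2 * φ z) * |lap φ z| ≤ (Real.exp (2 * M) * d ^ 2) * (2 * M / d ^ 2) := by
          gcongr
      _ = 2 * Real.exp (2 * M) * M := by field_simp
      _ ≤ CLQ M := by
          rw [CLQ]
          have := Real.exp_pos (2 * M)
          nlinarith [mul_nonneg this.le hM, mul_nonneg this.le (sq_nonneg M)]
  · have hzz : ‖dz (dz (cx φ)) z‖ ≤ M / d ^ 2 := by
      rw [dzdz_cx hc, hx1, hx1, hx2, hx2, norm_div, Complex.norm_ofNat,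
        div_le_iff₀ (by norm_num)]
      have a1 := h2 1 1 (by simp) (by simp)
      have a2 := h2 I I (by simp) (by simp)
      have a3 := h2 1 I (by simp) (by simp)
      have a4 := h2 I 1 (by simp) (by simp)
      refine (norm_sub_le _ _).trans ?_
      rw [norm_mul, Complex.norm_I, one_mul, ← Complex.ofReal_sub, ← Complex.ofReal_add,
        Complex.norm_real, Complex.norm_real, Real.norm_eq_abs, Real.norm_eq_abs]
      have b1 := abs_sub (fderiv ℝ (fderiv ℝ φ) z 1 1) (fderiv ℝ (fderiv ℝ φ) z I I)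
      have b2 := abs_add_le (fderiv ℝ (fderiv ℝ φ) z 1 I) (fderiv ℝ (fderiv ℝ φ) z I 1)
      linarith
    have hp : ‖dz (cx φ) z‖ ≤ M / d := by
      rw [dz_cx_conj (hc.differentiableAt (by norm_num)), Complex.norm_conj]; exact hq
    rw [Qc, norm_mul, norm_mul, Complex.norm_ofNat, Complex.norm_real,
      Real.norm_of_nonneg (Real.exp_pos _).le]
    have h5 : ‖dz (dz (cx φ)) z - dz (cx φ) z ^ 2‖ ≤ M / d ^ 2 + M ^ 2 / d ^ 2 := by
      refine (norm_sub_le _ _).trans ?_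
      rw [norm_pow]
      have : ‖dz (cx φ) z‖ ^ 2 ≤ (M / d) ^ 2 := pow_le_pow_left₀ (norm_nonneg _) hp 2
      rw [div_pow] at this
      linarith
    calc 4 * Real.exp (-2 * φ z) * ‖dz (dz (cx φ)) z - dz (cx φ) z ^ 2‖
        ≤ 4 * (Real.exp (2 * M) * d ^ 2) * (M / d ^ 2 + M ^ 2 / d ^ 2) := by gcongr
      _ = CLQ M := by rw [CLQ]; field_simp

end Pool.Agent.BB4B37
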