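import Pool.Agent.W_bb4b37_h3.Bd

/-! # GEO: the two point estimate (task)

Notation `d = infDist z E`, `d' = infDist z' E`, `D = z' - z`, `p = conj (dzb (cx φ) z)`, `p'` the same at `z'`
(`2 Re (p u) = fderiv ℝ φ z u`, `fderiv_real`). `d, d'` are positive, `≤ 1`, `|d - d'| ≤ ‖D‖`;
`e^{-M}/d ≤ e^{φ} ≤ e^M/d`, `e^{-φ} ≤ e^M d` (`Sol.exp_ge`, `exp_le`, `expn_le`), `‖p‖ ≤ M/d` (`Sol.q_le`). The right side is
`≥ e^{-2M} ‖D‖²/(d d')`.
Far case `‖D‖ > max d d' / 2` (so `d, d' ≤ 2‖D‖`): `e^{φ'-φ}‖1-pD‖² ≤ e^{2M}(d/d')(2 + 2M²‖D‖²/d²)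
= e^{2M}(2d²+2M²‖D‖²)/(dd') ≤ e^{2M}(8+2M²)‖D‖²/(dd')`, same for the second term;
`e^{-φ-φ'}‖p'-p-pp'D‖² ≤ e^{2M} d d' 3(M²/d'²+M²/d²+M⁴‖D‖²/(dd')²) ≤ e^{2M} 3 (8M² + M⁴) ‖D‖²/(dd')`.
Near case `‖D‖ ≤ m/2`, `m = max d d'`: at every point of the segment `[z,z']` the distance to `E` is `≥ m/2`
(so the segment is in `Eᶜ`, `‖Dφ‖ ≤ 2M/m`, `‖D²φ‖ ≤ 4M/m²` there). With `t = ‖D‖/m ≤ 1/2` and
`δ = φ' - φ`: `|δ| ≤ 2Mt`, `|δ - 2Re(pD)| ≤ 4M t²`, `|δ - 2Re(p'D)| ≤ 4M t²` (mean value inequality for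
`ζ ↦ φ ζ - Dφ(z)(ζ - z)` and bound of `D²φ`), `‖pD‖, ‖p'D‖ ≤ 2Mt`, and `|e^δ - 1 - δ| ≤ δ² e^{|δ|}`, hence both
`e^δ‖1-pD‖²` and `e^{-δ}‖1+p'D‖²` are `1 + O_M(t²)`; `‖p'-p‖ ≤ C M ‖D‖/m²` so
`e^{-φ-φ'}‖p'-p-pp'D‖² ≤ e^{2M} m² C_M ‖D‖²/m⁴`. The right side is `≥ e^{-2M}‖D‖²/m² = e^{-2M} t²`.
(For `M < 0` the set `Eᶜ` is empty; take e.g. the constant for `max M 0` or `|M|`.)
-/

set_option autoImplicit false

namespace Pool.Agent.BB4B37

open Complex Filter Topology Set MeasureTheory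

theorem cr_exp (x : ℝ) : |Real.exp x - 1 - x| ≤ x ^ 2 * Real.exp |x| := by
  have h0 : 0 ≤ Real.exp x - 1 - x := by
    have := Real.add_one_le_exp x
    linarith
  have h1 : Real.exp x * (1 - x) ≤ 1 := by
    have h2 : 1 - x ≤ Real.exp (-x) := by
      have := Real.add_one_le_exp (-x)
      linarith
    calc Real.exp x * (1 - x) ≤ Real.exp x * Real.exp (-x) :=
          mul_le_mul_of_nonneg_left h2 (Real.exp_pos x).le
      _ = 1 := by rw [← Real.exp_add, add_neg_cancel, Real.exp_zero]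
  rw [abs_of_nonneg h0]
  have h2 : Real.exp x - 1 - x ≤ x * (Real.exp x - 1) := by linarith
  refine h2.trans ?_
  rcases le_total 0 x with hx | hx
  · rw [abs_of_nonneg hx]
    have h3 : Real.exp x - 1 ≤ x * Real.exp x := by linarith
    calc x * (Real.exp x - 1) ≤ x * (x * Real.exp x) := mul_le_mul_of_nonneg_left h3 hx
      _ = x ^ 2 * Real.exp x := by ring
  · rw [abs_of_nonpos hx]
    have h3 : -x ≤ -x * Real.exp (-x) := by
      have h4 : 1 ≤ Real.exp (-x) := Real.one_le_exp (by linarith)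
      exact le_mul_of_one_le_right (by linarith) h4
    have h5 : 1 - Real.exp x ≤ -x * Real.exp (-x) := by
      have := Real.add_one_le_exp x
      linarith
    calc x * (Real.exp x - 1) = -x * (1 - Real.exp x) := by ring
      _ ≤ -x * (-x * Real.exp (-x)) := mul_le_mul_of_nonneg_left h5 (by linarith)
      _ = x ^ 2 * Real.exp (-x) := by ring

theorem cr_exp2 (x : ℝ) : |Real.exp x * (1 - x) - 1| ≤ x ^ 2 * Real.exp (2 * |x|) := by
  have h1 : Real.exp x * (1 - x) - 1 = -(Real.exp x * (Real.exp (-x) - 1 - -x)) := by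
    have h2 : Real.exp x * Real.exp (-x) = 1 := by
      rw [← Real.exp_add, add_neg_cancel, Real.exp_zero]
    linear_combination h2
  rw [h1, abs_neg, abs_mul, abs_of_pos (Real.exp_pos x)]
  have h3 := cr_exp (-x)
  rw [abs_neg, neg_sq] at h3
  calc Real.exp x * |Real.exp (-x) - 1 - -x| ≤ Real.exp |x| * (x ^ 2 * Real.exp |x|) :=
        mul_le_mul (Real.exp_le_exp.2 (le_abs_self x)) h3 (abs_nonneg _) (Real.exp_pos _).le
    _ = x ^ 2 * Real.exp (2 * |x|) := by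
        rw [two_mul, Real.exp_add]
        ring

theorem cr_sq (a : ℂ) : ‖1 + a‖ ^ 2 = 1 + 2 * a.re + ‖a‖ ^ 2 := by
  simp only [Complex.sq_norm, Complex.normSq_apply, Complex.add_re, Complex.add_im,
    Complex.one_re, Complex.one_im]
  ring

/-- the scalar part of the near case -/
theorem cr_AB {δ M t : ℝ} {a b : ℂ} (hM : 0 ≤ M) (ht : 0 ≤ t) (ht2 : t ≤ 1 / 2)
    (h1 : |δ| ≤ 2 * M * t) (h2 : |δ - 2 * a.re| ≤ 4 * M * t ^ 2)
    (h3 : |δ - 2 * b.re| ≤ 4 * M * t ^ 2) (ha : ‖a‖ ≤ 2 * M * t) (hb : ‖b‖ ≤ 2 * M * t) :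
    |Real.exp δ * ‖1 - a‖ ^ 2 - Real.exp (-δ) * ‖1 + b‖ ^ 2| ≤
      Real.exp (2 * M) * (16 * M ^ 2 + 8 * M) * t ^ 2 := by
  have hδM : |δ| ≤ M := h1.trans (by
    have := mul_le_mul_of_nonneg_left ht2 (by linarith : 0 ≤ 2 * M)
    linarith)
  have hδ2 : δ ^ 2 ≤ 4 * M ^ 2 * t ^ 2 := by
    have := pow_le_pow_left₀ (abs_nonneg δ) h1 2
    rw [sq_abs] at this
    calc δ ^ 2 ≤ (2 * M * t) ^ 2 := this
      _ = 4 * M ^ 2 * t ^ 2 := by ring
  have ha2 : ‖a‖ ^ 2 ≤ 4 * M ^ 2 * t ^ 2 := by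
    calc ‖a‖ ^ 2 ≤ (2 * M * t) ^ 2 := pow_le_pow_left₀ (norm_nonneg a) ha 2
      _ = 4 * M ^ 2 * t ^ 2 := by ring
  have hb2 : ‖b‖ ^ 2 ≤ 4 * M ^ 2 * t ^ 2 := by
    calc ‖b‖ ^ 2 ≤ (2 * M * t) ^ 2 := pow_le_pow_left₀ (norm_nonneg b) hb 2
      _ = 4 * M ^ 2 * t ^ 2 := by ring
  obtain ⟨e1, he1⟩ : ∃ e1, e1 = ‖1 - a‖ ^ 2 - (1 - δ) := ⟨_, rfl⟩
  obtain ⟨e2, he2⟩ : ∃ e2, e2 = ‖1 + b‖ ^ 2 - (1 + δ) := ⟨_, rfl⟩
  have hA : ‖1 - a‖ ^ 2 = (1 - δ) + e1 := by linarith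
  have hB : ‖1 + b‖ ^ 2 = (1 + δ) + e2 := by linarith
  have he1' : |e1| ≤ (4 * M + 4 * M ^ 2) * t ^ 2 := by
    have h4 : e1 = (δ - 2 * a.re) + ‖a‖ ^ 2 := by
      have := cr_sq (-a)
      rw [← sub_eq_add_neg, norm_neg, Complex.neg_re] at this
      rw [he1, this]
      ring
    rw [h4]
    refine (abs_add_le _ _).trans ?_
    rw [abs_of_nonneg (sq_nonneg ‖a‖)]
    linarith
  have he2' : |e2| ≤ (4 * M + 4 * M ^ 2) * t ^ 2 := by
    have h4 : e2 = -(δ - 2 * b.re) + ‖b‖ ^ 2 := by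
      rw [he2, cr_sq]
      ring
    rw [h4]
    refine (abs_add_le _ _).trans ?_
    rw [abs_of_nonneg (sq_nonneg ‖b‖), abs_neg]
    linarith
  have g1 := cr_exp2 δ
  have g2 := cr_exp2 (-δ)
  rw [abs_neg, neg_sq, sub_neg_eq_add] at g2
  have hE : Real.exp (2 * |δ|) ≤ Real.exp (2 * M) := Real.exp_le_exp.2 (by linarith)
  have hE1 : Real.exp δ ≤ Real.exp (2 * M) :=
    Real.exp_le_exp.2 (by linarith [le_abs_self δ])
  have hE2 : Real.exp (-δ) ≤ Real.exp (2 * M) :=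
    Real.exp_le_exp.2 (by linarith [neg_abs_le δ])
  have hEp := Real.exp_pos (2 * M)
  have k1 : δ ^ 2 * Real.exp (2 * |δ|) ≤ 4 * M ^ 2 * t ^ 2 * Real.exp (2 * M) :=
    mul_le_mul hδ2 hE (Real.exp_pos _).le (by positivity)
  have k2 : |Real.exp δ * e1| ≤ Real.exp (2 * M) * ((4 * M + 4 * M ^ 2) * t ^ 2) := by
    rw [abs_mul, abs_of_pos (Real.exp_pos δ)]
    exact mul_le_mul hE1 he1' (abs_nonneg _) hEp.le
  have k3 : |Real.exp (-δ) * e2| ≤ Real.exp (2 * M) * ((4 * M + 4 * M ^ 2) * t ^ 2) := by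
    rw [abs_mul, abs_of_pos (Real.exp_pos (-δ))]
    exact mul_le_mul hE2 he2' (abs_nonneg _) hEp.le
  have h5 : Real.exp δ * ‖1 - a‖ ^ 2 - Real.exp (-δ) * ‖1 + b‖ ^ 2 =
      (Real.exp δ * (1 - δ) - 1) - (Real.exp (-δ) * (1 + δ) - 1) + Real.exp δ * e1 -
        Real.exp (-δ) * e2 := by
    rw [hA, hB]
    ring
  rw [h5]
  have q1 := abs_sub (Real.exp δ * (1 - δ) - 1 - (Real.exp (-δ) * (1 + δ) - 1) + Real.exp δ * e1)
    (Real.exp (-δ) * e2)
  have q2 := abs_add_le (Real.exp δ * (1 - δ) - 1 - (Real.exp (-δ) * (1 + δ) - 1))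
    (Real.exp δ * e1)
  have q3 := abs_sub (Real.exp δ * (1 - δ) - 1) (Real.exp (-δ) * (1 + δ) - 1)
  linarith

/-- the far case, scalar part: one exponential factor times the square of a norm -/
theorem cr_far1 {M d d' N φ φ' : ℝ} {a : ℂ} (hM : 0 ≤ M) (hd : 0 < d) (hd' : 0 < d')
    (hN : d ≤ 2 * N) (h1 : Real.exp φ' ≤ Real.exp M / d') (h2 : Real.exp (-φ) ≤ Real.exp M * d)
    (ha : ‖a‖ ≤ M / d * N) :
    Real.exp (φ' - φ) * ‖1 + a‖ ^ 2 ≤
      Real.exp (2 * M) * (8 + 2 * M ^ 2) * (N ^ 2 / (d * d')) := by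
  have e1 : Real.exp (φ' - φ) ≤ Real.exp (2 * M) * (d / d') := by
    rw [sub_eq_add_neg, Real.exp_add]
    calc Real.exp φ' * Real.exp (-φ) ≤ (Real.exp M / d') * (Real.exp M * d) :=
          mul_le_mul h1 h2 (Real.exp_pos _).le (by positivity)
      _ = Real.exp (2 * M) * (d / d') := by
          rw [two_mul, Real.exp_add]
          ring
  have e2 : ‖1 + a‖ ^ 2 ≤ 2 + 2 * (M / d * N) ^ 2 := by
    have h3 : ‖1 + a‖ ≤ 1 + M / d * N := by
      refine (norm_add_le _ _).trans ?_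
      rw [norm_one]
      linarith
    have h4 : ‖1 + a‖ ^ 2 ≤ (1 + M / d * N) ^ 2 := pow_le_pow_left₀ (norm_nonneg _) h3 2
    have h5 := sq_nonneg (1 - M / d * N)
    linarith
  calc Real.exp (φ' - φ) * ‖1 + a‖ ^ 2
      ≤ (Real.exp (2 * M) * (d / d')) * (2 + 2 * (M / d * N) ^ 2) :=
        mul_le_mul e1 e2 (by positivity) (by positivity)
    _ = Real.exp (2 * M) * ((2 * d ^ 2 + 2 * M ^ 2 * N ^ 2) / (d * d')) := by
        field_simp
    _ ≤ Real.exp (2 * M) * ((2 * (2 * N) ^ 2 + 2 * M ^ 2 * N ^ 2) / (d * d')) := by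
        gcongr
    _ = Real.exp (2 * M) * (8 + 2 * M ^ 2) * (N ^ 2 / (d * d')) := by ring

theorem cr_far2 {M d d' N φ φ' : ℝ} {a : ℂ} (hM : 0 ≤ M) (hd : 0 < d) (hd' : 0 < d')
    (hN : d ≤ 2 * N) (hN' : d' ≤ 2 * N) (h1 : Real.exp (-φ') ≤ Real.exp M * d')
    (h2 : Real.exp (-φ) ≤ Real.exp M * d) (hN0 : 0 ≤ N)
    (ha : ‖a‖ ≤ M / d' + M / d + M / d * (M / d') * N) :
    Real.exp (-φ - φ') * ‖a‖ ^ 2 ≤
      Real.exp (2 * M) * (4 * M + M ^ 2) ^ 2 * (N ^ 2 / (d * d')) := by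
  have e1 : Real.exp (-φ - φ') ≤ Real.exp (2 * M) * (d * d') := by
    rw [sub_eq_add_neg, Real.exp_add]
    calc Real.exp (-φ) * Real.exp (-φ') ≤ (Real.exp M * d) * (Real.exp M * d') :=
          mul_le_mul h2 h1 (Real.exp_pos _).le (by positivity)
      _ = Real.exp (2 * M) * (d * d') := by
          rw [two_mul, Real.exp_add]
          ring
  have e2 : M / d' + M / d + M / d * (M / d') * N = (M * d + M * d' + M ^ 2 * N) / (d * d') := by
    field_simp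
  have e3 : M * d + M * d' + M ^ 2 * N ≤ (4 * M + M ^ 2) * N := by
    have i1 := mul_le_mul_of_nonneg_left hN hM
    have i2 := mul_le_mul_of_nonneg_left hN' hM
    linarith
  have e4 : ‖a‖ ≤ (4 * M + M ^ 2) * N / (d * d') := by
    refine ha.trans (e2.le.trans ?_)
    gcongr
  calc Real.exp (-φ - φ') * ‖a‖ ^ 2
      ≤ (Real.exp (2 * M) * (d * d')) * ((4 * M + M ^ 2) * N / (d * d')) ^ 2 := by
        refine mul_le_mul e1 (pow_le_pow_left₀ (norm_nonneg _) e4 2) (by positivity)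
          (by positivity)
    _ = Real.exp (2 * M) * (4 * M + M ^ 2) ^ 2 * (N ^ 2 / (d * d')) := by
        field_simp

/-- lower bound of the right side -/
theorem cr_R {M d d' N φ φ' : ℝ} (hd : 0 < d) (hd' : 0 < d')
    (h1 : Real.exp (-M) / d ≤ Real.exp φ) (h2 : Real.exp (-M) / d' ≤ Real.exp φ') :
    N ^ 2 / (d * d') ≤ Real.exp (2 * M) * (Real.exp (φ + φ') * N ^ 2) := by
  have e1 : Real.exp (-(2 * M)) / (d * d') ≤ Real.exp (φ + φ') := by
    rw [Real.exp_add]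
    calc Real.exp (-(2 * M)) / (d * d') = (Real.exp (-M) / d) * (Real.exp (-M) / d') := by
          rw [div_mul_div_comm, ← Real.exp_add]
          congr 2
          ring
      _ ≤ Real.exp φ * Real.exp φ' := mul_le_mul h1 h2 (by positivity) (Real.exp_pos _).le
  have e2 : Real.exp (2 * M) * Real.exp (-(2 * M)) = 1 := by
    rw [← Real.exp_add, add_neg_cancel, Real.exp_zero]
  calc N ^ 2 / (d * d') = Real.exp (2 * M) * (Real.exp (-(2 * M)) / (d * d') * N ^ 2) := by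
        rw [show Real.exp (2 * M) * (Real.exp (-(2 * M)) / (d * d') * N ^ 2) =
          (Real.exp (2 * M) * Real.exp (-(2 * M))) * (N ^ 2 / (d * d')) by ring, e2, one_mul]
    _ ≤ Real.exp (2 * M) * (Real.exp (φ + φ') * N ^ 2) := by gcongr

/-- the calculus part of the near case -/
theorem cr_near {s M : ℝ} {E : Set ℂ} {φ : ℂ → ℝ} (hE : GeoSet E) (hS : Sol 6 s M E φ)
    {z z' : ℂ} (hz : z ∉ E) {m : ℝ} (hm : 0 < m)
    (hseg : ∀ ζ ∈ segment ℝ z z', m / 2 ≤ Metric.infDist ζ E) :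
    |φ z' - φ z| ≤ 2 * M * (‖z' - z‖ / m) ∧
    |φ z' - φ z - 2 * ((starRingEnd ℂ) (dzb (cx φ) z) * (z' - z)).re| ≤
      4 * M * (‖z' - z‖ / m) ^ 2 ∧
    |φ z' - φ z - 2 * ((starRingEnd ℂ) (dzb (cx φ) z') * (z' - z)).re| ≤
      4 * M * (‖z' - z‖ / m) ^ 2 ∧
    ‖(starRingEnd ℂ) (dzb (cx φ) z') - (starRingEnd ℂ) (dzb (cx φ) z)‖ ≤
      4 * M / m ^ 2 * ‖z' - z‖ := by
  have hM := hS.M_nonneg hz
  have hne : ∀ ζ ∈ segment ℝ z z', ζ ∉ E := by
    intro ζ hζ h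
    have h1 := hseg ζ hζ
    rw [Metric.infDist_zero_of_mem h] at h1
    linarith
  have hcd : ∀ ζ ∈ segment ℝ z z', ContDiffAt ℝ 2 φ ζ := fun ζ hζ =>
    (hS.cda hE (hne ζ hζ)).of_le (by norm_num)
  have hd1 : ∀ ζ ∈ segment ℝ z z', DifferentiableAt ℝ φ ζ := fun ζ hζ =>
    (hcd ζ hζ).differentiableAt (by norm_num)
  have hd2 : ∀ ζ ∈ segment ℝ z z', DifferentiableAt ℝ (fderiv ℝ φ) ζ := fun ζ hζ =>
    ((hcd ζ hζ).fderiv_right (m := 1) (by norm_num)).differentiableAt (by norm_num)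
  have hb1 : ∀ ζ ∈ segment ℝ z z', ‖fderiv ℝ φ ζ‖ ≤ 2 * M / m := by
    intro ζ hζ
    refine (hS.fderiv_le (by norm_num) hE (hne ζ hζ)).trans ?_
    calc M / Metric.infDist ζ E ≤ M / (m / 2) :=
          div_le_div_of_nonneg_left hM (by positivity) (hseg ζ hζ)
      _ = 2 * M / m := by field_simp
  have hb2 : ∀ ζ ∈ segment ℝ z z', ‖fderiv ℝ (fderiv ℝ φ) ζ‖ ≤ 4 * M / m ^ 2 := by
    intro ζ hζ
    have h1 := hS.bound ζ (hne ζ hζ) 2 (by norm_num) (by norm_num)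
    have h2 : ‖fderiv ℝ (fderiv ℝ φ) ζ‖ = ‖iteratedFDeriv ℝ 2 φ ζ‖ := by
      rw [← norm_iteratedFDeriv_one, norm_iteratedFDeriv_fderiv]
    rw [h2, le_div_iff₀ (by positivity)]
    have h3 : (m / 2) ^ 2 ≤ Metric.infDist ζ E ^ 2 :=
      pow_le_pow_left₀ (by positivity) (hseg ζ hζ) 2
    have h4 := mul_le_mul_of_nonneg_left h3 (norm_nonneg (iteratedFDeriv ℝ 2 φ ζ))
    linarith
  have hzs : z ∈ segment ℝ z z' := left_mem_segment ℝ z z'
  have hzs' : z' ∈ segment ℝ z z' := right_mem_segment ℝ z z'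
  have hcv : Convex ℝ (segment ℝ z z') := convex_segment z z'
  have hgrad : ∀ x ∈ segment ℝ z z', ∀ y ∈ segment ℝ z z',
      ‖fderiv ℝ φ y - fderiv ℝ φ x‖ ≤ 4 * M / m ^ 2 * ‖y - x‖ := fun x hx y hy =>
    hcv.norm_image_sub_le_of_norm_fderiv_le hd2 hb2 hx hy
  have hk : 0 ≤ 4 * M / m ^ 2 := by positivity
  have hsq : 4 * M / m ^ 2 * ‖z' - z‖ * ‖z' - z‖ = 4 * M * (‖z' - z‖ / m) ^ 2 := by
    rw [div_pow]
    field_simp
  refine ⟨?_, ?_, ?_, ?_⟩
  · have h1 := hcv.norm_image_sub_le_of_norm_fderiv_le hd1 hb1 hzs hzs'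
    rw [Real.norm_eq_abs] at h1
    refine h1.trans (le_of_eq ?_)
    ring
  · have h1 : ∀ ζ ∈ segment ℝ z z', ‖fderiv ℝ φ ζ - fderiv ℝ φ z‖ ≤
        4 * M / m ^ 2 * ‖z' - z‖ := fun ζ hζ =>
      (hgrad z hzs ζ hζ).trans (mul_le_mul_of_nonneg_left (norm_sub_le_of_mem_segment hζ) hk)
    have h2 := hcv.norm_image_sub_le_of_norm_fderiv_le' hd1 h1 hzs hzs'
    rw [Real.norm_eq_abs, fderiv_real (hd1 z hzs)] at h2
    exact h2.trans (le_of_eq hsq)
  · have h1 : ∀ ζ ∈ segment ℝ z z', ‖fderiv ℝ φ ζ - fderiv ℝ φ z'‖ ≤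
        4 * M / m ^ 2 * ‖z' - z‖ := fun ζ hζ => by
      refine (hgrad z' hzs' ζ hζ).trans (mul_le_mul_of_nonneg_left ?_ hk)
      rw [← norm_neg (z' - z), neg_sub]
      exact norm_sub_le_of_mem_segment (by rwa [segment_symm])
    have h2 := hcv.norm_image_sub_le_of_norm_fderiv_le' hd1 h1 hzs hzs'
    rw [Real.norm_eq_abs, fderiv_real (hd1 z' hzs')] at h2
    exact h2.trans (le_of_eq hsq)
  · rw [← map_sub, Complex.norm_conj, dzb_cx (hd1 z hzs), dzb_cx (hd1 z' hzs')]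
    have h1 := hgrad z hzs z' hzs'
    have h2 : |fderiv ℝ φ z' 1 - fderiv ℝ φ z 1| ≤ 4 * M / m ^ 2 * ‖z' - z‖ := by
      have h3 := ContinuousLinearMap.le_opNorm (fderiv ℝ φ z' - fderiv ℝ φ z) 1
      rw [norm_one, mul_one, sub_apply, Real.norm_eq_abs] at h3
      exact h3.trans h1
    have h4 : |fderiv ℝ φ z' I - fderiv ℝ φ z I| ≤ 4 * M / m ^ 2 * ‖z' - z‖ := by
      have h3 := ContinuousLinearMap.le_opNorm (fderiv ℝ φ z' - fderiv ℝ φ z) I
      rw [Complex.norm_I, mul_one, sub_apply, Real.norm_eq_abs] at h3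
      exact h3.trans h1
    have e : (((fderiv ℝ φ z' 1 : ℝ) : ℂ) + I * ((fderiv ℝ φ z' I : ℝ) : ℂ)) / 2 -
        (((fderiv ℝ φ z 1 : ℝ) : ℂ) + I * ((fderiv ℝ φ z I : ℝ) : ℂ)) / 2 =
        (((fderiv ℝ φ z' 1 - fderiv ℝ φ z 1 : ℝ) : ℂ) +
          I * ((fderiv ℝ φ z' I - fderiv ℝ φ z I : ℝ) : ℂ)) / 2 := by
      push_cast
      ring
    rw [e, norm_div, Complex.norm_ofNat, div_le_iff₀ (by norm_num)]
    refine (norm_add_le _ _).trans ?_
    rw [norm_mul, Complex.norm_I, one_mul, Complex.norm_real, Complex.norm_real,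
      Real.norm_eq_abs, Real.norm_eq_abs]
    linarith

/-- the constant -/
noncomputable def crC (M : ℝ) : ℝ :=
  16 + 4 * M ^ 2 + 8 * (4 * M + M ^ 2) ^ 2 + (32 * M ^ 2 + 16 * M + 128 * (M + M ^ 2) ^ 2)

theorem cr_bound {s M : ℝ} {E : Set ℂ} {φ : ℂ → ℝ} (hE : GeoSet E) (hS : Sol 6 s M E φ)
    {z z' : ℂ} (hz : z ∉ E) (hz' : z' ∉ E) :
    2 * |Real.exp (φ z' - φ z) * ‖1 - (starRingEnd ℂ) (dzb (cx φ) z) * (z' - z)‖ ^ 2 -
      Real.exp (φ z - φ z') * ‖1 + (starRingEnd ℂ) (dzb (cx φ) z') * (z' - z)‖ ^ 2| +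
    8 * (Real.exp (-φ z - φ z') * ‖(starRingEnd ℂ) (dzb (cx φ) z') -
      (starRingEnd ℂ) (dzb (cx φ) z) - (starRingEnd ℂ) (dzb (cx φ) z) *
        (starRingEnd ℂ) (dzb (cx φ) z') * (z' - z)‖ ^ 2) ≤
    Real.exp (2 * M) * crC M *
      (‖z' - z‖ ^ 2 / (Metric.infDist z E * Metric.infDist z' E)) := by
  have hM := hS.M_nonneg hz
  have hd := hE.pos hz
  have hd' := hE.pos hz'
  have u1 := hS.exp_le hE hz
  have u1' := hS.exp_le hE hz'
  have u2 := hS.expn_le hE hz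
  have u2' := hS.expn_le hE hz'
  have hp : ‖(starRingEnd ℂ) (dzb (cx φ) z)‖ ≤ M / Metric.infDist z E := by
    rw [Complex.norm_conj]
    exact hS.q_le (by norm_num) hE hz
  have hp' : ‖(starRingEnd ℂ) (dzb (cx φ) z')‖ ≤ M / Metric.infDist z' E := by
    rw [Complex.norm_conj]
    exact hS.q_le (by norm_num) hE hz'
  have hE2 := Real.exp_pos (2 * M)
  have hN := norm_nonneg (z' - z)
  by_cases hfar : Metric.infDist z E ≤ 2 * ‖z' - z‖ ∧ Metric.infDist z' E ≤ 2 * ‖z' - z‖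
  · -- far case
    obtain ⟨f1, f2⟩ := hfar
    generalize (starRingEnd ℂ) (dzb (cx φ) z) = p at hp ⊢
    generalize (starRingEnd ℂ) (dzb (cx φ) z') = p' at hp' ⊢
    have a1 : ‖-(p * (z' - z))‖ ≤ M / Metric.infDist z E * ‖z' - z‖ := by
      rw [norm_neg, norm_mul]
      exact mul_le_mul_of_nonneg_right hp hN
    have a2 : ‖p' * (z' - z)‖ ≤ M / Metric.infDist z' E * ‖z' - z‖ := by
      rw [norm_mul]
      exact mul_le_mul_of_nonneg_right hp' hN
    have a3 : ‖p' - p - p * p' * (z' - z)‖ ≤ M / Metric.infDist z' E + M / Metric.infDist z E +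
        M / Metric.infDist z E * (M / Metric.infDist z' E) * ‖z' - z‖ := by
      have i1 := norm_sub_le (p' - p) (p * p' * (z' - z))
      have i2 := norm_sub_le p' p
      have i3 : ‖p * p' * (z' - z)‖ ≤
          M / Metric.infDist z E * (M / Metric.infDist z' E) * ‖z' - z‖ := by
        rw [norm_mul, norm_mul]
        exact mul_le_mul_of_nonneg_right (mul_le_mul hp hp' (norm_nonneg _) (by positivity)) hN
      linarith
    have b1 := cr_far1 (φ := φ z) (φ' := φ z') hM hd hd' f1 u1' u2 a1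
    have b2 := cr_far1 (φ := φ z') (φ' := φ z) hM hd' hd f2 u1 u2' a2
    have b3 := cr_far2 (φ := φ z) (φ' := φ z') hM hd hd' f1 f2 u2' u2 hN a3
    rw [← sub_eq_add_neg] at b1
    rw [mul_comm (Metric.infDist z' E)] at b2
    have c1 : 0 ≤ Real.exp (φ z' - φ z) * ‖1 - p * (z' - z)‖ ^ 2 := by positivity
    have c2 : 0 ≤ Real.exp (φ z - φ z') * ‖1 + p' * (z' - z)‖ ^ 2 := by positivity
    have hX : 0 ≤ ‖z' - z‖ ^ 2 / (Metric.infDist z E * Metric.infDist z' E) := by positivity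
    generalize ‖z' - z‖ ^ 2 / (Metric.infDist z E * Metric.infDist z' E) = X at b1 b2 b3 hX ⊢
    generalize Real.exp (φ z' - φ z) * ‖1 - p * (z' - z)‖ ^ 2 = A at b1 c1 ⊢
    generalize Real.exp (φ z - φ z') * ‖1 + p' * (z' - z)‖ ^ 2 = B at b2 c2 ⊢
    generalize Real.exp (-φ z - φ z') * ‖p' - p - p * p' * (z' - z)‖ ^ 2 = W at b3 ⊢
    have c3 : |A - B| ≤ Real.exp (2 * M) * (8 + 2 * M ^ 2) * X :=
      abs_le.2 ⟨by linarith, by linarith⟩
    have c4 : 0 ≤ Real.exp (2 * M) * (32 * M ^ 2 + 16 * M + 128 * (M + M ^ 2) ^ 2) * X := by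
      positivity
    rw [crC]
    linarith
  · -- near case
    have hm : 0 < max (Metric.infDist z E) (Metric.infDist z' E) := lt_max_of_lt_left hd
    obtain ⟨m, hmdef⟩ : ∃ m, m = max (Metric.infDist z E) (Metric.infDist z' E) := ⟨_, rfl⟩
    rw [← hmdef] at hm
    have m1 : Metric.infDist z E ≤ m := hmdef ▸ le_max_left _ _
    have m2 : Metric.infDist z' E ≤ m := hmdef ▸ le_max_right _ _
    have hNm : ‖z' - z‖ ≤ m / 2 := by
      by_contra h
      apply hfar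
      constructor <;> linarith
    have hseg : ∀ ζ ∈ segment ℝ z z', m / 2 ≤ Metric.infDist ζ E := by
      intro ζ hζ
      rcases le_total (Metric.infDist z E) (Metric.infDist z' E) with h | h
      · rw [max_eq_right h] at hmdef
        have i1 : Metric.infDist z' E ≤ Metric.infDist ζ E + dist z' ζ :=
          Metric.infDist_le_infDist_add_dist
        have i2 : dist z' ζ ≤ ‖z' - z‖ := by
          rw [dist_comm, dist_eq_norm, ← norm_neg (z' - z), neg_sub]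
          exact norm_sub_le_of_mem_segment (by rwa [segment_symm])
        linarith
      · rw [max_eq_left h] at hmdef
        have i1 : Metric.infDist z E ≤ Metric.infDist ζ E + dist z ζ :=
          Metric.infDist_le_infDist_add_dist
        have i2 : dist z ζ ≤ ‖z' - z‖ := by
          rw [dist_comm, dist_eq_norm]
          exact norm_sub_le_of_mem_segment hζ
        linarith
    obtain ⟨n1, n2, n3, n4⟩ := cr_near hE hS hz hm hseg
    have hdm := hseg z (left_mem_segment ℝ z z')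
    have hdm' := hseg z' (right_mem_segment ℝ z z')
    have hpm : ‖(starRingEnd ℂ) (dzb (cx φ) z)‖ ≤ 2 * M / m := by
      refine hp.trans ?_
      calc M / Metric.infDist z E ≤ M / (m / 2) :=
            div_le_div_of_nonneg_left hM (by positivity) hdm
        _ = 2 * M / m := by field_simp
    have hpm' : ‖(starRingEnd ℂ) (dzb (cx φ) z')‖ ≤ 2 * M / m := by
      refine hp'.trans ?_
      calc M / Metric.infDist z' E ≤ M / (m / 2) :=
            div_le_div_of_nonneg_left hM (by positivity) hdm'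
        _ = 2 * M / m := by field_simp
    generalize (starRingEnd ℂ) (dzb (cx φ) z) = p at hpm n2 n4 ⊢
    generalize (starRingEnd ℂ) (dzb (cx φ) z') = p' at hpm' n3 n4 ⊢
    have ht : 0 ≤ ‖z' - z‖ / m := by positivity
    have ht2 : ‖z' - z‖ / m ≤ 1 / 2 := by
      rw [div_le_iff₀ hm]
      linarith
    have a1 : ‖p * (z' - z)‖ ≤ 2 * M * (‖z' - z‖ / m) := by
      rw [norm_mul]
      calc ‖p‖ * ‖z' - z‖ ≤ 2 * M / m * ‖z' - z‖ := mul_le_mul_of_nonneg_right hpm hN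
        _ = _ := by ring
    have a2 : ‖p' * (z' - z)‖ ≤ 2 * M * (‖z' - z‖ / m) := by
      rw [norm_mul]
      calc ‖p'‖ * ‖z' - z‖ ≤ 2 * M / m * ‖z' - z‖ := mul_le_mul_of_nonneg_right hpm' hN
        _ = _ := by ring
    have c1 := cr_AB hM ht ht2 n1 n2 n3 a1 a2
    rw [neg_sub] at c1
    have a3 : ‖p' - p - p * p' * (z' - z)‖ ≤ 4 * (M + M ^ 2) * (‖z' - z‖ / m) / m := by
      have i1 := norm_sub_le (p' - p) (p * p' * (z' - z))
      have i3 : ‖p * p' * (z' - z)‖ ≤ 2 * M / m * (2 * M / m) * ‖z' - z‖ := by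
        rw [norm_mul, norm_mul]
        exact mul_le_mul_of_nonneg_right (mul_le_mul hpm hpm' (norm_nonneg _) (by positivity)) hN
      have i4 : 4 * M / m ^ 2 * ‖z' - z‖ + 2 * M / m * (2 * M / m) * ‖z' - z‖ =
          4 * (M + M ^ 2) * (‖z' - z‖ / m) / m := by
        field_simp
        ring
      linarith
    have c2 : Real.exp (-φ z - φ z') ≤ Real.exp (2 * M) * m ^ 2 := by
      rw [sub_eq_add_neg, Real.exp_add]
      calc Real.exp (-φ z) * Real.exp (-φ z') ≤ (Real.exp M * m) * (Real.exp M * m) := by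
            refine mul_le_mul (u2.trans ?_) (u2'.trans ?_) (Real.exp_pos _).le (by positivity)
            · exact mul_le_mul_of_nonneg_left m1 (Real.exp_pos _).le
            · exact mul_le_mul_of_nonneg_left m2 (Real.exp_pos _).le
        _ = Real.exp (2 * M) * m ^ 2 := by
            rw [two_mul, Real.exp_add]
            ring
    have c3 : Real.exp (-φ z - φ z') * ‖p' - p - p * p' * (z' - z)‖ ^ 2 ≤
        Real.exp (2 * M) * (16 * (M + M ^ 2) ^ 2) * (‖z' - z‖ / m) ^ 2 := by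
      calc Real.exp (-φ z - φ z') * ‖p' - p - p * p' * (z' - z)‖ ^ 2
          ≤ (Real.exp (2 * M) * m ^ 2) * (4 * (M + M ^ 2) * (‖z' - z‖ / m) / m) ^ 2 :=
            mul_le_mul c2 (pow_le_pow_left₀ (norm_nonneg _) a3 2) (by positivity)
              (by positivity)
        _ = _ := by
            field_simp
            ring
    have c4 : (‖z' - z‖ / m) ^ 2 ≤
        ‖z' - z‖ ^ 2 / (Metric.infDist z E * Metric.infDist z' E) := by
      rw [div_pow]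
      refine div_le_div_of_nonneg_left (by positivity) (by positivity) ?_
      rw [sq]
      exact mul_le_mul m1 m2 hd'.le hm.le
    have c5 : Real.exp (2 * M) * (32 * M ^ 2 + 16 * M + 128 * (M + M ^ 2) ^ 2) *
        (‖z' - z‖ / m) ^ 2 ≤ Real.exp (2 * M) *
          (32 * M ^ 2 + 16 * M + 128 * (M + M ^ 2) ^ 2) *
        (‖z' - z‖ ^ 2 / (Metric.infDist z E * Metric.infDist z' E)) :=
      mul_le_mul_of_nonneg_left c4 (by positivity)
    have hX : 0 ≤ ‖z' - z‖ ^ 2 / (Metric.infDist z E * Metric.infDist z' E) := by positivity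
    generalize ‖z' - z‖ ^ 2 / (Metric.infDist z E * Metric.infDist z' E) = X at c5 hX ⊢
    generalize (‖z' - z‖ / m) ^ 2 = T at c1 c3 c5
    have c6 : 0 ≤ Real.exp (2 * M) * (16 + 4 * M ^ 2 + 8 * (4 * M + M ^ 2) ^ 2) * X := by
      positivity
    rw [crC]
    linarith

theorem cross_est (M : ℝ) : ∃ C : ℝ, 0 < C ∧ ∀ E : Set ℂ, GeoSet E → ∀ (s : ℝ) (φ : ℂ → ℝ),
    Sol 6 s M E φ → ∀ z ∉ E, ∀ z' ∉ E,
    2 * |Real.exp (φ z' - φ z) * ‖1 - (starRingEnd ℂ) (dzb (cx φ) z) * (z' - z)‖ ^ 2 -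
      Real.exp (φ z - φ z') * ‖1 + (starRingEnd ℂ) (dzb (cx φ) z') * (z' - z)‖ ^ 2| +
    8 * (Real.exp (-φ z - φ z') * ‖(starRingEnd ℂ) (dzb (cx φ) z') -
      (starRingEnd ℂ) (dzb (cx φ) z) - (starRingEnd ℂ) (dzb (cx φ) z) *
        (starRingEnd ℂ) (dzb (cx φ) z') * (z' - z)‖ ^ 2) ≤
    C * (Real.exp (φ z + φ z') * ‖z' - z‖ ^ 2) := by
  have hpos : 0 < crC |M| := by
    have := abs_nonneg M
    rw [crC]
    positivity
  refine ⟨Real.exp (2 * |M|) * crC |M| * Real.exp (2 * |M|), by positivity, ?_⟩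
  intro E hE s φ hS z hz z' hz'
  have hM := hS.M_nonneg hz
  rw [abs_of_nonneg hM] at hpos ⊢
  refine (cr_bound hE hS hz hz').trans ?_
  have h1 := cr_R (N := ‖z' - z‖) (hE.pos hz) (hE.pos hz') (hS.exp_ge hE hz) (hS.exp_ge hE hz')
  have h2 := mul_le_mul_of_nonneg_left h1 (by positivity : 0 ≤ Real.exp (2 * M) * crC M)
  rwa [← mul_assoc] at h2

end Pool.Agent.BB4B37
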