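import Pool.Agent.W_bb4b37_h3.Bd

/-! # GEO: curvature of the K-surface (task)

Proof. At `z₀ ∉ E` take (on the whole open set `Eᶜ`, φ is C⁶ there)
 `a z = e^{φ}(1 + s L)/(2√s)` (real valued), `b z = e^{φ} s conj(Q)/(2√s)`, `p z = I * dz (cx φ) z`.
* `g z v = ‖a v + b v̄‖²` is `geo_I` (norm of a real factor comes out: `e^{2φ}/(4s) = (e^φ/(2√s))²`);
* `‖b‖ < ‖a‖` is `hsm`;
* first structure equation: with `Lc φ z = 4 e^{-2φ} φ_{z z̄}` (`lap = 4 φ_{z z̄}`, `φ_{zz̄} = dz (dzb (cx φ))`)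
  and `conj Q = 4 e^{-2φ}(φ_{z̄z̄} - φ_z̄²)` it reduces to the identity
  `dz (conj Q) + 2 φ_z conj Q = dzb L`, i.e. `φ_{z̄z̄z} - 2 φ_z̄ φ_{zz̄} = φ_{zz̄z̄} - 2 φ_z̄ φ_{zz̄}` (symmetry of third
  derivatives). Convenient: write everything in terms of `q = dzb (cx φ)`: `dz q = (lap φ)/4` and
  `dzb q = e^{2φ} conj Q /4 + q²` near `z₀` (`q_fderiv`), so `e^{2φ} L = 4 dz q`, `e^{2φ} conj Q = 4 (dzb q - q²)`
  as functions near `z₀`, and the identity is `dz (dzb q) = dzb (dz q)` (q is C², use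
  `ContDiffAt.isSymmSndFDerivAt`).
* second structure equation: both sides are computed with `dz q = e^{2φ} L/4` and `hS.eq`:
  `(1+sL)² - s²|Q|² = 1 + 2sL + (L - 1) = (1+2s) L`.
-/

set_option autoImplicit false

namespace Pool.Agent.BB4B37

open Complex Filter Topology Set MeasureTheory

section Wirtinger

variable {f g : ℂ → ℂ} {z : ℂ}

theorem cv_cda_px {m n : WithTop ℕ∞} (h : ContDiffAt ℝ n f z) (hmn : m + 1 ≤ n) :
    ContDiffAt ℝ m (px f) z := (h.fderiv_right hmn).clm_apply contDiffAt_const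

theorem cv_cda_py {m n : WithTop ℕ∞} (h : ContDiffAt ℝ n f z) (hmn : m + 1 ≤ n) :
    ContDiffAt ℝ m (py f) z := (h.fderiv_right hmn).clm_apply contDiffAt_const

theorem cv_cda_dz {m n : WithTop ℕ∞} (h : ContDiffAt ℝ n f z) (hmn : m + 1 ≤ n) :
    ContDiffAt ℝ m (dz f) z := by
  have h1 : dz f = fun w => (px f w - I * py f w) * (2 : ℂ)⁻¹ := by
    funext w; simp only [dz, div_eq_mul_inv]
  rw [h1]
  exact ((cv_cda_px h hmn).sub (contDiffAt_const.mul (cv_cda_py h hmn))).mul contDiffAt_const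

theorem cv_cda_dzb {m n : WithTop ℕ∞} (h : ContDiffAt ℝ n f z) (hmn : m + 1 ≤ n) :
    ContDiffAt ℝ m (dzb f) z := by
  have h1 : dzb f = fun w => (px f w + I * py f w) * (2 : ℂ)⁻¹ := by
    funext w; simp only [dzb, div_eq_mul_inv]
  rw [h1]
  exact ((cv_cda_px h hmn).add (contDiffAt_const.mul (cv_cda_py h hmn))).mul contDiffAt_const

theorem cv_dz_congr (h : f =ᶠ[𝓝 z] g) : dz f z = dz g z := by
  simp only [dz, px, py, h.fderiv_eq]

theorem cv_dzb_congr (h : f =ᶠ[𝓝 z] g) : dzb f z = dzb g z := by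
  simp only [dzb, px, py, h.fderiv_eq]

theorem cv_fderiv_mul (hf : DifferentiableAt ℝ f z) (hg : DifferentiableAt ℝ g z) (u : ℂ) :
    fderiv ℝ (fun w => f w * g w) z u = f z * fderiv ℝ g z u + g z * fderiv ℝ f z u := by
  have h := (hf.hasFDerivAt.mul hg.hasFDerivAt).fderiv
  have h2 : fderiv ℝ (fun w => f w * g w) z = f z • fderiv ℝ g z + g z • fderiv ℝ f z := h
  rw [h2]
  rfl

theorem cv_dz_mul (hf : DifferentiableAt ℝ f z) (hg : DifferentiableAt ℝ g z) :
    dz (fun w => f w * g w) z = f z * dz g z + g z * dz f z := by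
  simp only [dz, px, py, cv_fderiv_mul hf hg]
  ring

theorem cv_dzb_mul (hf : DifferentiableAt ℝ f z) (hg : DifferentiableAt ℝ g z) :
    dzb (fun w => f w * g w) z = f z * dzb g z + g z * dzb f z := by
  simp only [dzb, px, py, cv_fderiv_mul hf hg]
  ring

theorem cv_fderiv_cmul (c : ℂ) (hg : DifferentiableAt ℝ g z) (u : ℂ) :
    fderiv ℝ (fun w => c * g w) z u = c * fderiv ℝ g z u := by
  have h2 : fderiv ℝ (fun w => c * g w) z = c • fderiv ℝ g z :=
    (hg.hasFDerivAt.const_mul c).fderiv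
  rw [h2]
  rfl

theorem cv_dz_cmul (c : ℂ) (hg : DifferentiableAt ℝ g z) :
    dz (fun w => c * g w) z = c * dz g z := by
  simp only [dz, px, py, cv_fderiv_cmul c hg]
  ring

theorem cv_dzb_cmul (c : ℂ) (hg : DifferentiableAt ℝ g z) :
    dzb (fun w => c * g w) z = c * dzb g z := by
  simp only [dzb, px, py, cv_fderiv_cmul c hg]
  ring

theorem cv_fderiv_add (hf : DifferentiableAt ℝ f z) (hg : DifferentiableAt ℝ g z) (u : ℂ) :
    fderiv ℝ (fun w => f w + g w) z u = fderiv ℝ f z u + fderiv ℝ g z u := by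
  have h2 : fderiv ℝ (fun w => f w + g w) z = fderiv ℝ f z + fderiv ℝ g z :=
    (hf.hasFDerivAt.add hg.hasFDerivAt).fderiv
  rw [h2]
  rfl

theorem cv_fderiv_sub (hf : DifferentiableAt ℝ f z) (hg : DifferentiableAt ℝ g z) (u : ℂ) :
    fderiv ℝ (fun w => f w - g w) z u = fderiv ℝ f z u - fderiv ℝ g z u := by
  have h2 : fderiv ℝ (fun w => f w - g w) z = fderiv ℝ f z - fderiv ℝ g z :=
    (hf.hasFDerivAt.sub hg.hasFDerivAt).fderiv
  rw [h2]
  rfl

theorem cv_dzb_add (hf : DifferentiableAt ℝ f z) (hg : DifferentiableAt ℝ g z) :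
    dzb (fun w => f w + g w) z = dzb f z + dzb g z := by
  simp only [dzb, px, py, cv_fderiv_add hf hg]
  ring

theorem cv_dz_sub (hf : DifferentiableAt ℝ f z) (hg : DifferentiableAt ℝ g z) :
    dz (fun w => f w - g w) z = dz f z - dz g z := by
  simp only [dz, px, py, cv_fderiv_sub hf hg]
  ring

theorem cv_dzb_conj (hf : DifferentiableAt ℝ f z) :
    dzb (fun w => (starRingEnd ℂ) (f w)) z = (starRingEnd ℂ) (dz f z) := by
  have h2 : fderiv ℝ (fun w => (starRingEnd ℂ) (f w)) z =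
      (Complex.conjCLE : ℂ →L[ℝ] ℂ).comp (fderiv ℝ f z) :=
    (Complex.conjCLE.hasFDerivAt.comp z hf.hasFDerivAt).fderiv
  simp only [dzb, dz, px, py, h2]
  simp only [ContinuousLinearMap.comp_apply, map_div₀, map_sub, map_mul, Complex.conj_I,
    Complex.conj_ofNat]
  change ((starRingEnd ℂ) (fderiv ℝ f z 1) + I * (starRingEnd ℂ) (fderiv ℝ f z I)) / 2 = _
  ring

/-- symmetry of the second derivative -/
theorem cv_symm (hf : ContDiffAt ℝ 2 f z) : dz (dzb f) z = dzb (dz f) z := by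
  have hfd : DifferentiableAt ℝ (fderiv ℝ f) z :=
    (hf.fderiv_right (m := 1) (by norm_num)).differentiableAt (by norm_num)
  have h1 : DifferentiableAt ℝ (px f) z := hfd.clm_apply (differentiableAt_const _)
  have h2 : DifferentiableAt ℝ (py f) z := hfd.clm_apply (differentiableAt_const _)
  have hs : fderiv ℝ (px f) z I = fderiv ℝ (py f) z 1 := by
    have e1 : fderiv ℝ (px f) z I = fderiv ℝ (fderiv ℝ f) z I 1 := by
      have := (hfd.hasFDerivAt.clm_apply (hasFDerivAt_const (1 : ℂ) z)).fderiv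
      rw [show px f = fun y => (fderiv ℝ f y) 1 from rfl, this]; simp
    have e2 : fderiv ℝ (py f) z 1 = fderiv ℝ (fderiv ℝ f) z 1 I := by
      have := (hfd.hasFDerivAt.clm_apply (hasFDerivAt_const (I : ℂ) z)).fderiv
      rw [show py f = fun y => (fderiv ℝ f y) I from rfl, this]; simp
    rw [e1, e2]
    exact (hf.isSymmSndFDerivAt (by simp)).eq I 1
  have k1 : ∀ u, fderiv ℝ (dzb f) z u = 2⁻¹ * (fderiv ℝ (px f) z u + I * fderiv ℝ (py f) z u) := by
    intro u
    have e : dzb f = fun w => (2 : ℂ)⁻¹ * (px f w + I * py f w) := by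
      funext w; simp only [dzb, div_eq_inv_mul]
    have hI : DifferentiableAt ℝ (fun w => I * py f w) z := h2.const_mul I
    have hA : DifferentiableAt ℝ (fun w => px f w + I * py f w) z := h1.add hI
    rw [e, cv_fderiv_cmul _ hA, cv_fderiv_add h1 hI, cv_fderiv_cmul _ h2]
  have k2 : ∀ u, fderiv ℝ (dz f) z u = 2⁻¹ * (fderiv ℝ (px f) z u - I * fderiv ℝ (py f) z u) := by
    intro u
    have e : dz f = fun w => (2 : ℂ)⁻¹ * (px f w - I * py f w) := by
      funext w; simp only [dz, div_eq_inv_mul]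
    have hI : DifferentiableAt ℝ (fun w => I * py f w) z := h2.const_mul I
    have hA : DifferentiableAt ℝ (fun w => px f w - I * py f w) z := h1.sub hI
    rw [e, cv_fderiv_cmul _ hA, cv_fderiv_sub h1 hI, cv_fderiv_cmul _ h2]
  rw [show dz (dzb f) z = (fderiv ℝ (dzb f) z 1 - I * fderiv ℝ (dzb f) z I) / 2 from rfl,
    show dzb (dz f) z = (fderiv ℝ (dz f) z 1 + I * fderiv ℝ (dz f) z I) / 2 from rfl,
    k1, k1, k2, k2, hs]
  ring

end Wirtinger

/-- the derivative of `e^{t φ}` -/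
theorem cv_exp {φ : ℂ → ℝ} {z : ℂ} (h : DifferentiableAt ℝ φ z) (t : ℝ) :
    DifferentiableAt ℝ (fun w => (Real.exp (t * φ w) : ℂ)) z ∧
    dz (fun w => (Real.exp (t * φ w) : ℂ)) z =
      t * (Real.exp (t * φ z) : ℂ) * (starRingEnd ℂ) (dzb (cx φ) z) ∧
    dzb (fun w => (Real.exp (t * φ w) : ℂ)) z =
      t * (Real.exp (t * φ z) : ℂ) * dzb (cx φ) z := by
  have h1 : HasFDerivAt (fun w => Real.exp (t * φ w))
      (Real.exp (t * φ z) • (t • fderiv ℝ φ z)) z := (h.hasFDerivAt.const_mul t).exp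
  have h2 : HasFDerivAt (fun w => (Real.exp (t * φ w) : ℂ))
      (Complex.ofRealCLM.comp (Real.exp (t * φ z) • (t • fderiv ℝ φ z))) z :=
    Complex.ofRealCLM.hasFDerivAt.comp z h1
  have h3 : ∀ u, fderiv ℝ (fun w => (Real.exp (t * φ w) : ℂ)) z u =
      (Real.exp (t * φ z) : ℂ) * (t * (fderiv ℝ φ z u : ℝ)) := by
    intro u
    rw [h2.fderiv]
    simp only [ContinuousLinearMap.comp_apply, smul_apply, smul_eq_mul,
      Complex.ofRealCLM_apply, Complex.ofReal_mul]
  refine ⟨h2.differentiableAt, ?_, ?_⟩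
  · rw [← dz_cx_conj h, dz_cx h]
    simp only [dz, px, py, h3]
    ring
  · rw [dzb_cx h]
    simp only [dzb, px, py, h3]
    ring

theorem geo_curv {s M : ℝ} (hs : 0 < s) {E : Set ℂ} (hE : GeoSet E) {φ : ℂ → ℝ}
    (hS : Sol 6 s M E φ) (hsm : ∀ z ∉ E, s * ‖Qc φ z‖ < 1 + s * Lc φ z) :
    HasCurv (-(4 * s) / (1 + 2 * s)) Eᶜ
      (fun z v => mip (fderiv ℝ (Xs s φ) z v) (fderiv ℝ (Xs s φ) z v)) := by
  intro z₀ hz₀
  have hopen : IsOpen Eᶜ := hE.closed.isOpen_compl
  have hc6 : ∀ z ∉ E, ContDiffAt ℝ 6 φ z := fun z hz => by exact_mod_cast hS.cda hE hz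
  have hcx : ∀ z ∉ E, ContDiffAt ℝ 6 (cx φ) z := fun z hz =>
    Complex.ofRealCLM.contDiff.contDiffAt.comp z (hc6 z hz)
  obtain ⟨q, hq⟩ : ∃ q : ℂ → ℂ, q = dzb (cx φ) := ⟨_, rfl⟩
  have hq5 : ∀ z ∉ E, ContDiffAt ℝ 5 q z := fun z hz => by
    rw [hq]; exact cv_cda_dzb (hcx z hz) (by norm_num)
  have hqz : ∀ z ∉ E, ContDiffAt ℝ 4 (dz q) z := fun z hz =>
    cv_cda_dz (hq5 z hz) (by norm_num)
  have hqzb : ∀ z ∉ E, ContDiffAt ℝ 4 (dzb q) z := fun z hz =>
    cv_cda_dzb (hq5 z hz) (by norm_num)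
  have hexp : ∀ t : ℝ, ∀ z ∉ E, ContDiffAt ℝ 6 (fun w => (Real.exp (t * φ w) : ℂ)) z := by
    intro t z hz
    exact Complex.ofRealCLM.contDiff.contDiffAt.comp z
      ((contDiffAt_const.mul (hc6 z hz)).exp)
  obtain ⟨c, hc⟩ : ∃ c : ℝ, c = 1 / (2 * Real.sqrt s) := ⟨_, rfl⟩
  have hsq : Real.sqrt s * Real.sqrt s = s := Real.mul_self_sqrt hs.le
  have hsq0 : 0 < Real.sqrt s := Real.sqrt_pos.2 hs
  have hcpos : 0 < c := by rw [hc]; positivity
  have hcc : c ^ 2 * (4 * s) = 1 := by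
    rw [hc, div_pow, mul_pow, one_pow, pow_two (Real.sqrt s), hsq]
    field_simp
    norm_num
  -- values of the derivatives of `q`
  have hdq : ∀ z ∉ E, dz q z = ((Real.exp (2 * φ z) / 4 * Lc φ z : ℝ) : ℂ) ∧
      dzb q z = ((Real.exp (2 * φ z) / 4 : ℝ) : ℂ) * (starRingEnd ℂ) (Qc φ z) + q z ^ 2 := by
    intro z hz
    have h2 : ContDiffAt ℝ 2 φ z := (hc6 z hz).of_le (by norm_num)
    have e1 := (q_fderiv h2 1).2
    have e2 := (q_fderiv h2 I).2
    rw [← hq] at e1 e2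
    constructor
    · rw [show dz q z = (fderiv ℝ q z 1 - I * fderiv ℝ q z I) / 2 from rfl, e1, e2]
      simp only [map_one, Complex.conj_I, Complex.ofReal_mul, Complex.ofReal_div,
        Complex.ofReal_ofNat]
      linear_combination (-((Real.exp (2 * φ z) : ℂ)) / 8 * ((Lc φ z : ℂ) -
        (starRingEnd ℂ) (Qc φ z)) + q z ^ 2 / 2) * Complex.I_sq
    · rw [show dzb q z = (fderiv ℝ q z 1 + I * fderiv ℝ q z I) / 2 from rfl, e1, e2]
      simp only [map_one, Complex.conj_I, Complex.ofReal_mul, Complex.ofReal_div,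
        Complex.ofReal_ofNat]
      linear_combination ((Real.exp (2 * φ z) : ℂ) / 8 * ((Lc φ z : ℂ) -
        (starRingEnd ℂ) (Qc φ z)) - q z ^ 2 / 2) * Complex.I_sq
  obtain ⟨a, ha⟩ : ∃ a : ℂ → ℂ, a = fun z => (c : ℂ) * ((Real.exp (1 * φ z) : ℂ) +
    (4 * s : ℂ) * ((Real.exp (-1 * φ z) : ℂ) * dz q z)) := ⟨_, rfl⟩
  obtain ⟨b, hb⟩ : ∃ b : ℂ → ℂ, b = fun z => (c : ℂ) *
    ((4 * s : ℂ) * ((Real.exp (-1 * φ z) : ℂ) * (dzb q z - q z * q z))) := ⟨_, rfl⟩
  obtain ⟨p, hp⟩ : ∃ p : ℂ → ℂ, p = fun z => I * (starRingEnd ℂ) (q z) := ⟨_, rfl⟩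
  have hee : ∀ z, Real.exp (-1 * φ z) * Real.exp (2 * φ z) = Real.exp (φ z) := by
    intro z
    rw [← Real.exp_add]; congr 1; ring
  have hav : ∀ z ∉ E, a z = ((c * Real.exp (φ z) * (1 + s * Lc φ z) : ℝ) : ℂ) := by
    intro z hz
    rw [ha]
    dsimp only
    rw [(hdq z hz).1, one_mul, ← hee z]
    simp only [Complex.ofReal_mul, Complex.ofReal_div, Complex.ofReal_ofNat, Complex.ofReal_add,
      Complex.ofReal_one]
    ring
  have hbv : ∀ z ∉ E, b z = ((c * Real.exp (φ z) : ℝ) : ℂ) * (s * (starRingEnd ℂ) (Qc φ z)) := by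
    intro z hz
    rw [hb]
    dsimp only
    rw [(hdq z hz).2, ← hee z]
    simp only [Complex.ofReal_mul, Complex.ofReal_div, Complex.ofReal_ofNat]
    ring
  refine ⟨a, b, p, ?_, ?_, ?_, ?_⟩
  · rw [ha]
    exact contDiffAt_const.mul (((hexp 1 z₀ hz₀).of_le (by norm_num)).add (contDiffAt_const.mul
      (((hexp (-1) z₀ hz₀).of_le (by norm_num)).mul ((hqz z₀ hz₀).of_le (by norm_num)))))
  · rw [hb]
    exact contDiffAt_const.mul (contDiffAt_const.mul
      (((hexp (-1) z₀ hz₀).of_le (by norm_num)).mul (((hqzb z₀ hz₀).of_le (by norm_num)).sub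
        (((hq5 z₀ hz₀).of_le (by norm_num)).mul ((hq5 z₀ hz₀).of_le (by norm_num))))))
  · rw [hp]
    exact contDiffAt_const.mul (Complex.conjCLE.contDiff.contDiffAt.comp z₀
      ((hq5 z₀ hz₀).of_le (by norm_num)))
  · filter_upwards [hopen.mem_nhds hz₀] with z hz
    have hz' : z ∉ E := hz
    have h2 : ContDiffAt ℝ 2 φ z := (hc6 z hz').of_le (by norm_num)
    have hd : DifferentiableAt ℝ φ z := h2.differentiableAt (by norm_num)
    have hE1 : Real.exp (2 * φ z) = Real.exp (φ z) ^ 2 := by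
      rw [← Real.exp_nat_mul]; congr 1
    have hcexp : 0 < c * Real.exp (φ z) := mul_pos hcpos (Real.exp_pos _)
    have hfac : Real.exp (2 * φ z) / (4 * s) = (c * Real.exp (φ z)) ^ 2 := by
      rw [div_eq_iff (by positivity), hE1]
      linear_combination (-(Real.exp (φ z)) ^ 2) * hcc
    have hna : ‖a z‖ = c * Real.exp (φ z) * (1 + s * Lc φ z) := by
      rw [hav z hz', Complex.norm_real, Real.norm_of_nonneg]
      have := hsm z hz'
      have h3 : 0 ≤ s * ‖Qc φ z‖ := by positivity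
      have h4 : 0 ≤ 1 + s * Lc φ z := by linarith
      positivity
    have hnb : ‖b z‖ = c * Real.exp (φ z) * (s * ‖Qc φ z‖) := by
      rw [hbv z hz', norm_mul, Complex.norm_real, Real.norm_of_nonneg hcexp.le, norm_mul,
        Complex.norm_real, Real.norm_of_nonneg hs.le, Complex.norm_conj]
    have hqd : DifferentiableAt ℝ q z := (hq5 z hz').differentiableAt (by norm_num)
    have hqzd : DifferentiableAt ℝ (dz q) z := (hqz z hz').differentiableAt (by norm_num)
    have hqzbd : DifferentiableAt ℝ (dzb q) z := (hqzb z hz').differentiableAt (by norm_num)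
    obtain ⟨hF1, hF2, hF3⟩ := cv_exp hd 1
    obtain ⟨hG1, hG2, hG3⟩ := cv_exp hd (-1)
    rw [← hq] at hF2 hF3 hG2 hG3
    refine ⟨fun v => ?_, ?_, ?_, ?_⟩
    · rw [geo_I hs h2 v, hfac, hav z hz', hbv z hz']
      have h3 : ((c * Real.exp (φ z) * (1 + s * Lc φ z) : ℝ) : ℂ) * v +
          ((c * Real.exp (φ z) : ℝ) : ℂ) * (s * (starRingEnd ℂ) (Qc φ z)) * (starRingEnd ℂ) v =
          ((c * Real.exp (φ z) : ℝ) : ℂ) * ((1 + (s : ℂ) * (Lc φ z : ℂ)) * v +
            (s : ℂ) * (starRingEnd ℂ) (Qc φ z) * (starRingEnd ℂ) v) := by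
        simp only [Complex.ofReal_mul, Complex.ofReal_add, Complex.ofReal_one]
        ring
      rw [h3, norm_mul, Complex.norm_real, Real.norm_of_nonneg hcexp.le]
      ring
    · rw [hna, hnb]
      exact mul_lt_mul_of_pos_left (hsm z hz') hcexp
    · have hqq : DifferentiableAt ℝ (fun w => q w * q w) z := hqd.mul hqd
      have hin : DifferentiableAt ℝ (fun w => dzb q w - q w * q w) z := hqzbd.sub hqq
      have hGin : DifferentiableAt ℝ
          (fun w => (Real.exp (-1 * φ w) : ℂ) * (dzb q w - q w * q w)) z := hG1.mul hin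
      have hGq : DifferentiableAt ℝ (fun w => (Real.exp (-1 * φ w) : ℂ) * dz q w) z :=
        hG1.mul hqzd
      have hGin4 : DifferentiableAt ℝ
          (fun w => (4 * s : ℂ) * ((Real.exp (-1 * φ w) : ℂ) * (dzb q w - q w * q w))) z :=
        hGin.const_mul _
      have hGq4 : DifferentiableAt ℝ
          (fun w => (4 * s : ℂ) * ((Real.exp (-1 * φ w) : ℂ) * dz q w)) z := hGq.const_mul _
      have hsum : DifferentiableAt ℝ (fun w => (Real.exp (1 * φ w) : ℂ) +
          (4 * s : ℂ) * ((Real.exp (-1 * φ w) : ℂ) * dz q w)) z := hF1.add hGq4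
      have e1 : dz b z = (c : ℂ) * ((4 * s : ℂ) * ((Real.exp (-1 * φ z) : ℂ) *
          (dz (dzb q) z - (q z * dz q z + q z * dz q z)) + (dzb q z - q z * q z) *
            (((-1 : ℝ) : ℂ) * (Real.exp (-1 * φ z) : ℂ) * (starRingEnd ℂ) (q z)))) := by
        rw [hb, cv_dz_cmul _ hGin4, cv_dz_cmul _ hGin, cv_dz_mul hG1 hin,
          cv_dz_sub hqzbd hqq, cv_dz_mul hqd hqd, hG2]
      have e2 : dzb a z = (c : ℂ) * (((1 : ℝ) : ℂ) * (Real.exp (1 * φ z) : ℂ) * q z +
          (4 * s : ℂ) * ((Real.exp (-1 * φ z) : ℂ) * dzb (dz q) z + dz q z *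
            (((-1 : ℝ) : ℂ) * (Real.exp (-1 * φ z) : ℂ) * q z))) := by
        rw [ha, cv_dzb_cmul _ hsum, cv_dzb_add hF1 hGq4,
          cv_dzb_cmul _ hGq, cv_dzb_mul hG1 hqzd, hF3, hG3]
      have e3 := cv_symm ((hq5 z hz').of_le (by norm_num) : ContDiffAt ℝ 2 q z)
      rw [e1, e2, e3, hp, ha, hb]
      simp only [map_mul, Complex.conj_I, Complex.conj_conj]
      generalize (Real.exp (-1 * φ z) : ℂ) = G1
      generalize (Real.exp (1 * φ z) : ℂ) = F1
      generalize dzb (dz q) z = T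
      generalize dzb q z = B
      generalize dz q z = A
      generalize (starRingEnd ℂ) (q z) = Q'
      simp only [Complex.ofReal_neg, Complex.ofReal_one]
      linear_combination (-(Q' * (c * ((4 * s : ℂ) * (G1 * (B - q z * q z))))) -
        q z * (c * (F1 + (4 * s : ℂ) * (G1 * A)))) * Complex.I_sq
    · have hp1 : (fun w => (starRingEnd ℂ) (p w)) = fun w => -I * q w := by
        funext w
        rw [hp]
        simp only [map_mul, Complex.conj_I, Complex.conj_conj]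
      have e1 : dzb p z = I * (starRingEnd ℂ) (dz q z) := by
        have hcq : DifferentiableAt ℝ (fun w => (starRingEnd ℂ) (q w)) z :=
          Complex.conjCLE.differentiableAt.comp z hqd
        rw [hp, cv_dzb_cmul _ hcq, cv_dzb_conj hqd]
      rw [hp1, cv_dz_cmul _ hqd, e1, hna, hnb, (hdq z hz').1, Complex.conj_ofReal]
      have heq := hS.eq z hz'
      have hk : (1 + 2 * s) ≠ 0 := by positivity
      have hreal : -(Real.exp (2 * φ z) / 4 * Lc φ z) * 2 =
          (-(4 * s) / (1 + 2 * s)) / 2 * ((c * Real.exp (φ z) * (1 + s * Lc φ z)) ^ 2 -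
            (c * Real.exp (φ z) * (s * ‖Qc φ z‖)) ^ 2) := by
        have h5 : (c * Real.exp (φ z) * (1 + s * Lc φ z)) ^ 2 -
            (c * Real.exp (φ z) * (s * ‖Qc φ z‖)) ^ 2 =
            (c * Real.exp (φ z)) ^ 2 * ((1 + 2 * s) * Lc φ z) := by
          linear_combination (-(c * Real.exp (φ z)) ^ 2) * heq
        rw [h5, ← hfac]
        field_simp
        norm_num
      have hreal' := congrArg (fun x : ℝ => (x : ℂ)) hreal
      simp only [Complex.ofReal_neg, Complex.ofReal_one, Complex.ofReal_mul, Complex.ofReal_div,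
        Complex.ofReal_ofNat, Complex.ofReal_sub, Complex.ofReal_add, Complex.ofReal_pow] at hreal' ⊢
      linear_combination I * hreal'

end Pool.Agent.BB4B37
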