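import Pool.Agent.W_bb4b37_h3.Alg

/-! # GEO, part 2: derivatives of the null vectors -/

set_option autoImplicit false

namespace Pool.Agent.BB4B37

open Complex Filter Topology Set MeasureTheory

theorem LamP_eq (s : ℝ) (φ : ℂ → ℝ) (z : ℂ) :
    LamP s φ z = (Real.exp (φ z) / Real.sqrt s) • lv z := rfl

theorem LamM_eq (s : ℝ) (φ : ℂ → ℝ) (z : ℂ) :
    LamM s φ z = (4 * Real.sqrt s * Real.exp (-φ z)) • mv z (dzb (cx φ) z) := rfl

theorem cx_hasFDerivAt {φ : ℂ → ℝ} {z : ℂ} (h : DifferentiableAt ℝ φ z) :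
    HasFDerivAt (cx φ) (Complex.ofRealCLM.comp (fderiv ℝ φ z)) z :=
  Complex.ofRealCLM.hasFDerivAt.comp z h.hasFDerivAt

/-- `φ_z̄` of a real function -/
theorem dzb_cx {φ : ℂ → ℝ} {z : ℂ} (h : DifferentiableAt ℝ φ z) :
    dzb (cx φ) z = ((fderiv ℝ φ z 1 : ℝ) + I * (fderiv ℝ φ z I : ℝ)) / 2 := by
  simp only [dzb, px, py, (cx_hasFDerivAt h).fderiv]; rfl

theorem dz_cx {φ : ℂ → ℝ} {z : ℂ} (h : DifferentiableAt ℝ φ z) :
    dz (cx φ) z = ((fderiv ℝ φ z 1 : ℝ) - I * (fderiv ℝ φ z I : ℝ)) / 2 := by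
  simp only [dz, px, py, (cx_hasFDerivAt h).fderiv]; rfl

theorem dz_cx_conj {φ : ℂ → ℝ} {z : ℂ} (h : DifferentiableAt ℝ φ z) :
    dz (cx φ) z = (starRingEnd ℂ) (dzb (cx φ) z) := by
  rw [dz_cx h, dzb_cx h, map_div₀, map_add, map_mul, Complex.conj_ofReal, Complex.conj_ofReal,
    Complex.conj_I, Complex.conj_ofNat]
  ring

/-- a real linear map on `ℂ` in coordinates -/
theorem lin_coord {F : Type*} [NormedAddCommGroup F] [NormedSpace ℝ F] (L : ℂ →L[ℝ] F) (u : ℂ) :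
    L u = u.re • L 1 + u.im • L I := by
  conv_lhs => rw [← Complex.re_add_im u]
  have h1 : ((u.re : ℂ) : ℂ) = u.re • (1 : ℂ) := by simp
  have h2 : (u.im : ℂ) * I = u.im • I := by simp
  rw [h2, h1, map_add, map_smul, map_smul]

theorem fderiv_real {φ : ℂ → ℝ} {z : ℂ} (h : DifferentiableAt ℝ φ z) (u : ℂ) :
    fderiv ℝ φ z u = 2 * ((starRingEnd ℂ) (dzb (cx φ) z) * u).re := by
  rw [dzb_cx h, lin_coord]
  simp [Complex.mul_re, Complex.div_re, Complex.div_im]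
  ring

/-- Wirtinger form of the derivative -/
theorem fderiv_wirt {f : ℂ → ℂ} {z : ℂ} (u : ℂ) :
    fderiv ℝ f z u = dz f z * u + dzb f z * (starRingEnd ℂ) u := by
  rw [lin_coord]
  simp only [dz, dzb, px, py, Complex.real_smul]
  conv_rhs => rw [← Complex.re_add_im u]
  simp only [map_add, map_mul, Complex.conj_ofReal, Complex.conj_I]
  linear_combination ((u.im : ℂ) * fderiv ℝ f z I) * Complex.I_sq

theorem lv_hasFDerivAt (z : ℂ) : ∃ L : ℂ →L[ℝ] Mink, HasFDerivAt lv L z ∧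
    ∀ u, L u = (2 * ((starRingEnd ℂ) z * u).re, u, 0) := by
  have h1 : HasFDerivAt (fun z : ℂ => ‖z‖ ^ 2) _ z := (hasFDerivAt_id z).norm_sq
  refine ⟨_, h1.prodMk ((hasFDerivAt_id z).prodMk (hasFDerivAt_const (1 : ℝ) z)), fun u => ?_⟩
  simp [Complex.inner]; ring

theorem mv_hasFDerivAt {q : ℂ → ℂ} {z : ℂ} (h : DifferentiableAt ℝ q z) :
    ∃ L : ℂ →L[ℝ] Mink, HasFDerivAt (fun z => mv z (q z)) L z ∧
    ∀ u, L u = (2 * ((starRingEnd ℂ) (1 + (starRingEnd ℂ) z * q z) *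
        ((starRingEnd ℂ) u * q z + (starRingEnd ℂ) z * fderiv ℝ q z u)).re,
      fderiv ℝ q z u * (1 + z * (starRingEnd ℂ) (q z)) +
        q z * (u * (starRingEnd ℂ) (q z) + z * (starRingEnd ℂ) (fderiv ℝ q z u)),
      2 * ((starRingEnd ℂ) (q z) * fderiv ℝ q z u).re) := by
  have hq := h.hasFDerivAt
  have hc : HasFDerivAt (fun z : ℂ => (starRingEnd ℂ) z) (Complex.conjCLE : ℂ →L[ℝ] ℂ) z :=
    Complex.conjCLE.hasFDerivAt
  have hcq : HasFDerivAt (fun z : ℂ => (starRingEnd ℂ) (q z))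
      ((Complex.conjCLE : ℂ →L[ℝ] ℂ).comp (fderiv ℝ q z)) z :=
    Complex.conjCLE.hasFDerivAt.comp z hq
  have h1 : HasFDerivAt (fun z : ℂ => ‖1 + (starRingEnd ℂ) z * q z‖ ^ 2) _ z :=
    ((hc.mul hq).const_add 1).norm_sq
  have h2 : HasFDerivAt (fun z : ℂ => q z * (1 + z * (starRingEnd ℂ) (q z))) _ z :=
    hq.mul (((hasFDerivAt_id z).mul hcq).const_add 1)
  have h3 : HasFDerivAt (fun z : ℂ => ‖q z‖ ^ 2) _ z := hq.norm_sq
  refine ⟨_, h1.prodMk (h2.prodMk h3), fun u => ?_⟩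
  refine Prod.ext ?_ (Prod.ext ?_ ?_)
  · simp [Complex.inner]; ring
  · simp; ring
  · simp [Complex.inner]; ring

/-- the derivative of `LamP` -/
theorem LamP_hasFDerivAt (s : ℝ) {φ : ℂ → ℝ} {z : ℂ} (h : DifferentiableAt ℝ φ z) :
    ∃ L : ℂ →L[ℝ] Mink, HasFDerivAt (LamP s φ) L z ∧
    ∀ u, L u = (Real.exp (φ z) / Real.sqrt s) • Vv z (dzb (cx φ) z) u := by
  obtain ⟨L, hL, hL'⟩ := lv_hasFDerivAt z
  have h1 : HasFDerivAt (fun z => Real.exp (φ z) / Real.sqrt s)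
      ((Real.sqrt s)⁻¹ • (Real.exp (φ z) • fderiv ℝ φ z)) z := by
    simp only [div_eq_mul_inv]
    exact (h.hasFDerivAt.exp).mul_const (Real.sqrt s)⁻¹
  refine ⟨_, h1.smul hL, fun u => ?_⟩
  have h2 := fderiv_real h u
  refine Prod.ext ?_ (Prod.ext ?_ ?_)
  · simp [hL', Vv, h2]; ring
  · simp [hL', Vv, h2]; ring
  · simp [hL', Vv, h2]; ring

/-- the derivative of `q = φ_z̄` in terms of `Lc` and `Qc` -/
theorem q_fderiv {φ : ℂ → ℝ} {z : ℂ} (h : ContDiffAt ℝ 2 φ z) (u : ℂ) :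
    DifferentiableAt ℝ (dzb (cx φ)) z ∧
    fderiv ℝ (dzb (cx φ)) z u = (Real.exp (2 * φ z) / 4 : ℝ) *
      ((Lc φ z : ℂ) * u + (starRingEnd ℂ) (Qc φ z) * (starRingEnd ℂ) u) +
        dzb (cx φ) z ^ 2 * (starRingEnd ℂ) u := by
  have hd : DifferentiableAt ℝ φ z := h.differentiableAt (by norm_num)
  have hev : ∀ᶠ w in 𝓝 z, DifferentiableAt ℝ φ w :=
    (h.eventually (by simp)).mono fun w hw => hw.differentiableAt (by norm_num)
  have hf : DifferentiableAt ℝ (fderiv ℝ φ) z :=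
    (h.fderiv_right (m := 1) (by norm_num)).differentiableAt (by norm_num)
  have h1 : DifferentiableAt ℝ (px φ) z := hf.clm_apply (differentiableAt_const _)
  have h2 : DifferentiableAt ℝ (py φ) z := hf.clm_apply (differentiableAt_const _)
  have hs : fderiv ℝ (px φ) z I = fderiv ℝ (py φ) z 1 := by
    have e1 : fderiv ℝ (px φ) z I = fderiv ℝ (fderiv ℝ φ) z I 1 := by
      have := (hf.hasFDerivAt.clm_apply (hasFDerivAt_const (1 : ℂ) z)).fderiv
      rw [show px φ = fun y => (fderiv ℝ φ y) 1 from rfl, this]; simp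
    have e2 : fderiv ℝ (py φ) z 1 = fderiv ℝ (fderiv ℝ φ) z 1 I := by
      have := (hf.hasFDerivAt.clm_apply (hasFDerivAt_const (I : ℂ) z)).fderiv
      rw [show py φ = fun y => (fderiv ℝ φ y) I from rfl, this]; simp
    rw [e1, e2]
    exact (h.isSymmSndFDerivAt (by simp)).eq I 1
  have hz : dzb (cx φ) =ᶠ[𝓝 z] fun w => ((px φ w : ℝ) + I * (py φ w : ℝ)) / 2 :=
    hev.mono fun w hw => dzb_cx hw
  have hz' : dz (cx φ) =ᶠ[𝓝 z] fun w => ((px φ w : ℝ) - I * (py φ w : ℝ)) / 2 :=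
    hev.mono fun w hw => dz_cx hw
  have c1 := cx_hasFDerivAt h1
  have c2 := cx_hasFDerivAt h2
  have hD : HasFDerivAt (fun w => (((px φ w : ℝ) : ℂ) + I * ((py φ w : ℝ) : ℂ)) / 2)
      ((2 : ℂ)⁻¹ • (Complex.ofRealCLM.comp (fderiv ℝ (px φ) z) +
        I • (Complex.ofRealCLM.comp (fderiv ℝ (py φ) z)))) z := by
    simp only [div_eq_inv_mul]
    exact (c1.add (c2.const_mul I)).const_mul _
  have hD' : HasFDerivAt (fun w => (((px φ w : ℝ) : ℂ) - I * ((py φ w : ℝ) : ℂ)) / 2)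
      ((2 : ℂ)⁻¹ • (Complex.ofRealCLM.comp (fderiv ℝ (px φ) z) -
        I • (Complex.ofRealCLM.comp (fderiv ℝ (py φ) z)))) z := by
    simp only [div_eq_inv_mul]
    exact (c1.sub (c2.const_mul I)).const_mul _
  have hq := hD.congr_of_eventuallyEq hz
  have hq' := hD'.congr_of_eventuallyEq hz'
  refine ⟨hq.differentiableAt, ?_⟩
  have e0 : Real.exp (2 * φ z) * Real.exp (-2 * φ z) = 1 := by
    rw [← Real.exp_add]; simp
  have hL : (Real.exp (2 * φ z) : ℂ) * (Lc φ z : ℂ) = (lap φ z : ℂ) := by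
    simp only [Lc]; rw [← Complex.ofReal_mul, ← mul_assoc, e0, one_mul]
  have hQ : (Real.exp (2 * φ z) : ℂ) * (starRingEnd ℂ) (Qc φ z) =
      4 * ((starRingEnd ℂ) (dz (dz (cx φ)) z) - dzb (cx φ) z ^ 2) := by
    simp only [Qc, map_mul, map_sub, map_pow, Complex.conj_ofReal, dz_cx_conj hd,
      Complex.conj_conj, Complex.conj_ofNat]
    have : (Real.exp (2 * φ z) : ℂ) * (Real.exp (-2 * φ z) : ℂ) = 1 := by
      rw [← Complex.ofReal_mul, e0]; simp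
    linear_combination (4 * ((starRingEnd ℂ) (dz (dz (cx φ)) z) - dzb (cx φ) z ^ 2)) * this
  have hzz : dz (dz (cx φ)) z = ((fderiv ℝ (px φ) z 1 : ℝ) - (fderiv ℝ (py φ) z I : ℝ) -
      2 * I * (fderiv ℝ (py φ) z 1 : ℝ)) / 4 := by
    rw [show dz (dz (cx φ)) z = (fderiv ℝ (dz (cx φ)) z 1 - I * fderiv ℝ (dz (cx φ)) z I) / 2
      from rfl, hq'.fderiv]
    simp only [smul_apply, sub_apply, ContinuousLinearMap.comp_apply, Complex.ofRealCLM_apply,
      smul_eq_mul, hs]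
    linear_combination ((fderiv ℝ (py φ) z I : ℂ) / 4) * Complex.I_sq
  have hl : lap φ z = fderiv ℝ (px φ) z 1 + fderiv ℝ (py φ) z I := rfl
  have key : ((Real.exp (2 * φ z) / 4 : ℝ) : ℂ) *
      ((Lc φ z : ℂ) * u + (starRingEnd ℂ) (Qc φ z) * (starRingEnd ℂ) u) +
        dzb (cx φ) z ^ 2 * (starRingEnd ℂ) u = (lap φ z : ℂ) / 4 * u +
        (starRingEnd ℂ) (dz (dz (cx φ)) z) * (starRingEnd ℂ) u := by
    rw [Complex.ofReal_div, Complex.ofReal_ofNat]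
    linear_combination (u / 4) * hL + ((starRingEnd ℂ) u / 4) * hQ
  rw [key, hq.fderiv, hzz, hl]
  simp only [smul_apply, add_apply, ContinuousLinearMap.comp_apply, Complex.ofRealCLM_apply,
    smul_eq_mul]
  rw [lin_coord (fderiv ℝ (px φ) z) u, lin_coord (fderiv ℝ (py φ) z) u, hs]
  simp only [smul_eq_mul, map_div₀, map_sub, map_mul, Complex.conj_ofReal, Complex.conj_ofNat,
    Complex.conj_I]
  apply Complex.ext <;> simp <;> ring

/-- the derivative of `LamM`: `dLamM = s dLamP ∘ (L + Q̄ conj)` -/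
theorem LamM_hasFDerivAt (s : ℝ) {φ : ℂ → ℝ} {z : ℂ} (h : ContDiffAt ℝ 2 φ z) :
    ∃ L : ℂ →L[ℝ] Mink, HasFDerivAt (LamM s φ) L z ∧
    ∀ u, L u = (Real.sqrt s * Real.exp (φ z)) • Vv z (dzb (cx φ) z)
      ((Lc φ z : ℂ) * u + (starRingEnd ℂ) (Qc φ z) * (starRingEnd ℂ) u) := by
  have hd : DifferentiableAt ℝ φ z := h.differentiableAt (by norm_num)
  obtain ⟨L, hL, hL'⟩ := mv_hasFDerivAt (q_fderiv h 0).1
  have hn : HasFDerivAt (fun z => -φ z) (-fderiv ℝ φ z) z := hd.hasFDerivAt.neg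
  have h1 : HasFDerivAt (fun z => 4 * Real.sqrt s * Real.exp (-φ z))
      ((4 * Real.sqrt s) • (Real.exp (-φ z) • -fderiv ℝ φ z)) z :=
    (hn.exp).const_mul (4 * Real.sqrt s)
  refine ⟨_, h1.smul hL, fun u => ?_⟩
  have h2 := fderiv_real hd u
  have h3 := (q_fderiv h u).2
  have h4 : Real.exp (-φ z) * Real.exp (2 * φ z) = Real.exp (φ z) := by
    rw [← Real.exp_add]; congr 1; ring
  set w := (Lc φ z : ℂ) * u + (starRingEnd ℂ) (Qc φ z) * (starRingEnd ℂ) u with hw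
  set q := dzb (cx φ) z with hq
  set E1 := Real.exp (-φ z)
  set E2 := Real.exp (2 * φ z)
  have h5 : (Real.sqrt s * Real.exp (φ z)) • Vv z q w = (Real.sqrt s * E1 * E2) • Vv z q w := by
    rw [← h4]; congr 1; ring
  rw [h5]
  simp only [add_apply, smul_apply,
    ContinuousLinearMap.smulRight_apply, neg_apply, hL', h2, h3, smul_eq_mul]
  clear_value w q E1 E2
  refine Prod.ext ?_ (Prod.ext (Complex.ext ?_ ?_) ?_) <;>
  simp only [Vv, Complex.sq_norm, Complex.normSq_apply, Complex.mul_re,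
    Complex.mul_im, Complex.conj_re, Complex.conj_im, Complex.add_re, Complex.ofReal_re,
    Complex.ofReal_im, Complex.add_im, Complex.one_re, Complex.one_im, Prod.fst_add,
    Prod.snd_add, Prod.smul_fst, Prod.smul_snd, Complex.real_smul, smul_eq_mul, sq q] <;> ring

/-- the derivative of `Xs` -/
theorem Xs_hasFDerivAt {s : ℝ} (hs : 0 < s) {φ : ℂ → ℝ} {z : ℂ} (h : ContDiffAt ℝ 2 φ z) :
    ∃ L : ℂ →L[ℝ] Mink, HasFDerivAt (Xs s φ) L z ∧
    ∀ u, L u = (Real.exp (φ z) / (2 * Real.sqrt s)) • Vv z (dzb (cx φ) z)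
      ((1 + (s : ℂ) * (Lc φ z : ℂ)) * u + (s : ℂ) * (starRingEnd ℂ) (Qc φ z) *
        (starRingEnd ℂ) u) := by
  obtain ⟨L1, h1, h1'⟩ := LamP_hasFDerivAt s (h.differentiableAt (by norm_num))
  obtain ⟨L2, h2, h2'⟩ := LamM_hasFDerivAt s h
  refine ⟨_, (h1.add h2).const_smul (1 / 2 : ℝ), fun u => ?_⟩
  have e : Real.sqrt s * Real.sqrt s = s := Real.mul_self_sqrt hs.le
  have e1 : Real.sqrt s * Real.exp (φ z) = Real.exp (φ z) / Real.sqrt s * s := by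
    have : Real.sqrt s ≠ 0 := (Real.sqrt_pos.2 hs).ne'
    field_simp
    linear_combination e
  rw [smul_apply, add_apply, h1', h2', e1, mul_smul _ s, ← Vv_smul _ _ _ s, ← smul_add,
    ← Vv_add, smul_smul]
  congr 1
  · ring
  · congr 1; ring

/-- the derivative of `Ns` -/
theorem Ns_hasFDerivAt {s : ℝ} (hs : 0 < s) {φ : ℂ → ℝ} {z : ℂ} (h : ContDiffAt ℝ 2 φ z) :
    ∃ L : ℂ →L[ℝ] Mink, HasFDerivAt (Ns s φ) L z ∧
    ∀ u, L u = (Real.exp (φ z) / (2 * Real.sqrt s)) • Vv z (dzb (cx φ) z)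
      ((1 - (s : ℂ) * (Lc φ z : ℂ)) * u - (s : ℂ) * (starRingEnd ℂ) (Qc φ z) *
        (starRingEnd ℂ) u) := by
  obtain ⟨L1, h1, h1'⟩ := LamP_hasFDerivAt s (h.differentiableAt (by norm_num))
  obtain ⟨L2, h2, h2'⟩ := LamM_hasFDerivAt s h
  refine ⟨_, (h1.sub h2).const_smul (1 / 2 : ℝ), fun u => ?_⟩
  have e : Real.sqrt s * Real.sqrt s = s := Real.mul_self_sqrt hs.le
  have e1 : Real.sqrt s * Real.exp (φ z) = Real.exp (φ z) / Real.sqrt s * s := by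
    have : Real.sqrt s ≠ 0 := (Real.sqrt_pos.2 hs).ne'
    field_simp
    linear_combination e
  have e2 : ∀ a b : ℂ, Vv z (dzb (cx φ) z) a - Vv z (dzb (cx φ) z) b =
      Vv z (dzb (cx φ) z) (a - b) := by
    intro a b
    rw [sub_eq_add_neg a b, Vv_add, show -b = ((-1 : ℝ) : ℂ) * b by push_cast; ring, Vv_smul,
      neg_one_smul, sub_eq_add_neg]
  rw [smul_apply, sub_apply, h1', h2', e1, mul_smul _ s, ← Vv_smul _ _ _ s, ← smul_sub, e2,
    smul_smul]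
  congr 1
  · ring
  · congr 1; ring

theorem mip_Vv_self (z q u : ℂ) : mip (Vv z q u) (Vv z q u) = ‖u‖ ^ 2 := by
  rw [mip_Vv_Vv, Complex.mul_conj, Complex.ofReal_re, Complex.normSq_eq_norm_sq]

/-- the first fundamental form -/
theorem geo_I {s : ℝ} (hs : 0 < s) {φ : ℂ → ℝ} {z : ℂ} (h : ContDiffAt ℝ 2 φ z) (v : ℂ) :
    mip (fderiv ℝ (Xs s φ) z v) (fderiv ℝ (Xs s φ) z v) =
      Real.exp (2 * φ z) / (4 * s) *
        ‖(1 + (s : ℂ) * (Lc φ z : ℂ)) * v + (s : ℂ) * (starRingEnd ℂ) (Qc φ z) *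
          (starRingEnd ℂ) v‖ ^ 2 := by
  obtain ⟨L, hL, hL'⟩ := Xs_hasFDerivAt hs h
  rw [hL.fderiv, hL', mip_smul_left, mip_smul_right, mip_Vv_self, ← mul_assoc]
  congr 1
  have e : Real.sqrt s * Real.sqrt s = s := Real.mul_self_sqrt hs.le
  have : Real.sqrt s ≠ 0 := (Real.sqrt_pos.2 hs).ne'
  have e2 : Real.exp (2 * φ z) = Real.exp (φ z) * Real.exp (φ z) := by
    rw [← Real.exp_add]; congr 1; ring
  rw [e2, div_mul_div_comm]
  congr 1
  linear_combination 4 * e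

/-- the third fundamental form -/
theorem geo_III' {s : ℝ} (hs : 0 < s) {φ : ℂ → ℝ} {z : ℂ} (h : ContDiffAt ℝ 2 φ z) (v : ℂ) :
    mip (fderiv ℝ (Ns s φ) z v) (fderiv ℝ (Ns s φ) z v) =
      Real.exp (2 * φ z) / (4 * s) *
        ‖(1 - (s : ℂ) * (Lc φ z : ℂ)) * v - (s : ℂ) * (starRingEnd ℂ) (Qc φ z) *
          (starRingEnd ℂ) v‖ ^ 2 := by
  obtain ⟨L, hL, hL'⟩ := Ns_hasFDerivAt hs h
  rw [hL.fderiv, hL', mip_smul_left, mip_smul_right, mip_Vv_self, ← mul_assoc]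
  congr 1
  have e : Real.sqrt s * Real.sqrt s = s := Real.mul_self_sqrt hs.le
  have : Real.sqrt s ≠ 0 := (Real.sqrt_pos.2 hs).ne'
  have e2 : Real.exp (2 * φ z) = Real.exp (φ z) * Real.exp (φ z) := by
    rw [← Real.exp_add]; congr 1; ring
  rw [e2, div_mul_div_comm]
  congr 1
  linear_combination 4 * e

/-- scalar products of the frame vectors -/
theorem mip_frames {s : ℝ} (hs : 0 < s) (φ : ℂ → ℝ) (z : ℂ) :
    mip (Ns s φ z) (Ns s φ z) = 1 ∧ mip (Xs s φ z) (Ns s φ z) = 0 ∧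
      mip (Xs s φ z) (Xs s φ z) = -1 := by
  have e : Real.sqrt s * Real.sqrt s = s := Real.mul_self_sqrt hs.le
  have h0 : Real.sqrt s ≠ 0 := (Real.sqrt_pos.2 hs).ne'
  have hP : mip (LamP s φ z) (LamP s φ z) = 0 := by
    rw [LamP_eq, mip_smul_left, mip_smul_right, mip_lv_lv]; simp
  have hM : mip (LamM s φ z) (LamM s φ z) = 0 := by
    rw [LamM_eq, mip_smul_left, mip_smul_right, mip_mv_mv]; simp
  have hPM : mip (LamP s φ z) (LamM s φ z) = -2 := by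
    rw [LamP_eq, LamM_eq, mip_smul_left, mip_smul_right, mip_lv_mv]
    have : Real.exp (φ z) * Real.exp (-φ z) = 1 := by rw [← Real.exp_add]; simp
    simp only [sub_self, mul_zero, sub_zero, norm_one]
    field_simp
    linear_combination (-4 : ℝ) * this
  have hMP : mip (LamM s φ z) (LamP s φ z) = -2 := by rw [mip_comm, hPM]
  refine ⟨?_, ?_, ?_⟩ <;>
  simp only [Xs, Ns, mip_smul_left, mip_smul_right, mip_add_left, mip_add_right, mip_sub_left,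
    mip_sub_right, hP, hM, hPM, hMP] <;> norm_num

/-- `dX` is orthogonal to `N` -/
theorem dX_orth_N {s : ℝ} (hs : 0 < s) {φ : ℂ → ℝ} {z : ℂ} (h : ContDiffAt ℝ 2 φ z) (v : ℂ) :
    mip (fderiv ℝ (Xs s φ) z v) (Ns s φ z) = 0 := by
  obtain ⟨L, hL, hL'⟩ := Xs_hasFDerivAt hs h
  rw [hL.fderiv, hL', mip_smul_left, mip_comm]
  simp only [Ns, LamP_eq, LamM_eq, mip_smul_left, mip_sub_left, mip_lv_Vv, mip_mv_Vv]
  ring

end Pool.Agent.BB4B37
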