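import Pool.Agent.W_bb4b37_h3.Cross

/-! # GEO, part 4: negativity of `⟨X(z'), N(z)⟩`, smallness conditions, smoothness, hull -/

set_option autoImplicit false

namespace Pool.Agent.BB4B37

open Complex Filter Topology Set MeasureTheory

theorem mip_X_N {s : ℝ} (hs : 0 < s) (φ : ℂ → ℝ) (z z' : ℂ) :
    4 * mip (Xs s φ z') (Ns s φ z) = -(Real.exp (φ z + φ z') * ‖z' - z‖ ^ 2) / (2 * s) +
      2 * (Real.exp (φ z' - φ z) * ‖1 - (starRingEnd ℂ) (dzb (cx φ) z) * (z' - z)‖ ^ 2 -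
        Real.exp (φ z - φ z') * ‖1 + (starRingEnd ℂ) (dzb (cx φ) z') * (z' - z)‖ ^ 2) +
      8 * s * (Real.exp (-φ z - φ z') * ‖(starRingEnd ℂ) (dzb (cx φ) z') -
        (starRingEnd ℂ) (dzb (cx φ) z) - (starRingEnd ℂ) (dzb (cx φ) z) *
        (starRingEnd ℂ) (dzb (cx φ) z') * (z' - z)‖ ^ 2) := by
  have e : Real.sqrt s * Real.sqrt s = s := Real.mul_self_sqrt hs.le
  have h0 : Real.sqrt s ≠ 0 := (Real.sqrt_pos.2 hs).ne'
  have e1 : Real.exp (φ z + φ z') = Real.exp (φ z) * Real.exp (φ z') := Real.exp_add _ _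
  have e2 : Real.exp (φ z' - φ z) = Real.exp (φ z') * Real.exp (-φ z) := by
    rw [← Real.exp_add]; congr 1
  have e3 : Real.exp (φ z - φ z') = Real.exp (φ z) * Real.exp (-φ z') := by
    rw [← Real.exp_add]; congr 1
  have e4 : Real.exp (-φ z - φ z') = Real.exp (-φ z) * Real.exp (-φ z') := by
    rw [← Real.exp_add]; congr 1
  have hPP : mip (LamP s φ z') (LamP s φ z) =
      -(Real.exp (φ z + φ z') * ‖z' - z‖ ^ 2) / (2 * s) := by
    rw [LamP_eq, LamP_eq, mip_smul_left, mip_smul_right, mip_lv_lv, norm_sub_rev z z', e1]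
    nth_rewrite 3 [← e]
    field_simp
  have hPM : mip (LamP s φ z') (LamM s φ z) = -2 * (Real.exp (φ z' - φ z) *
      ‖1 - (starRingEnd ℂ) (dzb (cx φ) z) * (z' - z)‖ ^ 2) := by
    rw [LamP_eq, LamM_eq, mip_smul_left, mip_smul_right, mip_lv_mv, e2]
    field_simp
    ring
  have hMP : mip (LamM s φ z') (LamP s φ z) = -2 * (Real.exp (φ z - φ z') *
      ‖1 + (starRingEnd ℂ) (dzb (cx φ) z') * (z' - z)‖ ^ 2) := by
    rw [mip_comm, LamP_eq, LamM_eq, mip_smul_left, mip_smul_right, mip_lv_mv, e3,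
      show 1 - (starRingEnd ℂ) (dzb (cx φ) z') * (z - z') =
        1 + (starRingEnd ℂ) (dzb (cx φ) z') * (z' - z) by ring]
    field_simp
    ring
  have hMM : mip (LamM s φ z') (LamM s φ z) = -(8 * s * (Real.exp (-φ z - φ z') *
      ‖(starRingEnd ℂ) (dzb (cx φ) z') -
        (starRingEnd ℂ) (dzb (cx φ) z) - (starRingEnd ℂ) (dzb (cx φ) z) *
        (starRingEnd ℂ) (dzb (cx φ) z') * (z' - z)‖ ^ 2)) := by
    rw [LamM_eq, LamM_eq, mip_smul_left, mip_smul_right, mip_mv_mv, e4]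
    nth_rewrite 3 [← e]
    ring
  simp only [Xs, Ns, mip_smul_left, mip_smul_right, mip_add_left, mip_sub_right, hPP, hPM, hMP,
    hMM]
  ring

theorem X_N_neg (M : ℝ) : ∃ s₀ : ℝ, 0 < s₀ ∧ s₀ ≤ 1 / 4 ∧ ∀ E : Set ℂ, GeoSet E →
    ∀ s : ℝ, 0 < s → s ≤ s₀ → ∀ φ : ℂ → ℝ, Sol 6 s M E φ → ∀ z ∉ E, ∀ z' ∉ E,
      mip (Xs s φ z') (Ns s φ z) ≤ -(Real.exp (φ z + φ z') * ‖z' - z‖ ^ 2) / (16 * s) := by
  obtain ⟨C, hC, h⟩ := cross_est M
  refine ⟨min (1 / 4) (1 / (4 * C)), by positivity, min_le_left _ _, ?_⟩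
  intro E hE s hs hs' φ hS z hz z' hz'
  have h1 := h E hE s φ hS z hz z' hz'
  have hs1 : s ≤ 1 / 4 := hs'.trans (min_le_left _ _)
  have hs2 : s ≤ 1 / (4 * C) := hs'.trans (min_le_right _ _)
  have h2 := mip_X_N hs φ z z'
  set A := Real.exp (φ z' - φ z) * ‖1 - (starRingEnd ℂ) (dzb (cx φ) z) * (z' - z)‖ ^ 2
  set B := Real.exp (φ z - φ z') * ‖1 + (starRingEnd ℂ) (dzb (cx φ) z') * (z' - z)‖ ^ 2
  set T := Real.exp (-φ z - φ z') * ‖(starRingEnd ℂ) (dzb (cx φ) z') -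
        (starRingEnd ℂ) (dzb (cx φ) z) - (starRingEnd ℂ) (dzb (cx φ) z) *
        (starRingEnd ℂ) (dzb (cx φ) z') * (z' - z)‖ ^ 2 with hT
  set R := Real.exp (φ z + φ z') * ‖z' - z‖ ^ 2 with hR
  have hT0 : 0 ≤ T := by positivity
  have hR0 : 0 ≤ R := by positivity
  have h3 : A - B ≤ |A - B| := le_abs_self _
  have h4 : C ≤ 1 / (4 * s) := by
    rw [le_div_iff₀ (by positivity)]
    rw [le_div_iff₀ (by positivity)] at hs2
    linarith
  have h5 : C * R ≤ R / (4 * s) := by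
    have := mul_le_mul_of_nonneg_right h4 hR0
    rw [show 1 / (4 * s) * R = R / (4 * s) by ring] at this
    exact this
  have h6 : 8 * s * T ≤ 8 * T := by nlinarith
  have h7 : -R / (2 * s) + R / (4 * s) = 4 * (-R / (16 * s)) := by field_simp; ring
  linarith

/-- all smallness conditions on `s` -/
structure Small (s : ℝ) (E : Set ℂ) (φ : ℂ → ℝ) : Prop where
  q : ∀ z ∉ E, 16 * s * ‖dzb (cx φ) z‖ ^ 2 ≤ Real.exp (2 * φ z)
  Qm : ∀ z ∉ E, s * ‖Qc φ z‖ < 1 - s * Lc φ z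
  Qp : ∀ z ∉ E, s * ‖Qc φ z‖ < 1 + s * Lc φ z
  hull : ∀ z ∉ E, ∀ e ∈ E, 4 * s * ‖1 - (starRingEnd ℂ) (dzb (cx φ) z) * (e - z)‖ ^ 2 ≤
    Real.exp (2 * φ z) * ‖e - z‖ ^ 2

theorem small_ex (M : ℝ) : ∃ s₀ : ℝ, 0 < s₀ ∧ s₀ ≤ 1 / 4 ∧ ∀ E : Set ℂ, GeoSet E →
    ∀ s : ℝ, 0 < s → s ≤ s₀ → ∀ φ : ℂ → ℝ, Sol 6 s M E φ → Small s E φ := by
  set a := Real.exp (-2 * M) / (16 * (1 + M ^ 2)) with ha
  set b := 1 / (4 * (|CLQ M| + 1)) with hb
  have ha0 : 0 < a := by positivity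
  have hb0 : 0 < b := by positivity
  refine ⟨min (1 / 4) (min a b), by positivity, min_le_left _ _, ?_⟩
  intro E hE s hs hs' φ hS
  have hsa : s ≤ a := (hs'.trans (min_le_right _ _)).trans (min_le_left _ _)
  have hsb : s ≤ b := (hs'.trans (min_le_right _ _)).trans (min_le_right _ _)
  have hsa' : s * (16 * (1 + M ^ 2)) ≤ Real.exp (-2 * M) := by
    rw [ha, le_div_iff₀ (by positivity)] at hsa; exact hsa
  have hsb' : s * (4 * (|CLQ M| + 1)) ≤ 1 := by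
    rw [hb, le_div_iff₀ (by positivity)] at hsb; exact hsb
  have he : ∀ z ∉ E, Real.exp (-2 * M) / Metric.infDist z E ^ 2 ≤ Real.exp (2 * φ z) := by
    intro z hz
    have h1 := hS.exp_ge hE hz
    have h2 := hE.pos hz
    have e1 : Real.exp (2 * φ z) = Real.exp (φ z) ^ 2 := by
      rw [← Real.exp_nat_mul]; congr 1
    have e2 : Real.exp (-2 * M) / Metric.infDist z E ^ 2 =
        (Real.exp (-M) / Metric.infDist z E) ^ 2 := by
      rw [div_pow, ← Real.exp_nat_mul]; congr 2; push_cast; ring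
    rw [e1, e2]
    exact pow_le_pow_left₀ (by positivity) h1 2
  have hq : ∀ z ∉ E, ‖dzb (cx φ) z‖ ^ 2 ≤ M ^ 2 / Metric.infDist z E ^ 2 := by
    intro z hz
    rw [← div_pow]
    exact pow_le_pow_left₀ (norm_nonneg _) (hS.q_le (by norm_num) hE hz) 2
  have hLQ : ∀ z ∉ E, s * |Lc φ z| ≤ 1 / 4 ∧ s * ‖Qc φ z‖ ≤ 1 / 4 := by
    intro z hz
    have h1 := hS.LQ_le (by norm_num) hE hz
    have h2 := le_abs_self (CLQ M)
    constructor <;> nlinarith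
  refine ⟨?_, ?_, ?_, ?_⟩
  · intro z hz
    refine le_trans ?_ (he z hz)
    have h2 := hE.pos hz
    have h3 := hq z hz
    calc 16 * s * ‖dzb (cx φ) z‖ ^ 2 ≤ 16 * s * (M ^ 2 / Metric.infDist z E ^ 2) := by gcongr
      _ = (s * (16 * M ^ 2)) / Metric.infDist z E ^ 2 := by ring
      _ ≤ _ := by
        gcongr
        nlinarith
  · intro z hz
    have h1 := hLQ z hz
    have h2 := le_abs_self (Lc φ z)
    nlinarith
  · intro z hz
    have h1 := hLQ z hz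
    have h2 := neg_abs_le (Lc φ z)
    nlinarith
  · intro z hz e he'
    have h2 := hE.pos hz
    have h3 := hq z hz
    have hd : Metric.infDist z E ≤ ‖e - z‖ := by
      rw [← dist_eq_norm, dist_comm]; exact Metric.infDist_le_dist_of_mem he'
    set d := Metric.infDist z E
    have h4 : ‖1 - (starRingEnd ℂ) (dzb (cx φ) z) * (e - z)‖ ≤
        1 + ‖dzb (cx φ) z‖ * ‖e - z‖ := by
      refine (norm_sub_le _ _).trans ?_
      rw [norm_one, norm_mul, Complex.norm_conj]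
    have h5 : ‖1 - (starRingEnd ℂ) (dzb (cx φ) z) * (e - z)‖ ^ 2 ≤
        2 + 2 * (‖dzb (cx φ) z‖ ^ 2 * ‖e - z‖ ^ 2) := by
      refine (pow_le_pow_left₀ (norm_nonneg _) h4 2).trans ?_
      nlinarith [sq_nonneg (1 - ‖dzb (cx φ) z‖ * ‖e - z‖)]
    have h6 : (1 : ℝ) ≤ ‖e - z‖ ^ 2 / d ^ 2 := by
      rw [le_div_iff₀ (by positivity), one_mul]
      exact pow_le_pow_left₀ h2.le hd 2
    have h7 : ‖dzb (cx φ) z‖ ^ 2 * ‖e - z‖ ^ 2 ≤ M ^ 2 * (‖e - z‖ ^ 2 / d ^ 2) := by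
      calc ‖dzb (cx φ) z‖ ^ 2 * ‖e - z‖ ^ 2 ≤ (M ^ 2 / d ^ 2) * ‖e - z‖ ^ 2 := by gcongr
        _ = _ := by ring
    have h8 : Real.exp (-2 * M) * (‖e - z‖ ^ 2 / d ^ 2) ≤ Real.exp (2 * φ z) * ‖e - z‖ ^ 2 := by
      have := he z hz
      calc Real.exp (-2 * M) * (‖e - z‖ ^ 2 / d ^ 2) =
          (Real.exp (-2 * M) / d ^ 2) * ‖e - z‖ ^ 2 := by ring
        _ ≤ _ := by gcongr
    refine le_trans ?_ h8
    set T := ‖e - z‖ ^ 2 / d ^ 2
    have h9 : ‖1 - (starRingEnd ℂ) (dzb (cx φ) z) * (e - z)‖ ^ 2 ≤ (2 + 2 * M ^ 2) * T := by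
      nlinarith
    calc 4 * s * ‖1 - (starRingEnd ℂ) (dzb (cx φ) z) * (e - z)‖ ^ 2
        ≤ 4 * s * ((2 + 2 * M ^ 2) * T) := by gcongr
      _ = (s * (8 * (1 + M ^ 2))) * T := by ring
      _ ≤ Real.exp (-2 * M) * T := by
        gcongr
        nlinarith [mul_nonneg hs.le (sq_nonneg M)]

/-! ### smoothness -/

theorem q_contDiffAt {φ : ℂ → ℝ} {z : ℂ} (h : ContDiffAt ℝ 6 φ z) :
    ContDiffAt ℝ 4 (dzb (cx φ)) z := by
  have h1 : ContDiffAt ℝ 6 (cx φ) z := Complex.ofRealCLM.contDiff.contDiffAt.comp z h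
  have h2 : ContDiffAt ℝ 4 (fderiv ℝ (cx φ)) z := h1.fderiv_right (by norm_num)
  have h3 : ContDiffAt ℝ 4 (fun z => fderiv ℝ (cx φ) z 1) z := h2.clm_apply contDiffAt_const
  have h4 : ContDiffAt ℝ 4 (fun z => fderiv ℝ (cx φ) z I) z := h2.clm_apply contDiffAt_const
  exact (h3.add (contDiffAt_const.mul h4)).div_const 2

theorem LamP_contDiffAt (s : ℝ) {φ : ℂ → ℝ} {z : ℂ} (h : ContDiffAt ℝ 6 φ z) :
    ContDiffAt ℝ 4 (LamP s φ) z := by
  have h1 : ContDiffAt ℝ 4 (fun z => Real.exp (φ z) / Real.sqrt s) z :=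
    ((h.of_le (by norm_num)).exp).div_const _
  have h2 : ContDiffAt ℝ 4 (fun z : ℂ => ((‖z‖ ^ 2, z, 1) : Mink)) z :=
    (contDiffAt_id.norm_sq ℝ).prodMk (contDiffAt_id.prodMk contDiffAt_const)
  exact h1.smul h2

theorem LamM_contDiffAt (s : ℝ) {φ : ℂ → ℝ} {z : ℂ} (h : ContDiffAt ℝ 6 φ z) :
    ContDiffAt ℝ 4 (LamM s φ) z := by
  have hq := q_contDiffAt h
  have hc : ContDiffAt ℝ 4 (fun z : ℂ => (starRingEnd ℂ) z) z :=
    Complex.conjCLE.contDiff.contDiffAt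
  have hcq : ContDiffAt ℝ 4 (fun z : ℂ => (starRingEnd ℂ) (dzb (cx φ) z)) z :=
    Complex.conjCLE.contDiff.contDiffAt.comp z hq
  have h1 : ContDiffAt ℝ 4 (fun z => 4 * Real.sqrt s * Real.exp (-φ z)) z :=
    contDiffAt_const.mul ((h.of_le (by norm_num)).neg.exp)
  have h2 : ContDiffAt ℝ 4 (fun z : ℂ => mv z (dzb (cx φ) z)) z :=
    ((contDiffAt_const.add (hc.mul hq)).norm_sq ℝ).prodMk
      ((hq.mul (contDiffAt_const.add (contDiffAt_id.mul hcq))).prodMk (hq.norm_sq ℝ))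
  exact h1.smul h2

theorem Xs_contDiffAt (s : ℝ) {φ : ℂ → ℝ} {z : ℂ} (h : ContDiffAt ℝ 6 φ z) :
    ContDiffAt ℝ 4 (Xs s φ) z :=
  ((LamP_contDiffAt s h).add (LamM_contDiffAt s h)).const_smul (1 / 2 : ℝ)

theorem Ns_contDiffAt (s : ℝ) {φ : ℂ → ℝ} {z : ℂ} (h : ContDiffAt ℝ 6 φ z) :
    ContDiffAt ℝ 4 (Ns s φ) z :=
  ((LamP_contDiffAt s h).sub (LamM_contDiffAt s h)).const_smul (1 / 2 : ℝ)

/-! ### `Xs` is in `H3` -/

theorem Xs_mem_H3 {s : ℝ} (hs : 0 < s) (φ : ℂ → ℝ) (z : ℂ) : Xs s φ z ∈ H3 := by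
  rw [H3_iff]
  have h1 := (mip_frames hs φ z).2.2
  have h0 : 0 < Real.sqrt s := Real.sqrt_pos.2 hs
  constructor
  · have : mip (Xs s φ z) (Xs s φ z) = ‖(Xs s φ z).2.1‖ ^ 2 - (Xs s φ z).1 * (Xs s φ z).2.2 := by
      simp only [mip, Complex.mul_conj, Complex.ofReal_re, Complex.normSq_eq_norm_sq]; ring
    rw [← this, h1]
  · have : (Xs s φ z).2.2 = (1 / 2) * (Real.exp (φ z) / Real.sqrt s * 1 +
        4 * Real.sqrt s * Real.exp (-φ z) * ‖dzb (cx φ) z‖ ^ 2) := rfl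
    rw [this]
    positivity

theorem H3_closed : IsClosed H3 := by
  have : H3 = {x : Mink | mip x x = -1} ∩ {x | 0 ≤ x.1} := by
    ext x
    simp only [H3, mem_inter_iff]
    constructor
    · rintro ⟨h1, h2⟩; exact ⟨h1, le_of_lt h2⟩
    · rintro ⟨h1, h2⟩
      refine ⟨h1, lt_of_le_of_ne h2 fun h => ?_⟩
      have h3 : mip x x = ‖x.2.1‖ ^ 2 - x.1 * x.2.2 := by
        simp only [mip, Complex.mul_conj, Complex.ofReal_re, Complex.normSq_eq_norm_sq]; ring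
      have h1' : mip x x = -1 := h1
      rw [h3, ← h] at h1'
      have := sq_nonneg ‖x.2.1‖
      linarith
  rw [this]
  refine IsClosed.inter ?_ (isClosed_le continuous_const continuous_fst)
  refine isClosed_eq ?_ continuous_const
  unfold mip
  fun_prop

theorem mip_continuous_left (n : Mink) : Continuous fun x : Mink => mip x n := by
  unfold mip
  fun_prop

theorem Cs_closed (s : ℝ) (φ : ℂ → ℝ) (E : Set ℂ) : IsClosed (Cs s φ E) := by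
  have : Cs s φ E = H3 ∩ ⋂ z ∈ Eᶜ, {Y | mip Y (Ns s φ z) ≤ 0} := by
    ext Y; simp [Cs]
  rw [this]
  exact H3_closed.inter (isClosed_biInter fun z _ =>
    isClosed_le (mip_continuous_left _) continuous_const)

end Pool.Agent.BB4B37
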