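import Pool.Agent.W_bb4b37_h3.Bd

/-! # GEO: the ideal boundary of the surface (task)

`Gam E ⊂ OnePoint ℂ` is open (E closed) and dense (`interior E = ∅`), so its frontier is `(coe '' E) ∪ {∞}`.
Write `X = κ lv z + r`, `κ = (e^φ/√s + 4√s e^{-φ}‖q‖²)/2`, `r = 2√s e^{-φ} (1+2Re(z̄q), q, 0)` (use
`mv z q = ‖q‖² lv z + (1 + 2Re(z̄ q), q, 0)`). With `e^{-φ} ≤ e^M d`, `‖q‖ ≤ M/d`, `d ≤ 1`, `e^φ ≥ e^{-M}/d`:
`‖r‖ ≤ C(1+‖z‖)`, `tr X ≥ κ(1+‖z‖²) ≥ c (1+‖z‖²)/d ≥ c (1+‖z‖²)`, so `(1+‖z‖)² ≤ C tr X` and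
`‖(tr X)⁻¹ X - (tr lv)⁻¹ lv‖ ≤ C ‖r‖ / tr X ≤ C (tr X)^{-1/2}` (C depends on s, M; all norms on Mink equivalent).
(→) `ζ = e ∈ E`: choose `z n ∉ E`, `z n → e` (`interior E = ∅`), `d(z n) → 0`, so `tr X → ∞`, and `lv` is continuous.
`ζ = ∞`: choose `z n ∉ E` with `‖z n‖ → ∞`; `(‖z‖²,z,1)/(1+‖z‖²) → (1,0,0)`.
(←) if `ζ = z ∉ E`: `lv(z n)/tr lv(z n) → lv z/tr lv z` gives (third and second coordinate) `z n → z`, so
`tr X(z n) → tr X(z)` by continuity of `Xs` on `Eᶜ`, contradiction with `tr → ∞`.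
`pt ∞ = (1,0,0)`, `pt z = lv z` (definitional).
-/

set_option autoImplicit false

namespace Pool.Agent.BB4B37

open Complex Filter Topology Set MeasureTheory

/-- the coefficient of `lv z` in `Xs` -/
noncomputable def idKap (s : ℝ) (φ : ℂ → ℝ) (z : ℂ) : ℝ :=
  (Real.exp (φ z) / Real.sqrt s + 4 * Real.sqrt s * Real.exp (-φ z) * ‖dzb (cx φ) z‖ ^ 2) / 2

/-- the remainder of `Xs` -/
noncomputable def idR (s : ℝ) (φ : ℂ → ℝ) (z : ℂ) : Mink :=
  ((2 * Real.sqrt s) * (Real.exp (-φ z) *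
    (1 + 2 * ((starRingEnd ℂ) z * dzb (cx φ) z).re)),
    ((2 * Real.sqrt s * Real.exp (-φ z) : ℝ) : ℂ) * dzb (cx φ) z, 0)

theorem id_decomp (s : ℝ) (φ : ℂ → ℝ) (z : ℂ) :
    Xs s φ z = idKap s φ z • lv z + idR s φ z := by
  rw [Xs, LamP_eq, LamM_eq]
  refine Prod.ext ?_ (Prod.ext (Complex.ext ?_ ?_) ?_) <;>
  simp only [idKap, idR, lv, mv, Complex.sq_norm, Complex.normSq_apply, Complex.mul_re,
    Complex.mul_im, Complex.conj_re, Complex.conj_im, Complex.add_re, Complex.ofReal_re,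
    Complex.ofReal_im, Complex.add_im, Complex.one_re, Complex.one_im, Prod.fst_add,
    Prod.snd_add, Prod.smul_fst, Prod.smul_snd, Complex.real_smul, smul_eq_mul] <;> ring

theorem id_tr (s : ℝ) (φ : ℂ → ℝ) (z : ℂ) :
    tr (Xs s φ z) = idKap s φ z * (1 + ‖z‖ ^ 2) + (idR s φ z).1 := by
  rw [id_decomp]
  simp only [tr, lv, idR, Prod.fst_add, Prod.snd_add, Prod.smul_fst, Prod.smul_snd, smul_eq_mul]
  ring

theorem id_tr_ge {s : ℝ} (hs : 0 < s) (φ : ℂ → ℝ) (z : ℂ) :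
    Real.exp (φ z) / (2 * Real.sqrt s) * (1 + ‖z‖ ^ 2) ≤ tr (Xs s φ z) := by
  have h1 : tr (Xs s φ z) = Real.exp (φ z) / (2 * Real.sqrt s) * (1 + ‖z‖ ^ 2) +
      2 * Real.sqrt s * Real.exp (-φ z) * (‖1 + (starRingEnd ℂ) z * dzb (cx φ) z‖ ^ 2 +
        ‖dzb (cx φ) z‖ ^ 2) := by
    simp only [tr, Xs, LamP_eq, LamM_eq, lv, mv, Prod.fst_add, Prod.snd_add, Prod.smul_fst,
      Prod.smul_snd, smul_eq_mul]
    have : Real.sqrt s ≠ 0 := (Real.sqrt_pos.2 hs).ne'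
    field_simp
    ring
  rw [h1]
  have := Real.sqrt_pos.2 hs
  have := Real.exp_pos (-φ z)
  have h3 : 0 ≤ 2 * Real.sqrt s * Real.exp (-φ z) *
      (‖1 + (starRingEnd ℂ) z * dzb (cx φ) z‖ ^ 2 + ‖dzb (cx φ) z‖ ^ 2) := by positivity
  linarith

theorem id_norm_lv (z : ℂ) : ‖(1 + ‖z‖ ^ 2)⁻¹ • lv z‖ ≤ 1 := by
  have h0 : 0 < 1 + ‖z‖ ^ 2 := by positivity
  rw [norm_smul, Real.norm_of_nonneg (by positivity), inv_mul_le_iff₀ h0, mul_one]
  simp only [lv, Prod.norm_def, Real.norm_eq_abs]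
  have h1 := sq_nonneg (‖z‖ - 1)
  have h2 := sq_nonneg ‖z‖
  refine max_le ?_ (max_le ?_ ?_)
  · rw [abs_of_nonneg h2]; linarith
  · nlinarith
  · rw [abs_one]; linarith

theorem id_close {s : ℝ} (φ : ℂ → ℝ) {z : ℂ} (hT : 0 < tr (Xs s φ z)) :
    ‖(tr (Xs s φ z))⁻¹ • Xs s φ z - (1 + ‖z‖ ^ 2)⁻¹ • lv z‖ ≤
      2 * ‖idR s φ z‖ / tr (Xs s φ z) := by
  have hτ : 0 < 1 + ‖z‖ ^ 2 := by positivity
  have htr := id_tr s φ z
  obtain ⟨T, hTe⟩ : ∃ T, T = tr (Xs s φ z) := ⟨_, rfl⟩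
  rw [← hTe] at hT htr ⊢
  have h1 : T⁻¹ * idKap s φ z - (1 + ‖z‖ ^ 2)⁻¹ = -((idR s φ z).1 / T) * (1 + ‖z‖ ^ 2)⁻¹ := by
    field_simp
    linarith
  have h2 : T⁻¹ • Xs s φ z - (1 + ‖z‖ ^ 2)⁻¹ • lv z =
      (-((idR s φ z).1 / T)) • ((1 + ‖z‖ ^ 2)⁻¹ • lv z) + T⁻¹ • idR s φ z := by
    rw [id_decomp s φ z, smul_add, smul_smul, smul_smul, ← h1, sub_smul]
    abel
  rw [h2]
  refine (norm_add_le _ _).trans ?_
  have h3 : ‖(-((idR s φ z).1 / T)) • ((1 + ‖z‖ ^ 2)⁻¹ • lv z)‖ ≤ ‖idR s φ z‖ / T := by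
    rw [norm_smul, norm_neg, norm_div, Real.norm_of_nonneg hT.le]
    calc ‖(idR s φ z).1‖ / T * ‖(1 + ‖z‖ ^ 2)⁻¹ • lv z‖ ≤ ‖(idR s φ z).1‖ / T * 1 := by
          gcongr
          exact id_norm_lv z
      _ ≤ ‖idR s φ z‖ / T := by
          rw [mul_one]
          gcongr
          exact norm_fst_le _
  have h4 : ‖T⁻¹ • idR s φ z‖ = ‖idR s φ z‖ / T := by
    rw [norm_smul, norm_inv, Real.norm_of_nonneg hT.le]
    ring
  rw [h4]
  calc ‖(-((idR s φ z).1 / T)) • ((1 + ‖z‖ ^ 2)⁻¹ • lv z)‖ + ‖idR s φ z‖ / T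
      ≤ ‖idR s φ z‖ / T + ‖idR s φ z‖ / T := by linarith
    _ = 2 * ‖idR s φ z‖ / T := by ring

/-- the constant bounding the remainder -/
noncomputable def idC (s M : ℝ) : ℝ := 2 * Real.sqrt s * (Real.exp M * (1 + 2 * M))

theorem id_R_le {s M : ℝ} (hs : 0 < s) {E : Set ℂ} (hE : GeoSet E) {φ : ℂ → ℝ}
    (hS : Sol 6 s M E φ) {z : ℂ} (hz : z ∉ E) : ‖idR s φ z‖ ≤ idC s M * (1 + ‖z‖) := by
  have hM := hS.M_nonneg hz
  have hd := hE.pos hz
  have hd1 := hE.near z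
  have hq := hS.q_le (by norm_num) hE hz
  have he := hS.expn_le hE hz
  have hsq := Real.sqrt_pos.2 hs
  have hex := Real.exp_pos (-φ z)
  have hexM := Real.exp_pos M
  have h1 : Real.exp (-φ z) ≤ Real.exp M := by
    refine he.trans ?_
    nlinarith
  have h2 : Real.exp (-φ z) * ‖dzb (cx φ) z‖ ≤ Real.exp M * M := by
    calc Real.exp (-φ z) * ‖dzb (cx φ) z‖
        ≤ (Real.exp M * Metric.infDist z E) * (M / Metric.infDist z E) := by gcongr
      _ = Real.exp M * M := by field_simp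
  have h3 : |((starRingEnd ℂ) z * dzb (cx φ) z).re| ≤ ‖z‖ * ‖dzb (cx φ) z‖ := by
    refine (Complex.abs_re_le_norm _).trans ?_
    rw [norm_mul, Complex.norm_conj]
  simp only [idR, Prod.norm_def]
  have hzn := norm_nonneg z
  refine max_le ?_ (max_le ?_ ?_)
  · rw [Real.norm_eq_abs, abs_mul (2 * Real.sqrt s), abs_mul (Real.exp (-φ z)), abs_of_pos hex,
      abs_of_pos (by positivity : 0 < 2 * Real.sqrt s)]
    have h4 : |1 + 2 * ((starRingEnd ℂ) z * dzb (cx φ) z).re| ≤ 1 + 2 * (‖z‖ * ‖dzb (cx φ) z‖) := by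
      refine (abs_add_le _ _).trans ?_
      rw [abs_one, abs_mul, abs_of_pos (by norm_num : (0 : ℝ) < 2)]
      linarith
    have h5 : Real.exp (-φ z) * |1 + 2 * ((starRingEnd ℂ) z * dzb (cx φ) z).re| ≤
        Real.exp M * (1 + 2 * M) * (1 + ‖z‖) := by
      calc Real.exp (-φ z) * |1 + 2 * ((starRingEnd ℂ) z * dzb (cx φ) z).re|
          ≤ Real.exp (-φ z) * (1 + 2 * (‖z‖ * ‖dzb (cx φ) z‖)) := by gcongr
        _ = Real.exp (-φ z) + 2 * ‖z‖ * (Real.exp (-φ z) * ‖dzb (cx φ) z‖) := by ring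
        _ ≤ Real.exp M + 2 * ‖z‖ * (Real.exp M * M) := by gcongr
        _ ≤ Real.exp M * (1 + 2 * M) * (1 + ‖z‖) := by
            have e1 : 0 ≤ Real.exp M * M := by positivity
            have e2 : 0 ≤ Real.exp M * ‖z‖ := by positivity
            nlinarith
    rw [idC]
    calc 2 * Real.sqrt s * (Real.exp (-φ z) * |1 + 2 * ((starRingEnd ℂ) z * dzb (cx φ) z).re|)
        ≤ 2 * Real.sqrt s * (Real.exp M * (1 + 2 * M) * (1 + ‖z‖)) := by gcongr
      _ = 2 * Real.sqrt s * (Real.exp M * (1 + 2 * M)) * (1 + ‖z‖) := by ring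
  · rw [norm_mul, Complex.norm_real, Real.norm_of_nonneg (by positivity), idC]
    calc 2 * Real.sqrt s * Real.exp (-φ z) * ‖dzb (cx φ) z‖
        = 2 * Real.sqrt s * (Real.exp (-φ z) * ‖dzb (cx φ) z‖) := by ring
      _ ≤ 2 * Real.sqrt s * (Real.exp M * M) := by gcongr
      _ ≤ 2 * Real.sqrt s * (Real.exp M * (1 + 2 * M)) * (1 + ‖z‖) := by
          rw [mul_assoc (2 * Real.sqrt s)]
          refine mul_le_mul_of_nonneg_left ?_ (by positivity)
          have e1 : 0 ≤ Real.exp M * M := by positivity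
          have e2 : 0 ≤ Real.exp M * (1 + 2 * M) * ‖z‖ := by positivity
          nlinarith
  · rw [norm_zero, idC]
    positivity

/-- lower bound of the trace -/
theorem id_tr_lower {s M : ℝ} (hs : 0 < s) {E : Set ℂ} (hE : GeoSet E) {φ : ℂ → ℝ}
    (hS : Sol 6 s M E φ) {z : ℂ} (hz : z ∉ E) :
    Real.exp (-M) / (2 * Real.sqrt s) * (1 + ‖z‖ ^ 2) / Metric.infDist z E ≤ tr (Xs s φ z) := by
  refine le_trans ?_ (id_tr_ge hs φ z)
  have h1 := hS.exp_ge hE hz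
  have hd := hE.pos hz
  have hsq := Real.sqrt_pos.2 hs
  calc Real.exp (-M) / (2 * Real.sqrt s) * (1 + ‖z‖ ^ 2) / Metric.infDist z E
      = (Real.exp (-M) / Metric.infDist z E) / (2 * Real.sqrt s) * (1 + ‖z‖ ^ 2) := by
        field_simp
    _ ≤ Real.exp (φ z) / (2 * Real.sqrt s) * (1 + ‖z‖ ^ 2) := by gcongr

theorem id_tr_lower' {s M : ℝ} (hs : 0 < s) {E : Set ℂ} (hE : GeoSet E) {φ : ℂ → ℝ}
    (hS : Sol 6 s M E φ) {z : ℂ} (hz : z ∉ E) :
    Real.exp (-M) / (2 * Real.sqrt s) * (1 + ‖z‖ ^ 2) ≤ tr (Xs s φ z) := by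
  refine le_trans ?_ (id_tr_lower hs hE hS hz)
  have hd := hE.pos hz
  have hd1 := hE.near z
  have hsq := Real.sqrt_pos.2 hs
  rw [le_div_iff₀ hd]
  have h0 : 0 ≤ Real.exp (-M) / (2 * Real.sqrt s) * (1 + ‖z‖ ^ 2) := by positivity
  nlinarith

/-- the directions of the points of the surface are asymptotically those of the light cone vectors -/
theorem id_lim {s M : ℝ} (hs : 0 < s) {E : Set ℂ} (hE : GeoSet E) {φ : ℂ → ℝ}
    (hS : Sol 6 s M E φ) {z : ℕ → ℂ} (hz : ∀ n, z n ∉ E)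
    (hT : Tendsto (fun n => tr (Xs s φ (z n))) atTop atTop) :
    Tendsto (fun n => (tr (Xs s φ (z n)))⁻¹ • Xs s φ (z n) - (1 + ‖z n‖ ^ 2)⁻¹ • lv (z n))
      atTop (𝓝 0) := by
  have hsq := Real.sqrt_pos.2 hs
  obtain ⟨c, hc⟩ : ∃ c, c = Real.exp (-M) / (2 * Real.sqrt s) := ⟨_, rfl⟩
  have hc0 : 0 < c := by rw [hc]; positivity
  have hlow : ∀ n, c * (1 + ‖z n‖ ^ 2) ≤ tr (Xs s φ (z n)) := fun n => by
    rw [hc]; exact id_tr_lower' hs hE hS (hz n)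
  have hTpos : ∀ n, 0 < tr (Xs s φ (z n)) := fun n => lt_of_lt_of_le (by positivity) (hlow n)
  have hM := hS.M_nonneg (hz 0)
  have hCn : 0 ≤ idC s M := by rw [idC]; positivity
  rw [tendsto_zero_iff_norm_tendsto_zero]
  have hb : ∀ n, ‖(tr (Xs s φ (z n)))⁻¹ • Xs s φ (z n) - (1 + ‖z n‖ ^ 2)⁻¹ • lv (z n)‖ ≤
      (2 * idC s M * Real.sqrt (2 / c)) * (Real.sqrt (tr (Xs s φ (z n))))⁻¹ := by
    intro n
    refine (id_close φ (hTpos n)).trans ?_
    obtain ⟨T, hTe⟩ : ∃ T, T = tr (Xs s φ (z n)) := ⟨_, rfl⟩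
    have hl := hlow n
    have hp := hTpos n
    rw [← hTe] at hl hp ⊢
    have h1 : 1 + ‖z n‖ ≤ Real.sqrt (2 / c) * Real.sqrt T := by
      rw [← Real.sqrt_mul (by positivity)]
      apply Real.le_sqrt_of_sq_le
      rw [div_mul_eq_mul_div, le_div_iff₀ hc0]
      nlinarith [sq_nonneg (‖z n‖ - 1)]
    have h2 := id_R_le hs hE hS (hz n)
    have hsT := Real.sqrt_pos.2 hp
    have h3 : Real.sqrt T * Real.sqrt T = T := Real.mul_self_sqrt hp.le
    rw [div_le_iff₀ hp]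
    calc 2 * ‖idR s φ (z n)‖ ≤ 2 * (idC s M * (1 + ‖z n‖)) := by gcongr
      _ ≤ 2 * (idC s M * (Real.sqrt (2 / c) * Real.sqrt T)) := by gcongr
      _ = 2 * idC s M * Real.sqrt (2 / c) * (Real.sqrt T)⁻¹ * (Real.sqrt T * Real.sqrt T) := by
          field_simp
      _ = 2 * idC s M * Real.sqrt (2 / c) * (Real.sqrt T)⁻¹ * T := by rw [h3]
  refine squeeze_zero (fun n => norm_nonneg _) hb ?_
  have h4 : Tendsto (fun n => (Real.sqrt (tr (Xs s φ (z n))))⁻¹) atTop (𝓝 0) :=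
    tendsto_inv_atTop_zero.comp (Real.tendsto_sqrt_atTop.comp hT)
  simpa using h4.const_mul (2 * idC s M * Real.sqrt (2 / c))

theorem id_continuous_lv : Continuous lv := by
  unfold lv
  fun_prop

theorem id_tr_pt (z : ℂ) : tr (pt (z : OnePoint ℂ)) = 1 + ‖z‖ ^ 2 := by
  show ‖z‖ ^ 2 + 1 = 1 + ‖z‖ ^ 2
  ring

theorem id_pt (z : ℂ) : pt (z : OnePoint ℂ) = lv z := rfl

theorem id_frontier {E : Set ℂ} (hE : GeoSet E) (hint : interior E = ∅) :
    frontier (Gam E) = (Gam E)ᶜ := by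
  have ho : IsOpen (Gam E) := OnePoint.isOpen_image_coe.2 hE.closed.isOpen_compl
  have hdE : Dense Eᶜ := interior_eq_empty_iff_dense_compl.1 hint
  have hd : Dense (Gam E) := (OnePoint.denseRange_coe).dense_image OnePoint.continuous_coe hdE
  rw [ho.frontier_eq, hd.closure_eq]
  exact (Set.compl_eq_univ_sdiff _).symm

theorem geo_ideal {s M : ℝ} (hs : 0 < s) {E : Set ℂ} (hE : GeoSet E) (hint : interior E = ∅)
    {φ : ℂ → ℝ} (hS : Sol 6 s M E φ) (ζ : OnePoint ℂ) :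
    ζ ∈ frontier (Gam E) ↔ ∃ x : ℕ → Mink, (∀ n, ∃ z ∉ E, x n = Xs s φ z) ∧
      Tendsto (fun n => tr (x n)) atTop atTop ∧
      Tendsto (fun n => (tr (x n))⁻¹ • x n) atTop (𝓝 ((tr (pt ζ))⁻¹ • pt ζ)) := by
  have hsq := Real.sqrt_pos.2 hs
  rw [id_frontier hE hint]
  have hdE : Dense Eᶜ := interior_eq_empty_iff_dense_compl.1 hint
  constructor
  · intro hζ
    induction ζ using OnePoint.rec with
    | infty =>
      -- points far away
      have h1 : ∀ n : ℕ, ∃ z ∉ E, ‖z - (n : ℂ)‖ < 1 := by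
        intro n
        obtain ⟨z, hz1, hz2⟩ := hdE.exists_dist_lt (n : ℂ) one_pos
        refine ⟨z, hz1, ?_⟩
        rw [← dist_eq_norm, dist_comm]; exact hz2
      choose z hz hz1 using h1
      have hzn : Tendsto (fun n => ‖z n‖) atTop atTop := by
        refine tendsto_atTop_mono (f := fun n : ℕ => (n : ℝ) - 1) (fun n => ?_) ?_
        · have h2 := norm_sub_norm_le (n : ℂ) (z n)
          rw [norm_sub_rev, Complex.norm_natCast] at h2
          linarith [hz1 n]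
        · exact tendsto_atTop_add_const_right _ _ tendsto_natCast_atTop_atTop
      have hzn2 : Tendsto (fun n => 1 + ‖z n‖ ^ 2) atTop atTop :=
        tendsto_atTop_add_const_left _ _ ((tendsto_pow_atTop two_ne_zero).comp hzn)
      have hT : Tendsto (fun n => tr (Xs s φ (z n))) atTop atTop := by
        refine tendsto_atTop_mono (fun n => id_tr_lower' hs hE hS (hz n)) ?_
        exact hzn2.const_mul_atTop (by positivity)
      refine ⟨fun n => Xs s φ (z n), fun n => ⟨z n, hz n, rfl⟩, hT, ?_⟩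
      have h3 := id_lim hs hE hS hz hT
      have h4 : Tendsto (fun n => (1 + ‖z n‖ ^ 2)⁻¹ • lv (z n)) atTop
          (𝓝 ((tr (pt OnePoint.infty))⁻¹ • pt OnePoint.infty)) := by
        have e1 : (tr (pt OnePoint.infty))⁻¹ • pt OnePoint.infty = ((1 : ℝ), (0 : ℂ), (0 : ℝ)) := by
          have : pt OnePoint.infty = ((1 : ℝ), (0 : ℂ), (0 : ℝ)) := rfl
          rw [this]
          simp [tr]
        rw [e1]
        have hi : Tendsto (fun n => (1 + ‖z n‖ ^ 2)⁻¹) atTop (𝓝 0) :=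
          tendsto_inv_atTop_zero.comp hzn2
        have e2 : (fun n => (1 + ‖z n‖ ^ 2)⁻¹ • lv (z n)) = fun n =>
            ((1 - (1 + ‖z n‖ ^ 2)⁻¹ : ℝ), (1 + ‖z n‖ ^ 2)⁻¹ • z n, (1 + ‖z n‖ ^ 2)⁻¹) := by
          funext n
          have hp : (1 + ‖z n‖ ^ 2) ≠ 0 := by positivity
          refine Prod.ext ?_ (Prod.ext rfl ?_)
          · show (1 + ‖z n‖ ^ 2)⁻¹ * ‖z n‖ ^ 2 = 1 - (1 + ‖z n‖ ^ 2)⁻¹
            field_simp
            ring
          · show (1 + ‖z n‖ ^ 2)⁻¹ * 1 = (1 + ‖z n‖ ^ 2)⁻¹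
            ring
        rw [e2]
        refine Tendsto.prodMk_nhds ?_ (Tendsto.prodMk_nhds ?_ hi)
        · simpa using hi.const_sub 1
        · rw [tendsto_zero_iff_norm_tendsto_zero]
          have h5 : Tendsto (fun n => ‖z n‖⁻¹) atTop (𝓝 0) := tendsto_inv_atTop_zero.comp hzn
          refine squeeze_zero (fun n => norm_nonneg _) (fun n => ?_) h5
          have hp : 0 < 1 + ‖z n‖ ^ 2 := by positivity
          rw [norm_smul, norm_inv, Real.norm_of_nonneg hp.le]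
          rcases eq_or_lt_of_le (norm_nonneg (z n)) with h6 | h6
          · rw [← h6]; simp
          · rw [inv_mul_le_iff₀ hp]
            have e3 : (1 + ‖z n‖ ^ 2) * ‖z n‖⁻¹ = ‖z n‖⁻¹ + ‖z n‖ := by
              field_simp
            rw [e3]
            have := inv_pos.2 h6
            linarith
      have h5 := h3.add h4
      simpa using h5
    | coe e =>
      have heE : e ∈ E := by
        by_contra h
        exact hζ ⟨e, h, rfl⟩
      obtain ⟨z, hz, hze⟩ := mem_closure_iff_seq_limit.1 (hdE e)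
      have hd0 : Tendsto (fun n => Metric.infDist (z n) E) atTop (𝓝 0) := by
        have h1 := ((Metric.continuous_infDist_pt E).tendsto e).comp hze
        rw [Metric.infDist_zero_of_mem heE] at h1
        exact h1
      have hdp : ∀ n, 0 < Metric.infDist (z n) E := fun n => hE.pos (hz n)
      have hT : Tendsto (fun n => tr (Xs s φ (z n))) atTop atTop := by
        refine tendsto_atTop_mono (f := fun n => Real.exp (-M) / (2 * Real.sqrt s) *
          (Metric.infDist (z n) E)⁻¹) (fun n => ?_) ?_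
        · refine le_trans ?_ (id_tr_lower hs hE hS (hz n))
          rw [← div_eq_mul_inv]
          have := hdp n
          gcongr
          have h0 : 0 ≤ Real.exp (-M) / (2 * Real.sqrt s) := by positivity
          nlinarith [sq_nonneg ‖z n‖, mul_nonneg h0 (sq_nonneg ‖z n‖)]
        · refine Tendsto.const_mul_atTop (by positivity) ?_
          refine tendsto_inv_nhdsGT_zero.comp ?_
          exact tendsto_nhdsWithin_iff.2 ⟨hd0, Eventually.of_forall hdp⟩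
      refine ⟨fun n => Xs s φ (z n), fun n => ⟨z n, hz n, rfl⟩, hT, ?_⟩
      have h3 := id_lim hs hE hS hz hT
      have h4 : Tendsto (fun n => (1 + ‖z n‖ ^ 2)⁻¹ • lv (z n)) atTop
          (𝓝 ((tr (pt (e : OnePoint ℂ)))⁻¹ • pt (e : OnePoint ℂ))) := by
        rw [id_tr_pt, id_pt]
        have hc0 : ContinuousAt (fun z : ℂ => ((1 + ‖z‖ ^ 2)⁻¹ : ℝ)) e := by
          refine ContinuousAt.inv₀ (by fun_prop) ?_
          positivity
        have hc : ContinuousAt (fun z : ℂ => ((1 + ‖z‖ ^ 2)⁻¹ : ℝ) • lv z) e :=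
          hc0.smul id_continuous_lv.continuousAt
        exact hc.tendsto.comp hze
      have h5 := h3.add h4
      simpa using h5
  · rintro ⟨x, hx, hT, hlim⟩ ⟨z, hz, rfl⟩
    choose w hw hxw using hx
    have hT' : Tendsto (fun n => tr (Xs s φ (w n))) atTop atTop := by
      simpa only [hxw] using hT
    have h3 := id_lim hs hE hS hw hT'
    have h4 : Tendsto (fun n => (1 + ‖w n‖ ^ 2)⁻¹ • lv (w n)) atTop
        (𝓝 ((1 + ‖z‖ ^ 2)⁻¹ • lv z)) := by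
      have h5 := hlim.sub h3
      simp only [hxw] at h5
      have e1 : (tr (pt ((fun z : ℂ => (z : OnePoint ℂ)) z)))⁻¹ •
          pt ((fun z : ℂ => (z : OnePoint ℂ)) z) - 0 = (1 + ‖z‖ ^ 2)⁻¹ • lv z := by
        rw [sub_zero]
        show (tr (pt (z : OnePoint ℂ)))⁻¹ • pt (z : OnePoint ℂ) = _
        rw [id_tr_pt, id_pt]
      rw [e1] at h5
      simpa using h5
    have h6 : Tendsto (fun n => (1 + ‖w n‖ ^ 2)⁻¹) atTop (𝓝 ((1 + ‖z‖ ^ 2)⁻¹)) := by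
      have h61 := (continuous_snd.comp continuous_snd).tendsto _ |>.comp h4
      have e6 : (Prod.snd ∘ Prod.snd) ∘ (fun n => (1 + ‖w n‖ ^ 2)⁻¹ • lv (w n)) =
          fun n => (1 + ‖w n‖ ^ 2)⁻¹ := by
        funext n
        show (1 + ‖w n‖ ^ 2)⁻¹ * 1 = (1 + ‖w n‖ ^ 2)⁻¹
        ring
      have e7 : (Prod.snd ∘ Prod.snd) ((1 + ‖z‖ ^ 2)⁻¹ • lv z) = (1 + ‖z‖ ^ 2)⁻¹ := by
        show (1 + ‖z‖ ^ 2)⁻¹ * 1 = (1 + ‖z‖ ^ 2)⁻¹
        ring
      rw [← e6, ← e7]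
      exact h61
    have h7 : Tendsto (fun n => (1 + ‖w n‖ ^ 2)⁻¹ • w n) atTop (𝓝 ((1 + ‖z‖ ^ 2)⁻¹ • z)) :=
      (continuous_fst.comp continuous_snd).tendsto _ |>.comp h4
    have hp : (1 + ‖z‖ ^ 2)⁻¹ ≠ 0 := by positivity
    have h8 : Tendsto (fun n => ((1 + ‖w n‖ ^ 2)⁻¹)⁻¹ • ((1 + ‖w n‖ ^ 2)⁻¹ • w n)) atTop
        (𝓝 (((1 + ‖z‖ ^ 2)⁻¹)⁻¹ • ((1 + ‖z‖ ^ 2)⁻¹ • z))) := (h6.inv₀ hp).smul h7
    have e2 : ∀ v : ℂ, ((1 + ‖v‖ ^ 2)⁻¹)⁻¹ • ((1 + ‖v‖ ^ 2)⁻¹ • v) = v := by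
      intro v
      rw [smul_smul, inv_mul_cancel₀, one_smul]
      positivity
    simp only [e2] at h8
    obtain ⟨L, hL, -⟩ := Xs_hasFDerivAt hs ((hS.cda hE hz).of_le (by norm_num))
    have hcont : ContinuousAt (Xs s φ) z := hL.continuousAt
    have htr : Continuous tr := by unfold tr; fun_prop
    have h9 : Tendsto (fun n => tr (Xs s φ (w n))) atTop (𝓝 (tr (Xs s φ z))) :=
      (htr.tendsto _).comp (hcont.tendsto.comp h8)
    exact not_tendsto_nhds_of_tendsto_atTop hT' _ h9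

end Pool.Agent.BB4B37
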