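import Pool.Agent.W_bb4b37_h3.Bd

/-! # GEO: boundary points of the convex domain are on the surface (task)

Let `Y ∈ Cs s φ E`, `Y ∈ closure (H3 \ Cs s φ E)`. There are `Y n ∈ H3 \ Cs` with `Y n → Y`
(`mem_closure_iff_seq_limit`) and `z n ∉ E` with `0 < mip (Y n) (Ns s φ (z n))`.
With `Y = (A, w, B)`, `H3_lv`, `H3_mv`: `2 <Y,N> = -(e^φ/√s)(‖w-Bz‖²+1)/(2B) + (2√s e^{-φ}/B)(‖q‖²+‖B - q conj(w-Bz)‖²)` and
`‖q‖²+‖B - q conj(w-Bz)‖² ≤ 2B² + 2‖q‖²(‖w-Bz‖²+1)`, so with `h1` (`4‖q‖² ≤ e^{2φ}/(4s)`): `<Y,N> > 0` implies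
`e^{2φ(z)}(‖w-Bz‖²+1) ≤ 16 s B²`.
Apply to `Y n, z n` (`B n → B > 0`): `e^{2φ(z n)}` is bounded, so `infDist (z n) E ≥ δ > 0` (`Sol.exp_ge`), and
`e^{-φ} ≤ e^M` (`Sol.expn_le`, `infDist ≤ 1`) so `‖w n - B n z n‖` and hence `‖z n‖` is bounded. So `z n` stays in the
compact set `{‖z‖ ≤ R, infDist z E ≥ δ}`; subsequence `z n → z ∉ E`. By continuity of `Ns` on `Eᶜ` and `Y ∈ Cs`:
`mip Y (Ns s φ z) = 0` and `z' ↦ mip Y (Ns s φ z')` has a local maximum at `z` (values `≤ 0`), so its derivative vanishes: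
`mip Y (L u) = 0` for all `u`, `L` = derivative of `Ns` (`Ns_hasFDerivAt`). As `u ↦ (1-sL)u - s Q̄ ū` is onto (h2:
`‖sQ‖ < 1 - sL`), `mip Y (Vv z q 1) = mip Y (Vv z q I) = 0`. By `frame`, `Y = -2<Y,mv> lv - 2<Y,lv> mv`, and
`<Y,N> = 0` says `(e^φ/√s)<Y,lv> = 4√s e^{-φ}<Y,mv>`, so `Y` is a multiple of `Xs s φ z`; both have square `-1` and
positive first (or last) coordinate, so `Y = Xs s φ z`.
-/

set_option autoImplicit false

namespace Pool.Agent.BB4B37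

open Complex Filter Topology Set MeasureTheory

theorem Img_key {s : ℝ} (hs : 0 < s) {φ : ℂ → ℝ} {z : ℂ}
    (h1 : 16 * s * ‖dzb (cx φ) z‖ ^ 2 ≤ Real.exp (2 * φ z)) {Y : Mink} (hY : Y ∈ H3)
    (hpos : 0 < mip Y (Ns s φ z)) :
    Real.exp (2 * φ z) * (‖Y.2.1 - Y.2.2 * z‖ ^ 2 + 1) ≤ 16 * s * Y.2.2 ^ 2 := by
  obtain ⟨-, hB⟩ := (H3_iff Y).1 hY
  have e1 : mip Y (Ns s φ z) = 1 / 2 * (Real.exp (φ z) / Real.sqrt s * mip Y (lv z) -
      4 * Real.sqrt s * Real.exp (-φ z) * mip Y (mv z (dzb (cx φ) z))) := by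
    rw [Ns, LamP_eq, LamM_eq, mip_smul_right, mip_sub_right, mip_smul_right, mip_smul_right]
  rw [e1, H3_lv hY, H3_mv hY] at hpos
  set q := dzb (cx φ) z with hq
  set b := ‖Y.2.1 - Y.2.2 * z‖ with hb
  set r := Real.sqrt s with hr
  have hr0 : 0 < r := Real.sqrt_pos.2 hs
  have hrr : r * r = s := Real.mul_self_sqrt hs.le
  have e2 : ‖(Y.2.2 : ℂ) - q * (starRingEnd ℂ) (Y.2.1 - Y.2.2 * z)‖ ≤ Y.2.2 + ‖q‖ * b := by
    refine (norm_sub_le _ _).trans ?_
    rw [norm_mul, Complex.norm_conj, Complex.norm_real, Real.norm_of_nonneg hB.le]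
  set X := ‖q‖ ^ 2 + ‖(Y.2.2 : ℂ) - q * (starRingEnd ℂ) (Y.2.1 - Y.2.2 * z)‖ ^ 2 with hX
  have e3 : X ≤ 2 * Y.2.2 ^ 2 + 2 * ‖q‖ ^ 2 * (b ^ 2 + 1) := by
    have h3 : ‖(Y.2.2 : ℂ) - q * (starRingEnd ℂ) (Y.2.1 - Y.2.2 * z)‖ ^ 2 ≤
        (Y.2.2 + ‖q‖ * b) ^ 2 := pow_le_pow_left₀ (norm_nonneg _) e2 2
    have h4 : 0 ≤ (Y.2.2 - ‖q‖ * b) ^ 2 := sq_nonneg _
    have h5 : 0 ≤ ‖q‖ ^ 2 := sq_nonneg _
    rw [hX]
    linarith [h3, h4, h5]
  have e4 : Real.exp (φ z) * Real.exp (-φ z) = 1 := by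
    rw [← Real.exp_add, add_neg_cancel, Real.exp_zero]
  have e5 : Real.exp (2 * φ z) = Real.exp (φ z) * Real.exp (φ z) := by
    rw [← Real.exp_add, two_mul]
  have h6 : 0 < 4 * Y.2.2 * r * Real.exp (φ z) *
      (1 / 2 * (Real.exp (φ z) / r * (-(b ^ 2 + 1) / (2 * Y.2.2)) -
      4 * r * Real.exp (-φ z) * (-X / (2 * Y.2.2)))) := by
    have := Real.exp_pos (φ z)
    positivity
  have h7 : 4 * Y.2.2 * r * Real.exp (φ z) *
      (1 / 2 * (Real.exp (φ z) / r * (-(b ^ 2 + 1) / (2 * Y.2.2)) -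
      4 * r * Real.exp (-φ z) * (-X / (2 * Y.2.2)))) =
      -(Real.exp (φ z) * Real.exp (φ z)) * (b ^ 2 + 1) +
        4 * (r * r) * X * (Real.exp (φ z) * Real.exp (-φ z)) := by
    field_simp
    ring
  rw [h7, e4, hrr, ← e5, mul_one] at h6
  have h8 : 4 * s * X ≤ 4 * s * (2 * Y.2.2 ^ 2 + 2 * ‖q‖ ^ 2 * (b ^ 2 + 1)) :=
    mul_le_mul_of_nonneg_left e3 (by positivity)
  have h9 : 16 * s * ‖q‖ ^ 2 * (b ^ 2 + 1) ≤ Real.exp (2 * φ z) * (b ^ 2 + 1) :=
    mul_le_mul_of_nonneg_right h1 (by positivity)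
  linarith

theorem Img_mip_continuous : Continuous fun p : Mink × Mink => mip p.1 p.2 := by
  unfold mip
  have h1 : Continuous fun p : Mink × Mink => (p.1.2.1 * (starRingEnd ℂ) p.2.2.1).re :=
    Complex.continuous_re.comp ((continuous_fst.comp (continuous_snd.comp continuous_fst)).mul
      (Complex.continuous_conj.comp (continuous_fst.comp (continuous_snd.comp continuous_snd))))
  have h2 : Continuous fun p : Mink × Mink => (p.1.1 * p.2.2.2 + p.1.2.2 * p.2.1) / 2 :=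
    (((continuous_fst.comp continuous_fst).mul
      (continuous_snd.comp (continuous_snd.comp continuous_snd))).add
      ((continuous_snd.comp (continuous_snd.comp continuous_fst)).mul
        (continuous_fst.comp continuous_snd))).div_const 2
  exact h1.sub h2

/-- `mip Y` as a continuous linear map -/
noncomputable def Img_mipL (Y : Mink) : Mink →L[ℝ] ℝ :=
  LinearMap.toContinuousLinearMap
    { toFun := mip Y
      map_add' := fun x y => mip_add_right x y Y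
      map_smul' := fun a x => mip_smul_right a x Y }

theorem Img_mipL_apply (Y x : Mink) : Img_mipL Y x = mip Y x := rfl

/-- the map `u ↦ a u - c conj u` is onto if `|c| < a` -/
theorem Img_onto (a : ℝ) (c v : ℂ) (h : ‖c‖ < a) :
    ∃ u : ℂ, (a : ℂ) * u - c * (starRingEnd ℂ) u = v := by
  have h0 : (a : ℂ) ^ 2 - c * (starRingEnd ℂ) c ≠ 0 := by
    rw [Complex.mul_conj, ← Complex.ofReal_pow, ← Complex.ofReal_sub]
    rw [Complex.normSq_eq_norm_sq]
    have h1 : ‖c‖ ^ 2 < a ^ 2 := pow_lt_pow_left₀ h (norm_nonneg _) two_ne_zero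
    exact_mod_cast (sub_pos.2 h1).ne'
  refine ⟨((a : ℂ) * v + c * (starRingEnd ℂ) v) / ((a : ℂ) ^ 2 - c * (starRingEnd ℂ) c), ?_⟩
  have h2 : (starRingEnd ℂ) ((a : ℂ) ^ 2 - c * (starRingEnd ℂ) c) =
      (a : ℂ) ^ 2 - c * (starRingEnd ℂ) c := by
    rw [map_sub, map_pow, map_mul, Complex.conj_ofReal, Complex.conj_conj, mul_comm c]
  rw [map_div₀, h2, map_add, map_mul, map_mul, Complex.conj_ofReal, Complex.conj_conj]
  field_simp
  ring

/-- a point orthogonal to `Ns` and to its derivative is the point of the surface -/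
theorem Img_eq {s : ℝ} (hs : 0 < s) {φ : ℂ → ℝ} {z : ℂ} {Y : Mink} (hY : Y ∈ H3)
    (h0 : mip Y (Ns s φ z) = 0) (hv : ∀ v, mip Y (Vv z (dzb (cx φ) z) v) = 0) :
    Xs s φ z = Y := by
  obtain ⟨-, hB⟩ := (H3_iff Y).1 hY
  set q := dzb (cx φ) z with hq
  have hfr := frame z q Y
  rw [hv 1, hv I, zero_smul, zero_smul, add_zero, add_zero] at hfr
  set α : ℝ := Real.exp (φ z) / Real.sqrt s with hα
  set β : ℝ := 4 * Real.sqrt s * Real.exp (-φ z) with hβ
  have hr0 : 0 < Real.sqrt s := Real.sqrt_pos.2 hs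
  have hα0 : 0 < α := div_pos (Real.exp_pos _) hr0
  have hβ0 : 0 < β := by positivity
  have e1 : α * mip Y (lv z) = β * mip Y (mv z q) := by
    have e2 : mip Y (Ns s φ z) = 1 / 2 * (α * mip Y (lv z) - β * mip Y (mv z q)) := by
      rw [Ns, LamP_eq, LamM_eq, mip_smul_right, mip_sub_right, mip_smul_right, mip_smul_right]
    rw [e2] at h0
    linarith
  set t : ℝ := -4 * mip Y (lv z) / β with ht
  have hP : mip Y (lv z) < 0 := by
    rw [H3_lv hY]
    exact div_neg_of_neg_of_pos (by nlinarith [sq_nonneg ‖Y.2.1 - Y.2.2 * z‖]) (by positivity)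
  have ht0 : 0 < t := div_pos (by linarith) hβ0
  have ht1 : t * β = -4 * mip Y (lv z) := div_mul_cancel₀ _ hβ0.ne'
  have ht2 : t * α = -4 * mip Y (mv z q) := by
    have e3 : t * α * β = -4 * mip Y (mv z q) * β := by
      calc t * α * β = (t * β) * α := by ring
        _ = -4 * (α * mip Y (lv z)) := by rw [ht1]; ring
        _ = -4 * mip Y (mv z q) * β := by rw [e1]; ring
    exact mul_right_cancel₀ hβ0.ne' e3
  have hYt : Y = t • Xs s φ z := by
    have e4 : Xs s φ z = (1 / 2 : ℝ) • (α • lv z + β • mv z q) := rfl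
    have e5 : t • Xs s φ z = (t * α / 2) • lv z + (t * β / 2) • mv z q := by
      rw [e4, smul_smul, smul_add, smul_smul, smul_smul]
      congr 2 <;> ring
    rw [e5, ht1, ht2]
    have e6 : -4 * mip Y (mv z q) / 2 = -2 * mip Y (mv z q) := by ring
    have e7 : -4 * mip Y (lv z) / 2 = -2 * mip Y (lv z) := by ring
    rw [e6, e7]
    exact hfr
  have ht3 : t = 1 := by
    have e8 : mip Y Y = -1 := hY.1
    rw [hYt, mip_smul_left, mip_smul_right, (mip_frames hs φ z).2.2] at e8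
    nlinarith
  rw [ht3, one_smul] at hYt
  exact hYt.symm

theorem geo_image_aux {s M : ℝ} (hs : 0 < s) {E : Set ℂ} (hE : GeoSet E) {φ : ℂ → ℝ}
    (hS : Sol 6 s M E φ)
    (h1 : ∀ z ∉ E, 16 * s * ‖dzb (cx φ) z‖ ^ 2 ≤ Real.exp (2 * φ z))
    (h2 : ∀ z ∉ E, s * ‖Qc φ z‖ < 1 - s * Lc φ z)
    {Y : Mink} (hY : Y ∈ Cs s φ E) (hY' : Y ∈ closure (H3 \ Cs s φ E)) :
    ∃ z ∉ E, Xs s φ z = Y := by
  obtain ⟨hYH, hYC⟩ := hY
  obtain ⟨-, hB⟩ := (H3_iff Y).1 hYH
  obtain ⟨y, hy, hlim⟩ := mem_closure_iff_seq_limit.1 hY'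
  have hz : ∀ n, ∃ z, z ∉ E ∧ 0 < mip (y n) (Ns s φ z) := by
    intro n
    by_contra hcon
    push Not at hcon
    exact (hy n).2 ⟨(hy n).1, hcon⟩
  choose z hzE hzpos using hz
  -- limits of the coordinates
  have hlimB : Tendsto (fun n => (y n).2.2) atTop (𝓝 Y.2.2) :=
    ((continuous_snd.comp continuous_snd).tendsto Y).comp hlim
  have hlimw : Tendsto (fun n => (y n).2.1) atTop (𝓝 Y.2.1) :=
    ((continuous_fst.comp continuous_snd).tendsto Y).comp hlim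
  have hevB : ∀ᶠ n in atTop, (y n).2.2 < Y.2.2 + 1 := hlimB.eventually_lt_const (by linarith)
  have hevB' : ∀ᶠ n in atTop, Y.2.2 / 2 < (y n).2.2 := hlimB.eventually_const_lt (by linarith)
  have hevw : ∀ᶠ n in atTop, ‖(y n).2.1‖ < ‖Y.2.1‖ + 1 :=
    hlimw.norm.eventually_lt_const (by linarith)
  have hr0 : 0 < Real.sqrt s := Real.sqrt_pos.2 hs
  set R1 : ℝ := 4 * Real.sqrt s * (Y.2.2 + 1) with hR1
  have hR10 : 0 < R1 := by positivity
  set δ : ℝ := Real.exp (-M) / R1 with hδ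
  have hδ0 : 0 < δ := by positivity
  set R3 : ℝ := (‖Y.2.1‖ + 1 + R1 * Real.exp M) / (Y.2.2 / 2) with hR3
  have hR1sq : R1 ^ 2 = 16 * s * (Y.2.2 + 1) ^ 2 := by
    rw [hR1, mul_pow, mul_pow, Real.sq_sqrt hs.le]
    norm_num
  have hK : ∀ᶠ n in atTop, z n ∈ Metric.closedBall (0 : ℂ) R3 ∩ {x | δ ≤ Metric.infDist x E} := by
    filter_upwards [hevB, hevB', hevw] with n hn1 hn2 hn3
    have hBn : 0 < (y n).2.2 := ((H3_iff (y n)).1 (hy n).1).2
    have key := Img_key hs (h1 (z n) (hzE n)) (hy n).1 (hzpos n)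
    set b := ‖(y n).2.1 - (y n).2.2 * z n‖ with hb
    have hb0 : 0 ≤ b := norm_nonneg _
    have e5 : Real.exp (2 * φ (z n)) = Real.exp (φ (z n)) ^ 2 := by
      rw [← Real.exp_nat_mul, Nat.cast_ofNat]
    have key2 : Real.exp (φ (z n)) ^ 2 * (b ^ 2 + 1) ≤ R1 ^ 2 := by
      rw [← e5, hR1sq]
      refine key.trans ?_
      refine mul_le_mul_of_nonneg_left ?_ (by positivity)
      exact pow_le_pow_left₀ hBn.le hn1.le 2
    have hexp0 := Real.exp_pos (φ (z n))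
    have k1 : Real.exp (φ (z n)) ≤ R1 := by
      refine le_of_sq_le_sq ?_ hR10.le
      refine le_trans ?_ key2
      nlinarith [sq_nonneg b, sq_nonneg (Real.exp (φ (z n)))]
    have k2 : Real.exp (φ (z n)) * b ≤ R1 := by
      refine le_of_sq_le_sq ?_ hR10.le
      refine le_trans ?_ key2
      rw [mul_pow]
      nlinarith [sq_nonneg b, sq_nonneg (Real.exp (φ (z n)))]
    have k3 : b ≤ R1 * Real.exp M := by
      have e6 : Real.exp (-φ (z n)) ≤ Real.exp M := by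
        refine (hS.expn_le hE (hzE n)).trans ?_
        exact mul_le_of_le_one_right (Real.exp_pos _).le (hE.near _)
      have e7 : b = Real.exp (φ (z n)) * b * Real.exp (-φ (z n)) := by
        have e4 : Real.exp (φ (z n)) * Real.exp (-φ (z n)) = 1 := by
          rw [← Real.exp_add, add_neg_cancel, Real.exp_zero]
        linear_combination (-b) * e4
      rw [e7]
      exact mul_le_mul k2 e6 (Real.exp_pos _).le hR10.le
    refine ⟨?_, ?_⟩
    · rw [mem_closedBall_zero_iff, hR3, le_div_iff₀ (by positivity)]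
      have e8 : ‖((y n).2.2 : ℂ) * z n‖ ≤ ‖(y n).2.1‖ + b := by
        have e9 : ((y n).2.2 : ℂ) * z n = (y n).2.1 - ((y n).2.1 - (y n).2.2 * z n) := by ring
        rw [e9]
        exact norm_sub_le _ _
      rw [norm_mul, Complex.norm_real, Real.norm_of_nonneg hBn.le] at e8
      have e10 : ‖z n‖ * (Y.2.2 / 2) ≤ (y n).2.2 * ‖z n‖ := by
        rw [mul_comm]
        exact mul_le_mul_of_nonneg_right hn2.le (norm_nonneg _)
      linarith
    · have e11 := (hS.exp_ge hE (hzE n)).trans k1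
      rw [div_le_iff₀ (hE.pos (hzE n))] at e11
      change δ ≤ Metric.infDist (z n) E
      rw [hδ, div_le_iff₀ hR10, mul_comm]
      exact e11
  have hcomp : IsCompact (Metric.closedBall (0 : ℂ) R3 ∩ {x | δ ≤ Metric.infDist x E}) :=
    (isCompact_closedBall 0 R3).inter_right
      (isClosed_le continuous_const (Metric.continuous_infDist_pt E))
  obtain ⟨x, hx, σ, hσ, hzx⟩ := hcomp.tendsto_subseq' hK.frequently
  have hxE : x ∉ E := by
    intro hxE
    have := hx.2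
    rw [mem_ofPred_eq, Metric.infDist_zero_of_mem hxE] at this
    linarith
  have hc2 : ∀ p ∉ E, ContDiffAt ℝ 2 φ p := fun p hp => (hS.cda hE hp).of_le (by norm_num)
  obtain ⟨L, hL, hL'⟩ := Ns_hasFDerivAt hs (hc2 x hxE)
  -- `mip Y (Ns x) = 0`
  have hge : 0 ≤ mip Y (Ns s φ x) := by
    have hl1 : Tendsto (fun n => (y (σ n), Ns s φ (z (σ n)))) atTop (𝓝 (Y, Ns s φ x)) :=
      (hlim.comp hσ.tendsto_atTop).prodMk_nhds (hL.continuousAt.tendsto.comp hzx)
    have hl2 := (Img_mip_continuous.tendsto (Y, Ns s φ x)).comp hl1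
    exact ge_of_tendsto' hl2 fun n => (hzpos (σ n)).le
  have h0 : mip Y (Ns s φ x) = 0 := le_antisymm (hYC x hxE) hge
  refine ⟨x, hxE, Img_eq hs hYH h0 ?_⟩
  have hmax : IsLocalMax (fun p => Img_mipL Y (Ns s φ p)) x := by
    filter_upwards [hE.closed.isOpen_compl.mem_nhds hxE] with p hp
    rw [Img_mipL_apply, Img_mipL_apply, h0]
    exact hYC p hp
  have hder : HasFDerivAt (fun p => Img_mipL Y (Ns s φ p)) ((Img_mipL Y).comp L) x :=
    (Img_mipL Y).hasFDerivAt.comp x hL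
  have hzero := hmax.hasFDerivAt_eq_zero hder
  intro v
  obtain ⟨u, hu⟩ := Img_onto (1 - s * Lc φ x) ((s : ℂ) * (starRingEnd ℂ) (Qc φ x)) v (by
    rw [norm_mul, Complex.norm_conj, Complex.norm_real, Real.norm_of_nonneg hs.le]
    exact h2 x hxE)
  have h3 := DFunLike.congr_fun hzero u
  rw [ContinuousLinearMap.comp_apply, Img_mipL_apply, hL', mip_smul_right] at h3
  have h4 : (1 - (s : ℂ) * (Lc φ x : ℂ)) * u - (s : ℂ) * (starRingEnd ℂ) (Qc φ x) *
      (starRingEnd ℂ) u = v := by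
    rw [← hu]
    push_cast
    ring
  rw [h4] at h3
  have h5 : Real.exp (φ x) / (2 * Real.sqrt s) ≠ 0 := by
    have := Real.exp_pos (φ x)
    positivity
  exact (mul_eq_zero.1 h3).resolve_left h5

end Pool.Agent.BB4B37
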