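import Pool.Agent.W_bb4b37_h3.Geo1
import Pool.Agent.W_bb4b37_h3.Curv
import Pool.Agent.W_bb4b37_h3.Img
import Pool.Agent.W_bb4b37_h3.Ideal

/-! # GEO, part 5: assembly -/

set_option autoImplicit false

namespace Pool.Agent.BB4B37

open Complex Filter Topology Set MeasureTheory

theorem Gam_coe {E : Set ℂ} {z : ℂ} : (z : OnePoint ℂ) ∈ Gam E ↔ z ∉ E := by
  simp [Gam]

theorem Gam_set (E : Set ℂ) : {z : ℂ | (z : OnePoint ℂ) ∈ Gam E} = Eᶜ := by
  ext z; simp [Gam]

/-- continuity of `Xs` as a function of `z ∉ E` and the converse: the embedding property -/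
theorem geo_embed {s M : ℝ} (hs : 0 < s) {E : Set ℂ} (hE : GeoSet E) {φ : ℂ → ℝ}
    (hS : Sol 6 s M E φ)
    (hn : ∀ z ∉ E, ∀ z' ∉ E,
      mip (Xs s φ z') (Ns s φ z) ≤ -(Real.exp (φ z + φ z') * ‖z' - z‖ ^ 2) / (16 * s)) :
    IsEmbedding (fun z : {z : ℂ // (z : OnePoint ℂ) ∈ Gam E} => Xs s φ z) := by
  have hE' : ∀ z : {z : ℂ // (z : OnePoint ℂ) ∈ Gam E}, (z : ℂ) ∉ E := fun z => Gam_coe.1 z.2
  -- key bound
  have key : ∀ z ∉ E, ∀ z' ∉ E, ‖z' - z‖ ^ 2 ≤
      (16 * s * Real.exp M * Real.exp (-φ z)) * (-mip (Xs s φ z') (Ns s φ z)) := by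
    intro z hz z' hz'
    have h1 := hn z hz z' hz'
    have h2 := hS.expn_le hE hz'
    have h3 := hE.near z'
    have h4 : Real.exp (-φ z') ≤ Real.exp M := by
      refine h2.trans ?_
      have := Real.exp_pos M
      nlinarith
    have h5 : Real.exp (φ z + φ z') * ‖z' - z‖ ^ 2 ≤ 16 * s * (-mip (Xs s φ z') (Ns s φ z)) := by
      rw [le_div_iff₀ (by positivity)] at h1
      linarith
    have h6 : ‖z' - z‖ ^ 2 = Real.exp (-φ z) * Real.exp (-φ z') *
        (Real.exp (φ z + φ z') * ‖z' - z‖ ^ 2) := by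
      rw [← mul_assoc, ← Real.exp_add, ← Real.exp_add]
      have : -φ z + -φ z' + (φ z + φ z') = 0 := by ring
      rw [this]; simp
    have h7 : 0 ≤ 16 * s * (-mip (Xs s φ z') (Ns s φ z)) := le_trans (by positivity) h5
    rw [h6]
    calc Real.exp (-φ z) * Real.exp (-φ z') * (Real.exp (φ z + φ z') * ‖z' - z‖ ^ 2)
        ≤ Real.exp (-φ z) * Real.exp M * (16 * s * (-mip (Xs s φ z') (Ns s φ z))) := by
          gcongr
      _ = _ := by ring
  have hX0 : ∀ z, mip (Xs s φ z) (Ns s φ z) = 0 := fun z => (mip_frames hs φ z).2.1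
  refine ⟨isInducing_iff_nhds.2 fun z => ?_, ?_⟩
  · refine le_antisymm ?_ ?_
    · have hc : ContinuousAt (fun z : {z : ℂ // (z : OnePoint ℂ) ∈ Gam E} => Xs s φ z) z :=
        ContinuousAt.comp (f := fun z : {z : ℂ // (z : OnePoint ℂ) ∈ Gam E} => (z : ℂ))
          ((Xs_contDiffAt s (hS.cda hE (hE' z))).continuousAt)
          continuous_subtype_val.continuousAt
      exact hc.le_comap
    · refine Metric.nhds_basis_ball.ge_iff.2 fun ε hε => ?_
      set K := 16 * s * Real.exp M * Real.exp (-φ z) with hK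
      have hK0 : 0 < K := by positivity
      refine ⟨{Y | -mip Y (Ns s φ z) < ε ^ 2 / K}, ?_, ?_⟩
      · refine (isOpen_lt (mip_continuous_left _).neg continuous_const).mem_nhds ?_
        change -mip (Xs s φ z) (Ns s φ z) < ε ^ 2 / K
        rw [hX0, neg_zero]
        positivity
      · intro z' hz'
        replace hz' : -mip (Xs s φ z') (Ns s φ z) < ε ^ 2 / K := hz'
        have h1 := key z (hE' z) z' (hE' z')
        have h2 : ‖(z' : ℂ) - z‖ ^ 2 < ε ^ 2 := by
          refine lt_of_le_of_lt h1 ?_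
          rw [lt_div_iff₀ hK0] at hz'
          linarith
        rw [Metric.mem_ball, Subtype.dist_eq, dist_eq_norm]
        exact lt_of_pow_lt_pow_left₀ 2 hε.le h2
  · intro z z' h
    have h1 := key z (hE' z) z' (hE' z')
    simp only at h
    rw [← h, hX0] at h1
    have h2 : ‖(z' : ℂ) - z‖ ^ 2 = 0 := le_antisymm (by simpa using h1) (by positivity)
    have h3 : (z' : ℂ) - z = 0 := by simpa using h2
    exact Subtype.ext (sub_eq_zero.1 h3).symm

/-- points near `X z` on the geodesic in the direction `N z` are outside the domain -/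
theorem Xs_mem_closure {s : ℝ} (hs : 0 < s) {E : Set ℂ} {φ : ℂ → ℝ} {z : ℂ} (hz : z ∉ E) :
    Xs s φ z ∈ closure (H3 \ Cs s φ E) := by
  obtain ⟨hN, hXN, hX⟩ := mip_frames hs φ z
  have hNX : mip (Ns s φ z) (Xs s φ z) = 0 := by rw [mip_comm, hXN]
  set Y : ℝ → Mink := fun t => Real.sqrt (1 + t ^ 2) • Xs s φ z + t • Ns s φ z with hY
  have hc : Continuous Y := by
    have h1 : Continuous fun t : ℝ => Real.sqrt (1 + t ^ 2) := by fun_prop
    exact (h1.smul continuous_const).add (continuous_id.smul continuous_const)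
  have h0 : Y 0 = Xs s φ z := by simp [hY]
  have hYY : ∀ t, mip (Y t) (Y t) = -1 := by
    intro t
    have : Real.sqrt (1 + t ^ 2) * Real.sqrt (1 + t ^ 2) = 1 + t ^ 2 :=
      Real.mul_self_sqrt (by positivity)
    simp only [hY, mip_add_left, mip_add_right, mip_smul_left, mip_smul_right, hN, hXN, hNX, hX]
    linear_combination (-1 : ℝ) * this
  have hYN : ∀ t, mip (Y t) (Ns s φ z) = t := by
    intro t
    simp only [hY, mip_add_left, mip_smul_left, hN, hXN]
    ring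
  have hpos : ∀ᶠ t in 𝓝 (0 : ℝ), 0 < (Y t).1 := by
    have h1 : ContinuousAt (fun t => (Y t).1) 0 := (continuous_fst.comp hc).continuousAt
    have h2 : 0 < (Y 0).1 := by rw [h0]; exact (Xs_mem_H3 hs φ z).2
    exact h1.eventually (lt_mem_nhds h2)
  rw [← h0]
  have ht : Tendsto Y (𝓝[>] 0) (𝓝 (Y 0)) := (hc.tendsto 0).mono_left nhdsWithin_le_nhds
  refine mem_closure_of_tendsto ht ?_
  filter_upwards [hpos.filter_mono nhdsWithin_le_nhds, self_mem_nhdsWithin] with t h1 h2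
  refine ⟨⟨hYY t, h1⟩, fun h => ?_⟩
  have h3 := h.2 z hz
  rw [hYN] at h3
  exact absurd h3 (not_le.2 h2)

theorem mip_infty (n : Mink) : mip (pt OnePoint.infty) n = -n.2.2 / 2 := by
  have : pt OnePoint.infty = ((1, 0, 0) : Mink) := rfl
  rw [this]
  simp [mip]
  ring

theorem pt_coe (z : ℂ) : pt (z : OnePoint ℂ) = lv z := rfl

/-- the half spaces of the tangent planes contain the hull of `E ∪ {∞}` -/
theorem geo_hull {s : ℝ} (hs : 0 < s) {E : Set ℂ} {φ : ℂ → ℝ} (hsm : Small s E φ)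
    {z : ℂ} (hz : z ∉ E) (ζ : OnePoint ℂ) (hζ : ζ ∉ Gam E) : mip (pt ζ) (Ns s φ z) ≤ 0 := by
  have h0 : 0 < Real.sqrt s := Real.sqrt_pos.2 hs
  have e : Real.sqrt s * Real.sqrt s = s := Real.mul_self_sqrt hs.le
  have e2 : Real.exp (2 * φ z) = Real.exp (φ z) * Real.exp (φ z) := by
    rw [← Real.exp_add]; congr 1; ring
  have e3 : Real.exp (φ z) * Real.exp (-φ z) = 1 := by rw [← Real.exp_add]; simp
  have hN : Ns s φ z = (1 / 2 : ℝ) • ((Real.exp (φ z) / Real.sqrt s) • lv z -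
      (4 * Real.sqrt s * Real.exp (-φ z)) • mv z (dzb (cx φ) z)) := rfl
  -- scaling
  have hsc : ∀ a b : ℝ, 4 * s * b ≤ Real.exp (2 * φ z) * a →
      0 ≤ Real.exp (φ z) / Real.sqrt s * a - 4 * Real.sqrt s * Real.exp (-φ z) * b := by
    intro a b hab
    have h1 : Real.exp (φ z) / Real.sqrt s * a - 4 * Real.sqrt s * Real.exp (-φ z) * b =
        (Real.exp (-φ z) / Real.sqrt s) * (Real.exp (2 * φ z) * a - 4 * s * b) := by
      rw [e2]
      field_simp
      linear_combination (-(Real.exp (φ z)) * a) * e3 + (4 * Real.exp (-φ z) * b) * (e - e) +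
        (-4 * Real.exp (-φ z) * b) * e
    rw [h1]
    have : 0 ≤ Real.exp (2 * φ z) * a - 4 * s * b := by linarith
    positivity
  induction ζ using OnePoint.rec with
  | infty =>
    rw [mip_infty, hN]
    have h1 : ((1 / 2 : ℝ) • ((Real.exp (φ z) / Real.sqrt s) • lv z -
      (4 * Real.sqrt s * Real.exp (-φ z)) • mv z (dzb (cx φ) z))).2.2 =
      (1 / 2) * (Real.exp (φ z) / Real.sqrt s * 1 -
        4 * Real.sqrt s * Real.exp (-φ z) * ‖dzb (cx φ) z‖ ^ 2) := rfl
    rw [h1]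
    have h2 := hsc 1 (‖dzb (cx φ) z‖ ^ 2) (by
      have := hsm.q z hz
      nlinarith [sq_nonneg ‖dzb (cx φ) z‖])
    linarith
  | coe e' =>
    have he : e' ∈ E := by
      by_contra h
      exact hζ (Gam_coe.2 h)
    have h1 := hsc (‖e' - z‖ ^ 2) _ (hsm.hull z hz e' he)
    rw [pt_coe, hN, mip_smul_right, mip_sub_right, mip_smul_right, mip_smul_right, mip_lv_lv,
      mip_lv_mv, norm_sub_rev z e']
    linarith

theorem geo_domain' (M : ℝ) : ∃ s₄ : ℝ, 0 < s₄ ∧ s₄ ≤ 1 / 4 ∧ ∀ E : Set ℂ, IsClosed E →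
    E.Nonempty → (∀ z, Metric.infDist z E ≤ 1) → interior E = ∅ → ∀ s : ℝ, 0 < s → s ≤ s₄ →
    ∀ φ : ℂ → ℝ, Sol 6 s M E φ →
      KDomain (-(4 * s) / (1 + 2 * s)) (Gam E) (Cs s φ E) (Xs s φ) (Ns s φ) := by
  obtain ⟨s₁, h1, h1', H1⟩ := X_N_neg M
  obtain ⟨s₂, h2, h2', H2⟩ := small_ex M
  refine ⟨min s₁ s₂, by positivity, (min_le_left _ _).trans h1', ?_⟩
  intro E hEc hEn hEd hint s hs hs' φ hS
  have hE : GeoSet E := ⟨hEc, hEn, hEd⟩
  have hneg := H1 E hE s hs (hs'.trans (min_le_left _ _)) φ hS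
  have hsm := H2 E hE s hs (hs'.trans (min_le_right _ _)) φ hS
  have hXC : ∀ z ∉ E, Xs s φ z ∈ Cs s φ E := by
    intro z hz
    refine ⟨Xs_mem_H3 hs φ z, fun z' hz' => (hneg z' hz' z hz).trans ?_⟩
    rw [neg_div]
    exact neg_nonpos.2 (by positivity)
  have himage : Xs s φ '' {z : ℂ | (z : OnePoint ℂ) ∈ Gam E} =
      {x ∈ Cs s φ E | x ∈ closure (H3 \ Cs s φ E)} := by
    rw [Gam_set]
    ext Y
    constructor
    · rintro ⟨z, hz, rfl⟩
      exact ⟨hXC z hz, Xs_mem_closure hs hz⟩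
    · rintro ⟨hY, hY'⟩
      obtain ⟨z, hz, hzY⟩ := geo_image_aux hs hE hS hsm.q hsm.Qm hY hY'
      exact ⟨z, hz, hzY⟩
  refine
    { infty := ?_
      sub := fun Y hY => hY.1
      closed := Cs_closed s φ E
      conv := ?_
      hull := ?_
      smoothX := ?_
      smoothN := ?_
      homeo := geo_embed hs hE hS hneg
      image := himage
      immersion := ?_
      normal := ?_
      ideal := ?_
      curv := ?_ }
  · simp [Gam]
  · intro x hx y hy a b ha hb hab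
    refine ⟨hab, fun z hz => ?_⟩
    rw [mip_add_left, mip_smul_left, mip_smul_left]
    have := hx.2 z hz
    have := hy.2 z hz
    nlinarith
  · intro x hx hn
    refine ⟨hx, fun z hz => ?_⟩
    exact hn _ (mip_frames hs φ z).1 fun ζ hζ => geo_hull hs hsm hz ζ hζ
  · rw [Gam_set]
    intro z hz
    exact (Xs_contDiffAt s (hS.cda hE hz)).contDiffWithinAt
  · rw [Gam_set]
    intro z hz
    exact (Ns_contDiffAt s (hS.cda hE hz)).contDiffWithinAt
  · intro z hz v hv
    have hz' : z ∉ E := Gam_coe.1 hz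
    rw [geo_I hs ((hS.cda hE hz').of_le (by norm_num))]
    refine mul_pos (by positivity) ?_
    refine pow_pos (norm_pos_iff.2 fun h0 => ?_) 2
    have h3 := hsm.Qp z hz'
    have h4 : ‖(1 + (s : ℂ) * (Lc φ z : ℂ)) * v‖ = ‖(s : ℂ) * (starRingEnd ℂ) (Qc φ z) *
        (starRingEnd ℂ) v‖ := by
      rw [eq_neg_of_add_eq_zero_left h0, norm_neg]
    rw [norm_mul, norm_mul, norm_mul, Complex.norm_conj, Complex.norm_conj, Complex.norm_real,
      show (1 + (s : ℂ) * (Lc φ z : ℂ)) = ((1 + s * Lc φ z : ℝ) : ℂ) by push_cast; ring,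
      Complex.norm_real, Real.norm_of_nonneg hs.le, Real.norm_eq_abs] at h4
    have h5 : 0 < ‖v‖ := norm_pos_iff.2 hv
    have h6 := mul_right_cancel₀ h5.ne' h4
    have h7 := le_abs_self (1 + s * Lc φ z)
    linarith
  · intro z hz
    have hz' : z ∉ E := Gam_coe.1 hz
    exact ⟨(mip_frames hs φ z).1, (mip_frames hs φ z).2.1,
      fun v => dX_orth_N hs ((hS.cda hE hz').of_le (by norm_num)) v, fun Y hY => hY.2 z hz'⟩
  · intro ζ
    rw [geo_ideal hs hE hint hS ζ]
    constructor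
    · rintro ⟨x, hx, ht, hl⟩
      refine ⟨x, fun n => ?_, ht, hl⟩
      obtain ⟨z, hz, hxz⟩ := hx n
      rw [hxz]
      exact ⟨hXC z hz, Xs_mem_closure hs hz⟩
    · rintro ⟨x, hx, ht, hl⟩
      refine ⟨x, fun n => ?_, ht, hl⟩
      obtain ⟨z, hz, hxz⟩ := geo_image_aux hs hE hS hsm.q hsm.Qm (hx n).1 (hx n).2
      exact ⟨z, hz, hxz.symm⟩
  · rw [Gam_set]
    exact geo_curv hs hE hS hsm.Qp

end Pool.Agent.BB4B37
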